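import Pool.Agent.Work.MP_db9399_da_helper71.MIS1Bb

/-!
# MIS1B (helper71): missed vertices of the first rounds, phase 2
-/

set_option autoImplicit false

namespace Pool.Agent.Work.MP_db9399_da_helper71

open Finset Classical
open Pool.Agent.Work.MP_db9399_all (nb)
open Pool.Agent.Work.MP_db9399_lt (us)
open Pool.Agent.Work.MP_db9399_da
open Pool.Agent.Work.MP_db9399_da_helper72

universe u

section
variable {V : Type u} [Fintype V]

theorem us_Fo (o : Finset V) (c0 : V → ℕ) (F : V → Finset ℕ) (b : ℕ) :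
    us (Fo o c0 F) b = us F b ∪ o.filter (fun v => c0 v = b) := by
  ext v
  rw [mem_us, mem_union, mem_us, mem_filter, Fo]
  split_ifs with h
  · rw [mem_insert]
    constructor
    · rintro (h1 | h1)
      · exact Or.inr ⟨h, h1.symm⟩
      · exact Or.inl h1
    · rintro (h1 | h1)
      · exact Or.inr h1
      · exact Or.inl h1.2.symm
  · constructor
    · exact Or.inl
    · rintro (h1 | h1)
      · exact h1
      · exact absurd h1.1 h

end

theorem stmt_MIS1B : Stmt_MIS1B.{u} := by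
  intro C ρ π κ δ K _ _ _ _ _ hδ hK
  have hK' : (1 : ℝ) ≤ K := by exact_mod_cast hK
  have hKp : (0 : ℝ) < K := by linarith
  obtain ⟨n0, hn0⟩ := exists_nat_ge (K / min (δ / (100 * K)) (1 / (1000 * K)) : ℝ)
  refine ⟨min (δ / (100 * K)) (1 / (1000 * K)), n0, by positivity, ?_⟩
  intro V _ G Th d z sd pt Q P2 F A Sp Bk o c0 hd0 hI h
  generalize hθe : min (δ / (100 * K)) (1 / (1000 * K) : ℝ) = θ at *
  have hθpos : 0 < θ := by rw [← hθe]; positivity
  have hθ : K * θ ≤ 1 / 1000 := by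
    have h1 : θ ≤ 1 / (1000 * K) := by rw [← hθe]; exact min_le_right _ _
    rw [le_div_iff₀ (by positivity)] at h1
    linarith
  have hθδ : K * θ ≤ δ / 100 := by
    have h1 : θ ≤ δ / (100 * K) := by rw [← hθe]; exact min_le_left _ _
    rw [le_div_iff₀ (by positivity)] at h1
    linarith
  have hdn : (n0 : ℝ) ≤ d := by exact_mod_cast hd0
  have hd : (K : ℝ) ≤ θ * d := by
    have h1 : K / θ ≤ d := hn0.trans hdn
    rw [div_le_iff₀ hθpos] at h1
    linarith
  have hdnn : (0 : ℝ) ≤ d := by positivity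
  by_cases hV : Nonempty V
  swap
  · have hE : IsEmpty V := not_nonempty_iff.1 hV
    refine ⟨fun _ => ∅, ∅, ∅, ⊥, ?_⟩
    constructor
    · intro b _ v hv
      exact absurd hv (notMem_empty v)
    · intro v _
      exact hE.elim v
    · intro v _
      exact hE.elim v
    · intro b _ v
      exact hE.elim v
    · intro b _ v
      exact hE.elim v
    · intro b _ v
      exact hE.elim v
    · intro b _
      simp
    · intro b _
      rw [card_eq_zero.2 (Finset.eq_empty_of_isEmpty _), card_eq_zero.2 (Finset.eq_empty_of_isEmpty _)]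
    · intro b _ b' _ v
      exact hE.elim v
    · intro v
      exact hE.elim v
    · exact disjoint_empty_left _
    · intro i
      rw [Finset.eq_empty_of_isEmpty (filter _ _)]
      simp only [sum_empty, Int.cast_zero, abs_zero]
      positivity
    · intro β i
      rw [Finset.eq_empty_of_isEmpty (_ ∩ _)]
      simp only [card_empty, Nat.cast_zero]
      positivity
    · intro v
      exact hE.elim v
    · intro v
      exact hE.elim v
    · intro v
      exact hE.elim v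
  obtain ⟨f, g, hc1, hc2, hc3, hc4, hc5, hc6, hc7⟩ := coreB hK hθpos hθ hd hI h
  set nd := need (Fo o c0 F) sd with hnd
  have hSpc := h.Sc
  have hoc : (o.card : ℝ) ≤ K := by exact_mod_cast h.ok
  -- membership
  have hTo : ∀ v, v ∈ o ∪ ((rq nd (P1 d Q P2)).filter (fun r => r.2.1 ∉ Bk r.1)).image f ↔
      v ∈ o ∨ ∃ r ∈ rq nd (P1 d Q P2), r.2.1 ∉ Bk r.1 ∧ f r = v := by
    intro v
    simp only [mem_union, mem_image, mem_filter, and_assoc]
  have hPo : ∀ v, v ∈ ((rq nd (P1 d Q P2)).filter (fun r => r.2.1 ∈ Bk r.1)).image f ↔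
      ∃ r ∈ rq nd (P1 d Q P2), r.2.1 ∈ Bk r.1 ∧ f r = v := by
    intro v
    simp only [mem_image, mem_filter, and_assoc]
  have hWo : ∀ b v, v ∈ Wm nd (P1 d Q P2) f b ∪ o.filter (fun v => c0 v = b) ↔
      (∃ r ∈ rq nd (P1 d Q P2), r.2.1 = b ∧ f r = v) ∨ (v ∈ o ∧ c0 v = b) := by
    intro b v
    rw [mem_union, mem_Wm, mem_filter]
  have hall : (o ∪ ((rq nd (P1 d Q P2)).filter (fun r => r.2.1 ∉ Bk r.1)).image f) ∪
      ((rq nd (P1 d Q P2)).filter (fun r => r.2.1 ∈ Bk r.1)).image f =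
      o ∪ (rq nd (P1 d Q P2)).image f := by
    ext v
    rw [mem_union, hTo, hPo, mem_union, mem_image]
    constructor
    · rintro ((h1 | ⟨r, h1, _, h2⟩) | ⟨r, h1, _, h2⟩)
      · exact Or.inl h1
      · exact Or.inr ⟨r, h1, h2⟩
      · exact Or.inr ⟨r, h1, h2⟩
    · rintro (h1 | ⟨r, h1, h2⟩)
      · exact Or.inl (Or.inl h1)
      · by_cases hS : r.2.1 ∈ Bk r.1
        · exact Or.inr ⟨r, h1, hS, h2⟩
        · exact Or.inl (Or.inr ⟨r, h1, hS, h2⟩)
  have hdisj : Disjoint o ((rq nd (P1 d Q P2)).image f) := by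
    rw [disjoint_left]
    intro v hv hv'
    obtain ⟨r, hr, rfl⟩ := mem_image.1 hv'
    exact (hc2 r hr).2.2 hv
  have hne : ∀ r ∈ (rq nd (P1 d Q P2)).filter (fun r => r.2.1 ∈ Bk r.1), g r ≠ f r := by
    intro r hr
    rw [mem_filter] at hr
    exact (hc6 r hr.1 hr.2).2.1.ne
  have hst : ∀ r ∈ rq nd (P1 d Q P2), ∀ r' ∈ rq nd (P1 d Q P2), r.2.1 = r'.2.1 →
      sd (f r) = sd (f r') := by
    intro r hr r' hr' he
    rw [(hc2 r hr).1, (hc2 r' hr').1]
    have h1 := (mem_rq.1 hr).2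
    have h2 := (mem_rq.1 hr').2
    rw [← he] at h2
    rw [hnd] at h1 h2
    exact need_one (Fo o c0 F) sd r.1 r'.1 r.2.1 (by omega) (by omega)
  refine ⟨fun b => Wm nd (P1 d Q P2) f b ∪ o.filter (fun v => c0 v = b),
    o ∪ ((rq nd (P1 d Q P2)).filter (fun r => r.2.1 ∉ Bk r.1)).image f,
    ((rq nd (P1 d Q P2)).filter (fun r => r.2.1 ∈ Bk r.1)).image f,
    N0g ((rq nd (P1 d Q P2)).filter (fun r => r.2.1 ∈ Bk r.1)) f g hne, ?_⟩
  constructor
  -- WF
  · intro b _ v hv
    rcases (hWo b v).1 hv with ⟨r, hr, rfl, rfl⟩ | ⟨h1, rfl⟩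
    · exact (hc2 r hr).2.1
    · exact (h.oc v h1).2
  -- oT1
  · exact subset_union_left
  -- oW
  · intro v hv
    exact ⟨h.SP (h.oc v hv).1, (hWo _ v).2 (Or.inr ⟨hv, rfl⟩)⟩
  -- TA
  · intro b _ v hv hT ho
    rcases (hWo b v).1 hv with ⟨r, hr, rfl, rfl⟩ | ⟨h1, _⟩
    · rcases (hTo (f r)).1 hT with h1 | ⟨r', hr', hS, he⟩
      · exact absurd h1 ho
      · have h2 := hc4 r' hr' r hr he
        subst h2
        exact hc3 r' hr' hS
    · exact absurd h1 ho
  -- TT
  · intro b _ v hv w hw hTv hTw hvw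
    rcases (hWo b v).1 hv with ⟨r, hr, rfl, rfl⟩ | ⟨h1, h1'⟩
    · have hSr : r.2.1 ∉ Bk r.1 := by
        rcases (hTo (f r)).1 hTv with h1 | ⟨r', hr', hS, he⟩
        · exact absurd h1 (hc2 r hr).2.2
        · rw [← hc4 r' hr' r hr he]
          exact hS
      rcases (hWo _ w).1 hw with ⟨r', hr', he', rfl⟩ | ⟨h2, h2'⟩
      · have hSr' : r'.2.1 ∉ Bk r'.1 := by
          rcases (hTo (f r')).1 hTw with h1 | ⟨q, hq, hS, he⟩
          · exact absurd h1 (hc2 r' hr').2.2
          · rw [← hc4 q hq r' hr' he]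
            exact hS
        have h3 : r ≠ r' := by
          rintro rfl
          exact hvw.ne rfl
        exact hc5 r hr hSr r' hr' hSr' h3 he'.symm hvw
      · have h3 := (h.oT w h2 (f r) hvw.symm).2 (hc2 r hr).2.2
        rw [h2'] at h3
        exact hc3 r hr hSr h3
    · rcases (hWo _ w).1 hw with ⟨r', hr', he', rfl⟩ | ⟨h2, h2'⟩
      · have hSr' : r'.2.1 ∉ Bk r'.1 := by
          rcases (hTo (f r')).1 hTw with h1 | ⟨q, hq, hS, he⟩
          · exact absurd h1 (hc2 r' hr').2.2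
          · rw [← hc4 q hq r' hr' he]
            exact hS
        have h3 := (h.oT v h1 (f r') hvw).2 (hc2 r' hr').2.2
        rw [h1', ← he'] at h3
        exact hc3 r' hr' hSr' h3
      · exact (h.oT v h1 w hvw).1 h2 (h1'.trans h2'.symm)
  -- TG
  · intro b _ v hv w hw hTv hTw hvw
    rcases (hWo b v).1 hv with ⟨r, hr, rfl, rfl⟩ | ⟨h1, h1'⟩
    · have hSr : r.2.1 ∉ Bk r.1 := by
        rcases (hTo (f r)).1 hTv with h1 | ⟨r', hr', hS, he⟩
        · exact absurd h1 (hc2 r hr).2.2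
        · rw [← hc4 r' hr' r hr he]
          exact hS
      rcases (hWo _ w).1 hw with ⟨r', hr', he', rfl⟩ | ⟨h2, h2'⟩
      · exact h.bip _ _ hvw (hst r hr r' hr' he'.symm)
      · have h3 := (h.oG w h2 (f r) hvw.symm).2
        rw [h2'] at h3
        exact hc3 r hr hSr h3
    · rcases (hWo _ w).1 hw with ⟨r', hr', he', rfl⟩ | ⟨h2, h2'⟩
      · have hSr' : r'.2.1 ∉ Bk r'.1 := by
          rcases (hTo (f r')).1 hTw with h1 | ⟨q, hq, hS, he⟩
          · exact absurd h1 (hc2 r' hr').2.2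
          · rw [← hc4 q hq r' hr' he]
            exact hS
        have h3 := (h.oG v h1 (f r') hvw).2
        rw [h1', ← he'] at h3
        exact hc3 r' hr' hSr' h3
      · exact (h.oG v h1 w hvw).1 h2
  -- Wc
  · intro b hb
    have h1 : (Wm nd (P1 d Q P2) f b).card ≤ K :=
      card_image_le.trans ((card_rq_round_le _ _ _).trans (ndB_le h b hb))
    have h2 : (o.filter (fun v => c0 v = b)).card ≤ K := (card_le_card (filter_subset _ _)).trans h.ok
    have h3 := card_union_le (Wm nd (P1 d Q P2) f b) (o.filter (fun v => c0 v = b))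
    omega
  -- bal
  · intro b hb
    have hU : us F b ∪ (Wm nd (P1 d Q P2) f b ∪ o.filter (fun v => c0 v = b)) =
        us (Fo o c0 F) b ∪ Wm nd (P1 d Q P2) f b := by
      rw [us_Fo]
      ext v
      simp only [mem_union]
      tauto
    beta_reduce
    rw [hU]
    have hside : ∀ β, (sid sd β ∩ Wm nd (P1 d Q P2) f b).card = nd β b := by
      intro β
      rw [← card_rq_round nd (P1 d Q P2) β b hb, ← card_image_of_injOn (f := f)]
      · congr 1
        ext v
        simp only [mem_inter, mem_sid, mem_Wm, mem_image, mem_filter]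
        constructor
        · rintro ⟨h1, r, hr, he, rfl⟩
          exact ⟨r, ⟨hr, ((hc2 r hr).1.symm.trans h1), he⟩, rfl⟩
        · rintro ⟨r, ⟨hr, h1, he⟩, rfl⟩
          exact ⟨(hc2 r hr).1.trans h1, r, hr, he, rfl⟩
      · intro r hr r' hr' he
        exact hc4 r (mem_filter.1 (mem_coe.1 hr)).1 r' (mem_filter.1 (mem_coe.1 hr')).1 he
    have hdis : ∀ β, (sid sd β \ (us (Fo o c0 F) b ∪ Wm nd (P1 d Q P2) f b)).card +
        (sid sd β ∩ us (Fo o c0 F) b).card + nd β b = (sid sd β).card := by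
      intro β
      rw [← hside β]
      have h1 : sid sd β = (sid sd β \ (us (Fo o c0 F) b ∪ Wm nd (P1 d Q P2) f b)) ∪
          ((sid sd β ∩ us (Fo o c0 F) b) ∪ (sid sd β ∩ Wm nd (P1 d Q P2) f b)) := by
        ext v
        simp only [mem_union, mem_sdiff, mem_inter]
        tauto
      have h2 : Disjoint (sid sd β \ (us (Fo o c0 F) b ∪ Wm nd (P1 d Q P2) f b))
          ((sid sd β ∩ us (Fo o c0 F) b) ∪ (sid sd β ∩ Wm nd (P1 d Q P2) f b)) := by
        rw [disjoint_left]
        intro v hv hv'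
        simp only [mem_union, mem_sdiff, mem_inter] at hv hv'
        tauto
      have h3 : Disjoint (sid sd β ∩ us (Fo o c0 F) b) (sid sd β ∩ Wm nd (P1 d Q P2) f b) := by
        rw [disjoint_left]
        intro v hv hv'
        rw [mem_inter] at hv hv'
        obtain ⟨r, hr, rfl, rfl⟩ := mem_Wm.1 hv'.2
        have h4 := hv.2
        rw [us_Fo, mem_union, mem_us, mem_filter] at h4
        rcases h4 with h4 | h4
        · exact (hc2 r hr).2.1 h4
        · exact (hc2 r hr).2.2 h4.1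
      have h4 := congrArg card h1
      rw [card_union_of_disjoint h2, card_union_of_disjoint h3] at h4
      omega
    have heq : (sid sd false).card = (sid sd true).card := by
      have h1 : ∀ β, (sid sd β).card = (qtr sd pt β false).card + (qtr sd pt β true).card := by
        intro β
        rw [← card_union_of_disjoint]
        · congr 1
          ext v
          simp only [mem_union, mem_sid, mem_qtr]
          cases pt v <;> simp
        · rw [disjoint_left]
          intro v hv hv'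
          rw [mem_qtr] at hv hv'
          rw [hv.2] at hv'
          exact absurd hv'.2 (by decide)
      rw [h1, h1, h.eqs false, h.eqs true]
    have h1 := hdis false
    have h2 := hdis true
    have h3 := need_bal (Fo o c0 F) sd b
    rw [← hnd] at h3
    omega
  -- one
  · intro b _ b' _ v hv hv'
    rcases (hWo b v).1 hv with ⟨r, hr, rfl, rfl⟩ | ⟨h1, h1'⟩
    · rcases (hWo b' (f r)).1 hv' with ⟨r', hr', rfl, he⟩ | ⟨h2, _⟩
      · rw [hc4 r' hr' r hr he]
      · exact absurd h2 (hc2 r hr).2.2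
    · rcases (hWo b' v).1 hv' with ⟨r', hr', _, he⟩ | ⟨_, h2'⟩
      · rw [← he] at h1
        exact absurd h1 (hc2 r' hr').2.2
      · exact h1'.symm.trans h2'
  -- TPW
  · intro v
    rw [hall, mem_union, mem_image]
    constructor
    · rintro (h1 | ⟨r, hr, rfl⟩)
      · exact ⟨c0 v, h.SP (h.oc v h1).1, (hWo _ v).2 (Or.inr ⟨h1, rfl⟩)⟩
      · exact ⟨r.2.1, (mem_rq.1 hr).1, (hWo _ _).2 (Or.inl ⟨r, hr, rfl, rfl⟩)⟩
    · rintro ⟨b, hb, hv⟩
      rcases (hWo b v).1 hv with ⟨r, hr, _, he⟩ | ⟨h1, _⟩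
      · exact Or.inr ⟨r, hr, he⟩
      · exact Or.inl h1
  -- TP
  · rw [disjoint_left]
    intro v hv hv'
    obtain ⟨r, hr, hS, rfl⟩ := (hPo v).1 hv'
    rcases (hTo (f r)).1 hv with h1 | ⟨r', hr', hS', he⟩
    · exact (hc2 r hr).2.2 h1
    · rw [hc4 r' hr' r hr he] at hS'
      exact hS' hS
  -- sgn
  · intro i
    rw [hall, filter_union, sum_union (disjoint_filter_filter hdisj)]
    have ho : |∑ v ∈ o.filter (fun v => pt v = i), sgv (sd v)| ≤ (K : ℤ) := by
      refine (abs_sum_le_sum_abs _ _).trans ?_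
      have e1 : ∑ v ∈ o.filter (fun v => pt v = i), |sgv (sd v)| ≤
          ∑ v ∈ o.filter (fun v => pt v = i), (1 : ℤ) := by
        apply sum_le_sum
        intro v _
        cases sd v <;> simp [sgv]
      refine e1.trans ?_
      rw [sum_const, nsmul_eq_mul, mul_one]
      have e2 : (o.filter (fun v => pt v = i)).card ≤ K :=
        (card_le_card (filter_subset _ _)).trans h.ok
      exact_mod_cast e2
    have h1 : ∑ v ∈ ((rq nd (P1 d Q P2)).image f).filter (fun v => pt v = i),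
        sgv (sd v) =
        (((rq nd (P1 d Q P2)).filter fun r => r.1 = false ∧ pt (f r) = i).card : ℤ) -
          (((rq nd (P1 d Q P2)).filter fun r => r.1 = true ∧ pt (f r) = i).card : ℤ) := by
      rw [filter_image, sum_image]
      · have h2 : ∀ r ∈ (rq nd (P1 d Q P2)).filter (fun r => pt (f r) = i),
            sgv (sd (f r)) = (if r.1 = false then (1 : ℤ) else 0) - if r.1 = true then 1 else 0 := by
          intro r hr
          rw [(hc2 r (mem_filter.1 hr).1).1]
          cases r.1 <;> simp [sgv]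
        rw [sum_congr rfl h2, sum_sub_distrib]
        simp only [Finset.sum_boole, Finset.filter_filter]
        simp only [and_comm]
      · intro r hr r' hr' he
        exact hc4 r (mem_filter.1 (mem_coe.1 hr)).1 r' (mem_filter.1 (mem_coe.1 hr')).1 he
    rw [h1]
    have h2 := hc1 false i
    have h3 := hc1 true i
    have h4 : ((∑ b ∈ P1 d Q P2 \ Sp, nd false b : ℕ) : ℤ) -
        ((∑ b ∈ P1 d Q P2 \ Sp, nd true b : ℕ) : ℤ) =
        - ∑ b ∈ P1 d Q P2 \ Sp, sg (Fo o c0 F) sd b := by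
      push_cast
      rw [← sum_sub_distrib, ← sum_neg_distrib]
      exact sum_congr rfl fun b _ => need_sub (Fo o c0 F) sd b
    have h5 : |∑ b ∈ P1 d Q P2 \ Sp, sg (Fo o c0 F) sd b -
        ∑ b ∈ P1 d Q P2, sg (Fo o c0 F) sd b| ≤ (K : ℤ) * Sp.card := by
      have e1 : ∑ b ∈ P1 d Q P2, sg (Fo o c0 F) sd b =
          ∑ b ∈ P1 d Q P2 \ Sp, sg (Fo o c0 F) sd b + ∑ b ∈ Sp, sg (Fo o c0 F) sd b :=
        (sum_sdiff h.SP).symm
      have e2 : |∑ b ∈ Sp, sg (Fo o c0 F) sd b| ≤ (K : ℤ) * Sp.card := by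
        refine (abs_sum_le_sum_abs _ _).trans ?_
        refine (sum_le_sum fun b hb => h.gs b (h.SP hb)).trans ?_
        rw [sum_const, nsmul_eq_mul, mul_comm]
      rw [e1]
      rw [abs_le] at e2 ⊢
      constructor <;> omega
    have h6 := h.sm1
    set b0 := ((rq nd (P1 d Q P2)).filter fun r => r.1 = false ∧ pt (f r) = i).card
    set b1 := ((rq nd (P1 d Q P2)).filter fun r => r.1 = true ∧ pt (f r) = i).card
    set S := ∑ b ∈ P1 d Q P2, sg (Fo o c0 F) sd b
    set S2 := ∑ b ∈ P1 d Q P2 \ Sp, sg (Fo o c0 F) sd b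
    set O1 := ∑ v ∈ o.filter (fun v => pt v = i), sgv (sd v)
    have h7 : |2 * (O1 + ((b0 : ℤ) - b1))| ≤ |S| + 3 * ((K : ℤ) * Sp.card) + 2 + 2 * K := by
      have a1 := abs_le.1 h5
      have a2 := le_abs_self S
      have a3 := neg_abs_le S
      have a4 := abs_le.1 ho
      have a5 : ((K * Sp.card : ℕ) : ℤ) = (K : ℤ) * Sp.card := by push_cast; ring
      rw [abs_le]
      constructor <;> omega
    have h8 : |(2 * ((O1 : ℝ) + ((b0 : ℝ) - b1)))| ≤ |(S : ℝ)| + 3 * ((K : ℝ) * Sp.card) + 2 +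
        2 * K := by
      exact_mod_cast h7
    rw [abs_mul, abs_two] at h8
    push_cast
    have h9 : K * θ * d ≤ δ / 100 * d := mul_le_mul_of_nonneg_right hθδ hdnn
    have h10 : |(S : ℝ)| ≤ θ * d := h6
    have h11 : (K : ℝ) * Sp.card ≤ K * (θ * d) := mul_le_mul_of_nonneg_left hSpc hKp.le
    have h12 : θ * d ≤ K * (θ * d) := by
      have : 0 ≤ θ * d := by positivity
      nlinarith
    linarith
  -- qua
  · intro β i
    have h1 : qtr sd pt β i ∩ (o ∪ (rq nd (P1 d Q P2)).image f) ⊆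
        o ∪ ((rq nd (P1 d Q P2)).filter fun r => r.1 = β ∧ pt (f r) = i).image f := by
      intro v hv
      rw [mem_inter, mem_qtr, mem_union, mem_image] at hv
      rw [mem_union]
      obtain ⟨⟨h2, h3⟩, h4 | ⟨r, hr, rfl⟩⟩ := hv
      · exact Or.inl h4
      · exact Or.inr (mem_image_of_mem f
          (mem_filter.2 ⟨hr, (hc2 r hr).1.symm.trans h2, h3⟩))
    rw [hall]
    have h2 := (card_le_card h1).trans ((card_union_le _ _).trans
      (Nat.add_le_add_left card_image_le _))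
    have h3 := (hc1 β i).1
    have h4 : ∑ b ∈ P1 d Q P2 \ Sp, nd β b ≤ ∑ b ∈ P1 d Q P2, nd β b :=
      sum_le_sum_of_subset sdiff_subset
    have h5 : 2 * (qtr sd pt β i ∩ (o ∪ (rq nd (P1 d Q P2)).image f)).card ≤
        (∑ b ∈ P1 d Q P2, nd β b) + 1 + 2 * (K * Sp.card) + 2 * o.card := by omega
    have h6 : (2 : ℝ) * (qtr sd pt β i ∩ (o ∪ (rq nd (P1 d Q P2)).image f)).card ≤
        ((∑ b ∈ P1 d Q P2, nd β b : ℕ) : ℝ) + 1 + 2 * (K * Sp.card) + 2 * o.card := by
      exact_mod_cast h5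
    have h7 := h.tot β
    rw [← hnd] at h7
    have h9 : K * θ * d ≤ δ / 100 * d := mul_le_mul_of_nonneg_right hθδ hdnn
    have h11 : (K : ℝ) * Sp.card ≤ K * (θ * d) := mul_le_mul_of_nonneg_left hSpc hKp.le
    have h12 : θ * d ≤ K * (θ * d) := by
      have : 0 ≤ θ * d := by positivity
      nlinarith
    linarith
  -- N0a
  · rintro v w ⟨r, hr, ⟨rfl, rfl⟩ | ⟨rfl, rfl⟩⟩
    · rw [mem_filter] at hr
      obtain ⟨h1, h2, h3⟩ := hc6 r hr.1 hr.2
      exact ⟨h2.symm, h3.symm, Or.inl ⟨(hPo _).2 ⟨r, hr.1, hr.2, rfl⟩, (hTo _).2 h1⟩⟩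
    · rw [mem_filter] at hr
      obtain ⟨h1, h2, h3⟩ := hc6 r hr.1 hr.2
      exact ⟨h2, h3, Or.inr ⟨(hPo _).2 ⟨r, hr.1, hr.2, rfl⟩, (hTo _).2 h1⟩⟩
  -- N0m
  · intro v
    unfold dg
    rw [card_le_one]
    intro a ha b hb
    rw [mem_filter] at ha hb
    obtain ⟨r, hr, h1⟩ := ha.2
    obtain ⟨r', hr', h1'⟩ := hb.2
    rw [mem_filter] at hr hr'
    have hx : ∀ s ∈ rq nd (P1 d Q P2), s.2.1 ∈ Bk s.1 → ∀ s' ∈ rq nd (P1 d Q P2),
        s'.2.1 ∈ Bk s'.1 → f s = g s' → False := by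
      intro s hs hsB s' hs' hsB' he
      rcases (hc6 s' hs' hsB').1 with h2 | ⟨q, hq, hqB, hq2⟩
      · rw [← he] at h2
        exact (hc2 s hs).2.2 h2
      · have h2 : s = q := hc4 s hs q hq (he.trans hq2.symm)
        rw [← h2] at hqB
        exact hqB hsB
    rcases h1 with ⟨h1, h2⟩ | ⟨h1, h2⟩ <;> rcases h1' with ⟨h1', h2'⟩ | ⟨h1', h2'⟩
    · have h3 : r = r' := hc4 r hr.1 r' hr'.1 (h1.symm.trans h1')
      rw [h2, h2', h3]
    · exact (hx r hr.1 hr.2 r' hr'.1 hr'.2 (h1.symm.trans h2')).elim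
    · exact (hx r' hr'.1 hr'.2 r hr.1 hr.2 (h1'.symm.trans h2)).elim
    · have h3 : r = r' := hc7 r hr.1 hr.2 r' hr'.1 hr'.2 (h2.symm.trans h2')
      rw [h1, h1', h3]
  -- N0p
  · intro v hv
    obtain ⟨r, hr, hS, rfl⟩ := (hPo v).1 hv
    exact ⟨g r, (hTo _).2 (hc6 r hr hS).1, r, mem_filter.2 ⟨hr, hS⟩, Or.inl ⟨rfl, rfl⟩⟩

end Pool.Agent.Work.MP_db9399_da_helper71
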