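import Pool.Agent.Work.MP_db9399_da_helper71.MIS1a

/-!
# MIS1 (helper71): missed vertices of the first rounds, phase 1
-/

set_option autoImplicit false

namespace Pool.Agent.Work.MP_db9399_da_helper71

open Finset Classical
open Pool.Agent.Work.MP_db9399_all (nb)
open Pool.Agent.Work.MP_db9399_lt (us)
open Pool.Agent.Work.MP_db9399_da
open Pool.Agent.Work.MP_db9399_da_helper72

universe u

section
variable {V : Type u} [Fintype V]

omit [Fintype V] in
/-- upper and lower bound for the number of requests of a side which are served in a part -/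
theorem cnt (nd : Bool → ℕ → ℕ) (B S : Finset ℕ) (pt : V → Bool) (f : Bool × ℕ × ℕ → V)
    (pi : Bool × ℕ × ℕ → Bool) (hB : ∀ r ∈ rq nd (B \ S), pt (f r) = pi r) (β i : Bool) :
    ((rq nd B).filter fun r => r.1 = β ∧ pt (f r) = i).card ≤
        ((rq nd (B \ S)).filter fun r => r.1 = β ∧ pi r = i).card + (rq nd S).card ∧
      ((rq nd (B \ S)).filter fun r => r.1 = β ∧ pi r = i).card ≤
        ((rq nd B).filter fun r => r.1 = β ∧ pt (f r) = i).card := by
  constructor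
  · refine (card_le_card (t := ((rq nd (B \ S)).filter fun r => r.1 = β ∧ pi r = i) ∪ rq nd S)
      ?_).trans (card_union_le _ _)
    intro r hr
    rw [mem_filter] at hr
    rw [mem_union]
    have h1 := mem_rq.1 hr.1
    by_cases hS : r.2.1 ∈ S
    · right
      exact mem_rq.2 ⟨hS, h1.2⟩
    · left
      have h2 : r ∈ rq nd (B \ S) := mem_rq.2 ⟨mem_sdiff.2 ⟨h1.1, hS⟩, h1.2⟩
      rw [mem_filter]
      exact ⟨h2, hr.2.1, (hB r h2).symm.trans hr.2.2⟩
  · apply card_le_card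
    intro r hr
    rw [mem_filter] at hr ⊢
    exact ⟨rq_mono sdiff_subset hr.1, hr.2.1, (hB r hr.1).trans hr.2.2⟩

/-- step 3: vertices and partners for the rounds of `Sf` -/
theorem step3 [Nonempty V] {G Th : SimpleGraph V} {d z : ℕ} {C ρ π κ θ : ℝ} {sd pt : V → Bool}
    {Q : Bool → Finset ℕ} {P2 : Finset ℕ} {F A : V → Finset ℕ} {Sp Sf : Finset ℕ}
    (hθ : θ ≤ 1 / 1000) (hd : 1 ≤ θ * d) (hI : LI G d C ρ π κ θ sd pt Q P2 F)
    (h : LB G Th d z θ sd pt Q P2 F A Sp Sf)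
    (f : Bool × ℕ × ℕ → V) (pi : Bool × ℕ × ℕ → Bool)
    (hpi : ∀ β i, 2 * ((rq (need F sd) ((P1 d Q P2 \ Sf) \ Sp)).filter
          fun r => r.1 = β ∧ pi r = i).card ≤
          (∑ b ∈ (P1 d Q P2 \ Sf) \ Sp, need F sd β b) + 1)
    (hf1 : ∀ r ∈ rq (need F sd) (P1 d Q P2 \ Sf), sd (f r) = r.1)
    (hf2 : ∀ r ∈ rq (need F sd) ((P1 d Q P2 \ Sf) \ Sp), pt (f r) = pi r)
    (hf3 : ∀ r ∈ rq (need F sd) (P1 d Q P2 \ Sf), ∀ r' ∈ rq (need F sd) (P1 d Q P2 \ Sf), r ≠ r' →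
        f r ≠ f r') :
    ∃ g : Bool × ℕ × ℕ → V × V,
      (∀ r ∈ rq (need F sd) Sf, g r ∈ (univ : Finset (V × V)).filter fun p =>
        p.1 ∈ (rq (need F sd) (P1 d Q P2 \ Sf)).image f ∧ sd p.2 = r.1 ∧ G.Adj p.1 p.2 ∧
        pt p.1 = pt p.2 ∧ p.2 ∉ (rq (need F sd) (P1 d Q P2 \ Sf)).image f ∧ r.2.1 ∉ F p.2) ∧
      ∀ r ∈ rq (need F sd) Sf, ∀ r' ∈ rq (need F sd) Sf, r ≠ r' →
        ¬ ((g r).1 = (g r').1 ∨ (g r).2 = (g r').2) := by
  apply greedy (rq (need F sd) Sf) (fun r => (univ : Finset (V × V)).filter fun p =>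
        p.1 ∈ (rq (need F sd) (P1 d Q P2 \ Sf)).image f ∧ sd p.2 = r.1 ∧ G.Adj p.1 p.2 ∧
        pt p.1 = pt p.2 ∧ p.2 ∉ (rq (need F sd) (P1 d Q P2 \ Sf)).image f ∧ r.2.1 ∉ F p.2)
    (fun _ _ x x' => x.1 = x'.1 ∨ x.2 = x'.2)
    (fun _ _ x x' hc => hc.elim (fun e => Or.inl e.symm) (fun e => Or.inr e.symm))
  intro R' hR' r hr _ g _
  have hr2 := mem_rq.1 hr
  have hnp : 0 < need F sd r.1 r.2.1 := by omega
  have hd0 : (0 : ℝ) ≤ d := by positivity
  have hSf : (rq (need F sd) Sf).card ≤ 8 * Sf.card := card_rq_le h Sf h.SfP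
  have hSp : (rq (need F sd) Sp).card ≤ 8 * Sp.card := card_rq_le h Sp h.SP
  have hrich : 80 * (Sf.card + 1) ≤ ∑ b ∈ P1 d Q P2 \ Sf, need F sd (!r.1) b := by
    rcases h.rich with h1 | h1
    · exfalso
      have h2 := h1 r.2.1 hr2.1
      have h3 := need_add F sd r.2.1
      rw [h2] at h3
      have h4 : need F sd r.1 r.2.1 ≤ need F sd false r.2.1 + need F sd true r.2.1 := by
        cases r.1
        · exact Nat.le_add_right _ _
        · exact Nat.le_add_left _ _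
      simp only [Int.natAbs_zero] at h3
      omega
    · exact h1 (!r.1)
  -- the unused partner
  obtain ⟨w, hw, hw2⟩ : ∃ w ∈ ((rq (need F sd) (P1 d Q P2 \ Sf)).filter
      fun r' => r'.1 = !r.1).image f, w ∉ R'.image fun r' => (g r').1 := by
    by_contra hcon
    push Not at hcon
    have h1 : (((rq (need F sd) (P1 d Q P2 \ Sf)).filter fun r' => r'.1 = !r.1).image f).card ≤
        (R'.image fun r' => (g r').1).card := card_le_card hcon
    have h2 : (((rq (need F sd) (P1 d Q P2 \ Sf)).filter fun r' => r'.1 = !r.1).image f).card =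
        ∑ b ∈ P1 d Q P2 \ Sf, need F sd (!r.1) b := by
      rw [card_image_of_injOn, card_rq_side]
      intro a ha a' ha' he
      by_contra hne
      have ha1 := (mem_filter.1 (mem_coe.1 ha)).1
      have ha2 := (mem_filter.1 (mem_coe.1 ha')).1
      exact hf3 a ha1 a' ha2 hne he
    have h3 : (R'.image fun r' => (g r').1).card ≤ 8 * Sf.card :=
      (card_image_le.trans (card_le_card hR')).trans hSf
    omega
  obtain ⟨rw, hrw, hrw2⟩ := mem_image.1 hw
  rw [mem_filter] at hrw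
  have hsw : sd w = !r.1 := by
    rw [← hrw2, hf1 rw hrw.1]
    exact hrw.2
  -- the missed vertex
  have hmsb : (((rq (need F sd) (P1 d Q P2 \ Sf)).image f ∩ qtr sd pt r.1 (pt w)).card : ℝ) ≤
      3 / 10 * d + 9 * (θ * d) := by
    have h1 : (rq (need F sd) (P1 d Q P2 \ Sf)).image f ∩ qtr sd pt r.1 (pt w) ⊆
        ((rq (need F sd) (P1 d Q P2 \ Sf)).filter
          fun r' => r'.1 = r.1 ∧ pt (f r') = pt w).image f := by
      intro x hx
      rw [mem_inter, mem_image, mem_qtr] at hx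
      obtain ⟨⟨a, ha, rfl⟩, hx1, hx2⟩ := hx
      refine mem_image_of_mem f (mem_filter.2 ⟨ha, ?_, hx2⟩)
      rw [← hf1 a ha]
      exact hx1
    have h2 := (card_le_card h1).trans card_image_le
    have h3 := (cnt (need F sd) (P1 d Q P2 \ Sf) Sp pt f pi hf2 r.1 (pt w)).1
    have h4 := hpi r.1 (pt w)
    have h5 : ∑ b ∈ (P1 d Q P2 \ Sf) \ Sp, need F sd r.1 b ≤ ∑ b ∈ P1 d Q P2, need F sd r.1 b :=
      sum_le_sum_of_subset (fun b hb => (mem_sdiff.1 (mem_sdiff.1 hb).1).1)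
    have h6 : 2 * ((rq (need F sd) (P1 d Q P2 \ Sf)).image f ∩ qtr sd pt r.1 (pt w)).card ≤
        (∑ b ∈ P1 d Q P2, need F sd r.1 b) + 1 + 16 * Sp.card := by omega
    have h7 : (2 : ℝ) * ((rq (need F sd) (P1 d Q P2 \ Sf)).image f ∩ qtr sd pt r.1 (pt w)).card ≤
        ((∑ b ∈ P1 d Q P2, need F sd r.1 b : ℕ) : ℝ) + 1 + 16 * Sp.card := by exact_mod_cast h6
    have h8 := h.tot r.1
    have h9 := h.Sc
    linarith
  have hnbw : (d : ℝ) / 2 - θ * d ≤ ((nb G w ∩ prt pt (pt w)).card : ℝ) := by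
    have h1 := abs_le.1 (h.dgp w (pt w))
    linarith [h1.1]
  have hnq : nb G w ∩ prt pt (pt w) ⊆ qtr sd pt r.1 (pt w) := by
    intro x hx
    rw [mem_inter, mem_nb, mem_prt] at hx
    rw [mem_qtr]
    refine ⟨?_, hx.2⟩
    have h3 := h.bip w x hx.1
    rw [hsw] at h3
    cases hb : r.1 <;> cases hsx : sd x <;> simp_all
  obtain ⟨v, hv, hv2⟩ : ∃ v ∈ nb G w ∩ prt pt (pt w),
      v ∉ ((rq (need F sd) (P1 d Q P2 \ Sf)).image f ∩ qtr sd pt r.1 (pt w)) ∪
        (us F r.2.1 ∪ R'.image fun r' => (g r').2) := by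
    by_contra hcon
    push Not at hcon
    have h1 : (nb G w ∩ prt pt (pt w)).card ≤
        ((rq (need F sd) (P1 d Q P2 \ Sf)).image f ∩ qtr sd pt r.1 (pt w)).card +
          ((us F r.2.1).card + (R'.image fun r' => (g r').2).card) :=
      (card_le_card hcon).trans ((card_union_le _ _).trans
        (Nat.add_le_add_left (card_union_le _ _) _))
    have h2 : ((nb G w ∩ prt pt (pt w)).card : ℝ) ≤
        (((rq (need F sd) (P1 d Q P2 \ Sf)).image f ∩ qtr sd pt r.1 (pt w)).card : ℝ) +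
          (((us F r.2.1).card : ℝ) + ((R'.image fun r' => (g r').2).card : ℝ)) := by
      exact_mod_cast h1
    have h3 : (R'.image fun r' => (g r').2).card ≤ 8 * Sf.card :=
      (card_image_le.trans (card_le_card hR')).trans hSf
    have h4 : ((R'.image fun r' => (g r').2).card : ℝ) ≤ 8 * Sf.card := by exact_mod_cast h3
    have h5 := h.Sfc
    have h6 := hI.load r.2.1
    have h7 : θ * d ≤ 1 / 1000 * d := mul_le_mul_of_nonneg_right hθ hd0
    have h8 : (0 : ℝ) < d := by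
      rcases hd0.lt_or_eq with h9 | h9
      · exact h9
      · rw [← h9] at hd
        norm_num at hd
    linarith
  have hvq := hnq hv
  rw [mem_inter, mem_nb, mem_prt] at hv
  rw [mem_qtr] at hvq
  simp only [mem_union, not_or] at hv2
  have hvms : v ∉ (rq (need F sd) (P1 d Q P2 \ Sf)).image f := by
    intro hc
    exact hv2.1 (mem_inter.2 ⟨hc, mem_qtr.2 hvq⟩)
  refine ⟨(w, v), ?_, ?_⟩
  · rw [mem_filter]
    refine ⟨mem_univ _, ?_, hvq.1, hv.1, hvq.2.symm, hvms, ?_⟩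
    · exact mem_image.2 ⟨rw, hrw.1, hrw2⟩
    · intro hc
      exact hv2.2.1 (mem_us.2 hc)
  · intro r' hr'
    rintro (hc | hc)
    · exact hw2 (mem_image.2 ⟨r', hr', hc.symm⟩)
    · exact hv2.2.2 (mem_image.2 ⟨r', hr', hc.symm⟩)

/-- all three steps -/
theorem core [Nonempty V] {G Th : SimpleGraph V} {d z : ℕ} {C ρ π κ θ : ℝ} {sd pt : V → Bool}
    {Q : Bool → Finset ℕ} {P2 : Finset ℕ} {F A : V → Finset ℕ} {Sp Sf : Finset ℕ}
    (hθ : θ ≤ 1 / 1000) (hd : 1 ≤ θ * d) (hI : LI G d C ρ π κ θ sd pt Q P2 F)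
    (h : LB G Th d z θ sd pt Q P2 F A Sp Sf) :
    ∃ (f g : Bool × ℕ × ℕ → V),
      (∀ β i, 2 * ((rq (need F sd) (P1 d Q P2)).filter fun r => r.1 = β ∧ pt (f r) = i).card ≤
          (∑ b ∈ (P1 d Q P2 \ Sf) \ Sp, need F sd β b) + 1 + 16 * (Sp.card + Sf.card) ∧
        (∑ b ∈ (P1 d Q P2 \ Sf) \ Sp, need F sd β b) ≤
          2 * ((rq (need F sd) (P1 d Q P2)).filter fun r => r.1 = β ∧ pt (f r) = i).card + 1) ∧
      (∀ r ∈ rq (need F sd) (P1 d Q P2), sd (f r) = r.1 ∧ r.2.1 ∉ F (f r)) ∧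
      (∀ r ∈ rq (need F sd) (P1 d Q P2 \ Sf), r.2.1 ∉ A (f r)) ∧
      (∀ r ∈ rq (need F sd) (P1 d Q P2), ∀ r' ∈ rq (need F sd) (P1 d Q P2), f r = f r' → r = r') ∧
      (∀ r ∈ rq (need F sd) (P1 d Q P2 \ Sf), ∀ r' ∈ rq (need F sd) (P1 d Q P2 \ Sf), r ≠ r' →
        r.2.1 = r'.2.1 → ¬ Th.Adj (f r) (f r')) ∧
      (∀ r ∈ rq (need F sd) Sf, g r ∈ (rq (need F sd) (P1 d Q P2 \ Sf)).image f ∧
        G.Adj (g r) (f r) ∧ pt (g r) = pt (f r)) ∧
      ∀ r ∈ rq (need F sd) Sf, ∀ r' ∈ rq (need F sd) Sf, g r = g r' → r = r' := by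
  obtain ⟨f1, pi, hpi, hf1, hf2, hf3⟩ := step2 hθ hd h
  obtain ⟨g, hg1, hg2⟩ := step3 hθ hd hI h f1 pi (fun β i => (hpi β i).1)
    (fun r hr => (hf1 r hr).1) hf2
    (fun r hr r' hr' hne he => hf3 r hr r' hr' hne (Or.inl he))
  have hSf : (rq (need F sd) Sf).card ≤ 8 * Sf.card := card_rq_le h Sf h.SfP
  have hSp : (rq (need F sd) Sp).card ≤ 8 * Sp.card := card_rq_le h Sp h.SP
  have hcase : ∀ r ∈ rq (need F sd) (P1 d Q P2),
      (r.2.1 ∈ Sf ∧ r ∈ rq (need F sd) Sf) ∨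
        (r.2.1 ∉ Sf ∧ r ∈ rq (need F sd) (P1 d Q P2 \ Sf)) := by
    intro r hr
    rw [mem_rq] at hr
    by_cases hS : r.2.1 ∈ Sf
    · exact Or.inl ⟨hS, mem_rq.2 ⟨hS, hr.2⟩⟩
    · exact Or.inr ⟨hS, mem_rq.2 ⟨mem_sdiff.2 ⟨hr.1, hS⟩, hr.2⟩⟩
  have hin : ∀ r ∈ rq (need F sd) Sf, r.2.1 ∈ Sf := fun r hr => (mem_rq.1 hr).1
  have hout : ∀ r ∈ rq (need F sd) (P1 d Q P2 \ Sf), r.2.1 ∉ Sf :=
    fun r hr => (mem_sdiff.1 (mem_rq.1 hr).1).2
  have hout2 : ∀ r ∈ rq (need F sd) ((P1 d Q P2 \ Sf) \ Sp), r.2.1 ∉ Sf :=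
    fun r hr => (mem_sdiff.1 (mem_sdiff.1 (mem_rq.1 hr).1).1).2
  have himg : (rq (need F sd) (P1 d Q P2 \ Sf)).image
      (fun r => if r.2.1 ∈ Sf then (g r).2 else f1 r) =
      (rq (need F sd) (P1 d Q P2 \ Sf)).image f1 := by
    apply image_congr
    intro r hr
    simp only [if_neg (hout r (mem_coe.1 hr))]
  refine ⟨fun r => if r.2.1 ∈ Sf then (g r).2 else f1 r, fun r => (g r).1, ?_, ?_, ?_, ?_, ?_, ?_,
    ?_⟩
  · intro β i
    have h1 := cnt (need F sd) (P1 d Q P2) Sf pt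
      (fun r => if r.2.1 ∈ Sf then (g r).2 else f1 r)
      (fun r => pt (if r.2.1 ∈ Sf then (g r).2 else f1 r)) (fun r _ => rfl) β i
    have h2 := cnt (need F sd) (P1 d Q P2 \ Sf) Sp pt
      (fun r => if r.2.1 ∈ Sf then (g r).2 else f1 r) pi
      (fun r hr => by
        simp only [if_neg (hout2 r hr)]
        exact hf2 r hr) β i
    have h3 := hpi β i
    beta_reduce at h1 h2 h3 ⊢
    omega
  · intro r hr
    rcases hcase r hr with ⟨hS, h1⟩ | ⟨hS, h1⟩
    · simp only [if_pos hS]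
      have h2 := hg1 r h1
      simp only [mem_filter] at h2
      exact ⟨h2.2.2.1, h2.2.2.2.2.2.2⟩
    · simp only [if_neg hS]
      exact ⟨(hf1 r h1).1, fun hc => (hf1 r h1).2 (h.FA _ hc)⟩
  · intro r hr
    simp only [if_neg (hout r hr)]
    exact (hf1 r hr).2
  · intro r hr r' hr' he
    by_contra hne
    rcases hcase r hr with ⟨hS, h1⟩ | ⟨hS, h1⟩ <;> rcases hcase r' hr' with ⟨hS', h1'⟩ | ⟨hS', h1'⟩
    · simp only [if_pos hS, if_pos hS'] at he
      exact hg2 r h1 r' h1' hne (Or.inr he)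
    · simp only [if_pos hS, if_neg hS'] at he
      have h2 := hg1 r h1
      simp only [mem_filter] at h2
      exact h2.2.2.2.2.2.1 (he ▸ mem_image_of_mem f1 h1')
    · simp only [if_neg hS, if_pos hS'] at he
      have h2 := hg1 r' h1'
      simp only [mem_filter] at h2
      exact h2.2.2.2.2.2.1 (he ▸ mem_image_of_mem f1 h1)
    · simp only [if_neg hS, if_neg hS'] at he
      exact hf3 r h1 r' h1' hne (Or.inl he)
  · intro r hr r' hr' hne he
    simp only [if_neg (hout r hr), if_neg (hout r' hr')]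
    intro hc
    exact hf3 r hr r' hr' hne (Or.inr ⟨he, hc⟩)
  · intro r hr
    rw [himg]
    simp only [if_pos (hin r hr)]
    have h2 := hg1 r hr
    simp only [mem_filter] at h2
    exact ⟨h2.2.1, h2.2.2.2.1, h2.2.2.2.2.1⟩
  · intro r hr r' hr' he
    by_contra hne
    exact hg2 r hr r' hr' hne (Or.inl he)

/-- the missed vertices -/
noncomputable def Wm (nd : Bool → ℕ → ℕ) (B : Finset ℕ) (f : Bool × ℕ × ℕ → V) (b : ℕ) : Finset V :=
  ((rq nd B).filter fun r => r.2.1 = b).image f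

omit [Fintype V] in
theorem mem_Wm {nd : Bool → ℕ → ℕ} {B : Finset ℕ} {f : Bool × ℕ × ℕ → V} {b : ℕ} {v : V} :
    v ∈ Wm nd B f b ↔ ∃ r ∈ rq nd B, r.2.1 = b ∧ f r = v := by
  simp only [Wm, mem_image, mem_filter, and_assoc]

omit [Fintype V] in
theorem mem_ms {nd : Bool → ℕ → ℕ} {B P : Finset ℕ} (hP : P ⊆ B) {f : Bool × ℕ × ℕ → V} {v : V} :
    v ∈ ms P (Wm nd B f) ↔ ∃ r ∈ rq nd P, f r = v := by
  simp only [ms, mem_biUnion, mem_Wm]
  constructor
  · rintro ⟨b, hb, r, hr, rfl, rfl⟩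
    exact ⟨r, mem_rq.2 ⟨hb, (mem_rq.1 hr).2⟩, rfl⟩
  · rintro ⟨r, hr, rfl⟩
    exact ⟨r.2.1, (mem_rq.1 hr).1, r, rq_mono hP hr, rfl, rfl⟩

/-- the matching of the partners -/
def N0g (R : Finset (Bool × ℕ × ℕ)) (f g : Bool × ℕ × ℕ → V) (h : ∀ r ∈ R, g r ≠ f r) :
    SimpleGraph V where
  Adj v w := ∃ r ∈ R, (v = f r ∧ w = g r) ∨ (w = f r ∧ v = g r)
  symm := ⟨fun v w ⟨r, hr, hc⟩ => ⟨r, hr, hc.symm⟩⟩
  loopless := ⟨by
    rintro v ⟨r, hr, ⟨h1, h2⟩ | ⟨h1, h2⟩⟩
    · exact h r hr (h2.symm.trans h1)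
    · exact h r hr (h2.symm.trans h1)⟩

end

theorem stmt_MIS1 : Stmt_MIS1.{u} := by
  intro C ρ π κ δ _ _ _ _ _ hδ
  obtain ⟨n0, hn0⟩ := exists_nat_ge (1 / min (δ / 100) (1 / 1000))
  refine ⟨min (δ / 100) (1 / 1000), n0, by positivity, ?_⟩
  intro V _ G Th d z sd pt Q P2 F A Sp Sf hd0 hI h
  generalize hθe : min (δ / 100) (1 / 1000 : ℝ) = θ at *
  have hθpos : 0 < θ := by rw [← hθe]; positivity
  have hθ : θ ≤ 1 / 1000 := by rw [← hθe]; exact min_le_right _ _
  have hθδ : θ ≤ δ / 100 := by rw [← hθe]; exact min_le_left _ _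
  have hdn : (n0 : ℝ) ≤ d := by exact_mod_cast hd0
  have hd : 1 ≤ θ * d := by
    have h1 : 1 / θ ≤ d := hn0.trans hdn
    rw [div_le_iff₀ hθpos] at h1
    linarith
  have hdnn : (0 : ℝ) ≤ d := by positivity
  by_cases hV : Nonempty V
  swap
  · have hE : IsEmpty V := not_nonempty_iff.1 hV
    refine ⟨fun _ => ∅, ⊥, ?_⟩
    constructor
    · intro b _ v hv
      exact absurd hv (notMem_empty v)
    · intro b _ _ v hv
      exact absurd hv (notMem_empty v)
    · intro b _ _ v hv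
      exact absurd hv (notMem_empty v)
    · intro b _ v hv
      exact absurd hv (notMem_empty v)
    · intro b _
      simp
    · intro b _
      rw [card_eq_zero.2 (Finset.eq_empty_of_isEmpty _), card_eq_zero.2 (Finset.eq_empty_of_isEmpty _)]
    · intro b _ b' _ v hv
      exact absurd hv (notMem_empty v)
    · intro i
      rw [Finset.eq_empty_of_isEmpty (filter _ _)]
      simp only [sum_empty, Int.cast_zero, abs_zero]
      positivity
    · intro β i
      rw [Finset.eq_empty_of_isEmpty (_ ∩ _)]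
      simp only [card_empty, Nat.cast_zero]
      positivity
    · intro v
      exact hE.elim v
    · intro v
      exact hE.elim v
    · intro v
      exact hE.elim v
  obtain ⟨f, g, hc1, hc2, hc3, hc4, hc5, hc6, hc7⟩ := core hθ hd hI h
  have hne : ∀ r ∈ rq (need F sd) Sf, g r ≠ f r := fun r hr => (hc6 r hr).2.1.ne
  have hSfP : rq (need F sd) Sf ⊆ rq (need F sd) (P1 d Q P2) := rq_mono h.SfP
  have hoP : rq (need F sd) (P1 d Q P2 \ Sf) ⊆ rq (need F sd) (P1 d Q P2) :=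
    rq_mono sdiff_subset
  have hSpc := h.Sc
  have hSfc := h.Sfc
  -- the numbers of missed vertices
  have hms : ms (P1 d Q P2) (Wm (need F sd) (P1 d Q P2) f) =
      (rq (need F sd) (P1 d Q P2)).image f := by
    ext v
    rw [mem_ms (Subset.refl _), mem_image]
  refine ⟨Wm (need F sd) (P1 d Q P2) f, N0g (rq (need F sd) Sf) f g hne, ?_⟩
  constructor
  · intro b _ v hv
    obtain ⟨r, hr, rfl, rfl⟩ := mem_Wm.1 hv
    exact (hc2 r hr).2
  · intro b hb hbS v hv
    obtain ⟨r, hr, rfl, rfl⟩ := mem_Wm.1 hv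
    exact hc3 r (mem_rq.2 ⟨mem_sdiff.2 ⟨hb, hbS⟩, (mem_rq.1 hr).2⟩)
  · intro b hb hbS v hv w hw hvw
    obtain ⟨r, hr, rfl, rfl⟩ := mem_Wm.1 hv
    obtain ⟨r', hr', he, rfl⟩ := mem_Wm.1 hw
    have h1 : r ∈ rq (need F sd) (P1 d Q P2 \ Sf) :=
      mem_rq.2 ⟨mem_sdiff.2 ⟨hb, hbS⟩, (mem_rq.1 hr).2⟩
    have h2 : r' ∈ rq (need F sd) (P1 d Q P2 \ Sf) :=
      mem_rq.2 ⟨he ▸ mem_sdiff.2 ⟨hb, hbS⟩, (mem_rq.1 hr').2⟩
    have h3 : r ≠ r' := by
      rintro rfl
      exact hvw.ne rfl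
    exact hc5 r h1 r' h2 h3 he.symm hvw
  · intro b _ v hv w hw
    obtain ⟨r, hr, rfl, rfl⟩ := mem_Wm.1 hv
    obtain ⟨r', hr', he, rfl⟩ := mem_Wm.1 hw
    rw [(hc2 r hr).1, (hc2 r' hr').1]
    have h1 := (mem_rq.1 hr).2
    have h2 := (mem_rq.1 hr').2
    rw [he] at h2
    exact need_one F sd r.1 r'.1 r.2.1 (by omega) (by omega)
  · intro b hb
    exact card_image_le.trans ((card_rq_round_le _ _ _).trans (nd_le h b hb))
  · intro b hb
    have hside : ∀ β, (sid sd β ∩ Wm (need F sd) (P1 d Q P2) f b).card = need F sd β b := by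
      intro β
      rw [← card_rq_round (need F sd) (P1 d Q P2) β b hb, ← card_image_of_injOn (f := f)]
      · congr 1
        ext v
        simp only [mem_inter, mem_sid, mem_Wm, mem_image, mem_filter]
        constructor
        · rintro ⟨h1, r, hr, he, rfl⟩
          exact ⟨r, ⟨hr, ((hc2 r hr).1.symm.trans h1), he⟩, rfl⟩
        · rintro ⟨r, ⟨hr, h1, he⟩, rfl⟩
          exact ⟨(hc2 r hr).1.trans h1, r, hr, he, rfl⟩
      · intro r hr r' hr' he
        exact hc4 r (mem_filter.1 (mem_coe.1 hr)).1 r' (mem_filter.1 (mem_coe.1 hr')).1 he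
    have hdis : ∀ β, (sid sd β \ (us F b ∪ Wm (need F sd) (P1 d Q P2) f b)).card +
        (sid sd β ∩ us F b).card + need F sd β b = (sid sd β).card := by
      intro β
      rw [← hside β]
      have h1 : sid sd β = (sid sd β \ (us F b ∪ Wm (need F sd) (P1 d Q P2) f b)) ∪
          ((sid sd β ∩ us F b) ∪ (sid sd β ∩ Wm (need F sd) (P1 d Q P2) f b)) := by
        ext v
        simp only [mem_union, mem_sdiff, mem_inter]
        tauto
      have h2 : Disjoint (sid sd β \ (us F b ∪ Wm (need F sd) (P1 d Q P2) f b))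
          ((sid sd β ∩ us F b) ∪ (sid sd β ∩ Wm (need F sd) (P1 d Q P2) f b)) := by
        rw [disjoint_left]
        intro v hv hv'
        simp only [mem_union, mem_sdiff, mem_inter] at hv hv'
        tauto
      have h3 : Disjoint (sid sd β ∩ us F b) (sid sd β ∩ Wm (need F sd) (P1 d Q P2) f b) := by
        rw [disjoint_left]
        intro v hv hv'
        rw [mem_inter] at hv hv'
        obtain ⟨r, hr, rfl, rfl⟩ := mem_Wm.1 hv'.2
        exact (hc2 r hr).2 (mem_us.1 hv.2)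
      have h4 := congrArg card h1
      rw [card_union_of_disjoint h2, card_union_of_disjoint h3] at h4
      omega
    have heq : (sid sd false).card = (sid sd true).card := by
      have h1 : ∀ β, (sid sd β).card = (qtr sd pt β false).card + (qtr sd pt β true).card := by
        intro β
        rw [← card_union_of_disjoint]
        · congr 1
          ext v
          simp only [mem_union, mem_sid, mem_qtr]
          cases pt v <;> simp
        · rw [disjoint_left]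
          intro v hv hv'
          rw [mem_qtr] at hv hv'
          rw [hv.2] at hv'
          exact absurd hv'.2 (by decide)
      rw [h1, h1, h.eqs false, h.eqs true]
    have h1 := hdis false
    have h2 := hdis true
    have h3 := need_bal F sd b
    omega
  · intro b _ b' _ v hv hv'
    obtain ⟨r, hr, rfl, rfl⟩ := mem_Wm.1 hv
    obtain ⟨r', hr', rfl, he⟩ := mem_Wm.1 hv'
    rw [hc4 r' hr' r hr he]
  · intro i
    have h1 : ∑ v ∈ (ms (P1 d Q P2) (Wm (need F sd) (P1 d Q P2) f)).filter (fun v => pt v = i),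
        sgv (sd v) =
        (((rq (need F sd) (P1 d Q P2)).filter fun r => r.1 = false ∧ pt (f r) = i).card : ℤ) -
          (((rq (need F sd) (P1 d Q P2)).filter fun r => r.1 = true ∧ pt (f r) = i).card : ℤ) := by
      rw [hms, filter_image, sum_image]
      · have h2 : ∀ r ∈ (rq (need F sd) (P1 d Q P2)).filter (fun r => pt (f r) = i),
            sgv (sd (f r)) = (if r.1 = false then (1 : ℤ) else 0) - if r.1 = true then 1 else 0 := by
          intro r hr
          rw [(hc2 r (mem_filter.1 hr).1).1]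
          cases r.1 <;> simp [sgv]
        rw [sum_congr rfl h2, sum_sub_distrib]
        simp only [Finset.sum_boole, Finset.filter_filter]
        simp only [and_comm]
      · intro r hr r' hr' he
        exact hc4 r (mem_filter.1 (mem_coe.1 hr)).1 r' (mem_filter.1 (mem_coe.1 hr')).1 he
    rw [h1]
    have h2 := hc1 false i
    have h3 := hc1 true i
    have h4 : ((∑ b ∈ (P1 d Q P2 \ Sf) \ Sp, need F sd false b : ℕ) : ℤ) -
        ((∑ b ∈ (P1 d Q P2 \ Sf) \ Sp, need F sd true b : ℕ) : ℤ) =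
        - ∑ b ∈ (P1 d Q P2 \ Sf) \ Sp, sg F sd b := by
      push_cast
      rw [← sum_sub_distrib, ← sum_neg_distrib]
      exact sum_congr rfl fun b _ => need_sub F sd b
    have h5 : |∑ b ∈ (P1 d Q P2 \ Sf) \ Sp, sg F sd b - ∑ b ∈ P1 d Q P2, sg F sd b| ≤
        8 * ((Sp.card : ℤ) + Sf.card) := by
      have e1 : ∑ b ∈ P1 d Q P2, sg F sd b = ∑ b ∈ (P1 d Q P2 \ Sf) \ Sp, sg F sd b +
          (∑ b ∈ Sp, sg F sd b + ∑ b ∈ Sf, sg F sd b) := by
        rw [← sum_union h.Sd, ← sum_union]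
        · congr 1
          ext b
          simp only [mem_union, mem_sdiff]
          have a1 := @h.SP b
          have a2 := @h.SfP b
          tauto
        · rw [disjoint_left]
          intro b hb hb'
          simp only [mem_union, mem_sdiff] at hb hb'
          tauto
      have e2 : |∑ b ∈ Sp, sg F sd b| ≤ 8 * (Sp.card : ℤ) := by
        refine (abs_sum_le_sum_abs _ _).trans ?_
        refine (sum_le_sum fun b hb => h.gs b (h.SP hb)).trans ?_
        rw [sum_const, nsmul_eq_mul, mul_comm]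
      have e3 : |∑ b ∈ Sf, sg F sd b| ≤ 8 * (Sf.card : ℤ) := by
        refine (abs_sum_le_sum_abs _ _).trans ?_
        refine (sum_le_sum fun b hb => h.gs b (h.SfP hb)).trans ?_
        rw [sum_const, nsmul_eq_mul, mul_comm]
      rw [e1]
      rw [abs_le] at e2 e3 ⊢
      constructor <;> omega
    have h6 := h.sm1
    set c0 := ((rq (need F sd) (P1 d Q P2)).filter fun r => r.1 = false ∧ pt (f r) = i).card
    set c1 := ((rq (need F sd) (P1 d Q P2)).filter fun r => r.1 = true ∧ pt (f r) = i).card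
    set S := ∑ b ∈ P1 d Q P2, sg F sd b
    set S2 := ∑ b ∈ (P1 d Q P2 \ Sf) \ Sp, sg F sd b
    have h7 : |2 * ((c0 : ℤ) - c1)| ≤ |S| + 24 * ((Sp.card : ℤ) + Sf.card) + 2 := by
      have a1 := abs_le.1 h5
      have a2 := le_abs_self S
      have a3 := neg_abs_le S
      rw [abs_le]
      constructor <;> omega
    have h8 : |(2 * ((c0 : ℝ) - c1))| ≤ |(S : ℝ)| + 24 * ((Sp.card : ℝ) + Sf.card) + 2 := by
      exact_mod_cast h7
    rw [abs_mul, abs_two] at h8
    push_cast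
    have h9 : θ * d ≤ δ / 100 * d := mul_le_mul_of_nonneg_right hθδ hdnn
    have h10 : |(S : ℝ)| ≤ θ * d := h6
    linarith
  · intro β i
    have h1 : qtr sd pt β i ∩ ms (P1 d Q P2) (Wm (need F sd) (P1 d Q P2) f) ⊆
        ((rq (need F sd) (P1 d Q P2)).filter fun r => r.1 = β ∧ pt (f r) = i).image f := by
      intro v hv
      rw [hms, mem_inter, mem_qtr, mem_image] at hv
      obtain ⟨⟨h2, h3⟩, r, hr, rfl⟩ := hv
      exact mem_image_of_mem f (mem_filter.2 ⟨hr, (hc2 r hr).1.symm.trans h2, h3⟩)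
    have h2 := (card_le_card h1).trans card_image_le
    have h3 := (hc1 β i).1
    have h4 : ∑ b ∈ (P1 d Q P2 \ Sf) \ Sp, need F sd β b ≤ ∑ b ∈ P1 d Q P2, need F sd β b :=
      sum_le_sum_of_subset (fun b hb => (mem_sdiff.1 (mem_sdiff.1 hb).1).1)
    have h5 : 2 * (qtr sd pt β i ∩ ms (P1 d Q P2) (Wm (need F sd) (P1 d Q P2) f)).card ≤
        (∑ b ∈ P1 d Q P2, need F sd β b) + 1 + 16 * (Sp.card + Sf.card) := by omega
    have h6 : (2 : ℝ) * (qtr sd pt β i ∩ ms (P1 d Q P2) (Wm (need F sd) (P1 d Q P2) f)).card ≤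
        ((∑ b ∈ P1 d Q P2, need F sd β b : ℕ) : ℝ) + 1 + 16 * (Sp.card + Sf.card) := by
      exact_mod_cast h5
    have h7 := h.tot β
    have h9 : θ * d ≤ δ / 100 * d := mul_le_mul_of_nonneg_right hθδ hdnn
    linarith
  · rintro v w ⟨r, hr, ⟨rfl, rfl⟩ | ⟨rfl, rfl⟩⟩
    · obtain ⟨h1, h2, h3⟩ := hc6 r hr
      refine ⟨h2.symm, h3.symm, Or.inl ⟨?_, ?_⟩⟩
      · exact (mem_ms h.SfP).2 ⟨r, hr, rfl⟩
      · rw [mem_ms sdiff_subset]
        exact mem_image.1 h1
    · obtain ⟨h1, h2, h3⟩ := hc6 r hr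
      refine ⟨h2, h3, Or.inr ⟨?_, ?_⟩⟩
      · exact (mem_ms h.SfP).2 ⟨r, hr, rfl⟩
      · rw [mem_ms sdiff_subset]
        exact mem_image.1 h1
  · intro v
    unfold dg
    rw [card_le_one]
    intro a ha b hb
    rw [mem_filter] at ha hb
    obtain ⟨r, hr, h1⟩ := ha.2
    obtain ⟨r', hr', h1'⟩ := hb.2
    have hx : ∀ s ∈ rq (need F sd) Sf, ∀ s' ∈ rq (need F sd) Sf, f s = g s' → False := by
      intro s hs s' hs' he
      obtain ⟨q, hq, hq2⟩ := mem_image.1 (hc6 s' hs').1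
      have h2 : s = q := hc4 s (hSfP hs) q (hoP hq) (he.trans hq2.symm)
      exact (mem_sdiff.1 (mem_rq.1 hq).1).2 (h2 ▸ (mem_rq.1 hs).1)
    rcases h1 with ⟨h1, h2⟩ | ⟨h1, h2⟩ <;> rcases h1' with ⟨h1', h2'⟩ | ⟨h1', h2'⟩
    · have h3 : r = r' := hc4 r (hSfP hr) r' (hSfP hr') (h1.symm.trans h1')
      rw [h2, h2', h3]
    · exact (hx r hr r' hr' (h1.symm.trans h2')).elim
    · exact (hx r' hr' r hr (h1'.symm.trans h2)).elim
    · have h3 : r = r' := hc7 r hr r' hr' (h2.symm.trans h2')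
      rw [h1, h1', h3]
  · intro v hv
    obtain ⟨r, hr, rfl⟩ := (mem_ms h.SfP).1 hv
    refine ⟨g r, ?_, r, hr, Or.inl ⟨rfl, rfl⟩⟩
    rw [mem_ms sdiff_subset]
    exact mem_image.1 (hc6 r hr).1

end Pool.Agent.Work.MP_db9399_da_helper71
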