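import Pool.Agent.Work.MP_db9399_da_helper71.Tail
import Pool.Agent.Work.MP_db9399_da.Parts

/-!
# MP_db9399, DENSE-ALL, block LAB3, part 3: second moments with exact class sizes
-/

set_option autoImplicit false

namespace Pool.Agent.Work.MP_db9399_da.helper71

open Finset Classical
open Pool.Agent.Work.MP_db9399_all (nb)

universe u

/-- second moment of the number of the events `A p` -/
theorem second {Ω : Type*} {ι : Type*} (Om : Finset Ω) (P : Finset ι) (A : ι → Ω → Prop)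
    [∀ p ω, Decidable (A p ω)] (sh : ι → ι → Prop) [∀ p p', Decidable (sh p p')] (q ε D : ℝ) (hq : 0 ≤ q) (hq1 : q ≤ 1) (hε : 0 ≤ ε)
    (h1 : ∀ p ∈ P, (1 - ε) * q * Om.card ≤ ((Om.filter (A p)).card : ℝ))
    (h2 : ∀ p ∈ P, ∀ p' ∈ P, ¬ sh p p' →
      ((Om.filter (fun ω => A p ω ∧ A p' ω)).card : ℝ) ≤ (1 + ε) * q ^ 2 * Om.card)
    (h3 : ∀ p ∈ P, ((P.filter (sh p)).card : ℝ) ≤ D) :
    ∑ ω ∈ Om, (((P.filter (fun p => A p ω)).card : ℝ) - q * P.card) ^ 2 ≤
      Om.card * (3 * ε * (P.card : ℝ) ^ 2 + D * P.card) := by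
  have hX1 : ∑ ω ∈ Om, ((P.filter (fun p => A p ω)).card : ℝ) =
      ∑ p ∈ P, ((Om.filter (A p)).card : ℝ) := by
    simp only [Finset.card_filter]
    push_cast
    exact Finset.sum_comm
  have hX2 : ∑ ω ∈ Om, ((P.filter (fun p => A p ω)).card : ℝ) ^ 2 =
      ∑ p ∈ P, ∑ p' ∈ P, ((Om.filter (fun ω => A p ω ∧ A p' ω)).card : ℝ) := by
    have : ∀ ω, ((P.filter (fun p => A p ω)).card : ℝ) ^ 2 =
        ∑ p ∈ P, ∑ p' ∈ P, (if A p ω ∧ A p' ω then (1 : ℝ) else 0) := by
      intro ω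
      rw [sq, Finset.card_filter]
      push_cast
      rw [Finset.sum_mul_sum]
      refine Finset.sum_congr rfl fun p _ => Finset.sum_congr rfl fun p' _ => ?_
      by_cases ha : A p ω <;> by_cases hb : A p' ω <;> simp [ha, hb]
    simp only [this]
    rw [Finset.sum_comm]
    refine Finset.sum_congr rfl fun p _ => ?_
    rw [Finset.sum_comm]
    refine Finset.sum_congr rfl fun p' _ => ?_
    rw [Finset.card_filter]
    push_cast
    rfl
  have hlow : (1 - ε) * q * Om.card * P.card ≤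
      ∑ ω ∈ Om, ((P.filter (fun p => A p ω)).card : ℝ) := by
    rw [hX1]
    calc (1 - ε) * q * Om.card * P.card = ∑ p ∈ P, (1 - ε) * q * Om.card := by
          rw [Finset.sum_const, nsmul_eq_mul]; ring
      _ ≤ _ := Finset.sum_le_sum h1
  have hup : ∑ ω ∈ Om, ((P.filter (fun p => A p ω)).card : ℝ) ^ 2 ≤
      (1 + ε) * q ^ 2 * Om.card * (P.card : ℝ) ^ 2 + Om.card * D * P.card := by
    rw [hX2]
    have hin : ∀ p ∈ P, ∑ p' ∈ P, ((Om.filter (fun ω => A p ω ∧ A p' ω)).card : ℝ) ≤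
        (1 + ε) * q ^ 2 * Om.card * P.card + Om.card * D := by
      intro p hp
      have : ∀ p' ∈ P, ((Om.filter (fun ω => A p ω ∧ A p' ω)).card : ℝ) ≤
          (1 + ε) * q ^ 2 * Om.card + (if sh p p' then (Om.card : ℝ) else 0) := by
        intro p' hp'
        split_ifs with h
        · have h4 : ((Om.filter (fun ω => A p ω ∧ A p' ω)).card : ℝ) ≤ Om.card := by
            exact_mod_cast Finset.card_filter_le _ _
          have h5 : 0 ≤ (1 + ε) * q ^ 2 * Om.card := by positivity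
          linarith
        · rw [add_zero]; exact h2 p hp p' hp' h
      refine (Finset.sum_le_sum this).trans ?_
      rw [Finset.sum_add_distrib, Finset.sum_const, nsmul_eq_mul, ← Finset.sum_filter,
        Finset.sum_const, nsmul_eq_mul]
      have h5 := mul_le_mul_of_nonneg_right (h3 p hp) (Nat.cast_nonneg (α := ℝ) Om.card)
      linarith
    refine (Finset.sum_le_sum hin).trans (le_of_eq ?_)
    rw [Finset.sum_const, nsmul_eq_mul]
    ring
  have hexp : ∑ ω ∈ Om, (((P.filter (fun p => A p ω)).card : ℝ) - q * P.card) ^ 2 =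
      ∑ ω ∈ Om, ((P.filter (fun p => A p ω)).card : ℝ) ^ 2 -
        2 * (q * P.card) * ∑ ω ∈ Om, ((P.filter (fun p => A p ω)).card : ℝ) +
        Om.card * (q * P.card) ^ 2 := by
    rw [Finset.mul_sum, ← Finset.sum_sub_distrib,
      show (Om.card : ℝ) * (q * P.card) ^ 2 = ∑ ω ∈ Om, (q * (P.card : ℝ)) ^ 2 by
        rw [Finset.sum_const, nsmul_eq_mul], ← Finset.sum_add_distrib]
    exact Finset.sum_congr rfl fun ω _ => by ring
  rw [hexp]
  have h6 : 2 * (q * P.card) * ((1 - ε) * q * Om.card * P.card) ≤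
      2 * (q * P.card) * ∑ ω ∈ Om, ((P.filter (fun p => A p ω)).card : ℝ) :=
    mul_le_mul_of_nonneg_left hlow (by positivity)
  have h7 : ε * q ^ 2 * (Om.card * (P.card : ℝ) ^ 2) ≤ ε * 1 * (Om.card * (P.card : ℝ) ^ 2) := by
    refine mul_le_mul_of_nonneg_right (mul_le_mul_of_nonneg_left ?_ hε) (by positivity)
    nlinarith
  nlinarith

/-- Chebyshev -/
theorem cheb {Ω : Type*} {ι : Type*} (Om : Finset Ω) (P : Finset ι) (A : ι → Ω → Prop)
    [∀ p ω, Decidable (A p ω)] (sh : ι → ι → Prop) [∀ p p', Decidable (sh p p')] (q ε D : ℝ) (hq : 0 ≤ q) (hq1 : q ≤ 1) (hε : 0 ≤ ε) (hP : 0 < P.card)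
    (h1 : ∀ p ∈ P, (1 - ε) * q * Om.card ≤ ((Om.filter (A p)).card : ℝ))
    (h2 : ∀ p ∈ P, ∀ p' ∈ P, ¬ sh p p' →
      ((Om.filter (fun ω => A p ω ∧ A p' ω)).card : ℝ) ≤ (1 + ε) * q ^ 2 * Om.card)
    (h3 : ∀ p ∈ P, ((P.filter (sh p)).card : ℝ) ≤ D) :
    ((Om.filter (fun ω => ¬ |((P.filter (fun p => A p ω)).card : ℝ) - q * P.card| ≤
      P.card / 100)).card : ℝ) ≤ Om.card * (10 ^ 4 * (3 * ε + D / P.card)) := by
  have hP0 : (0 : ℝ) < P.card := by exact_mod_cast hP
  have h := second Om P A sh q ε D hq hq1 hε h1 h2 h3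
  have hm : ((Om.filter (fun ω => ¬ |((P.filter (fun p => A p ω)).card : ℝ) - q * P.card| ≤
      P.card / 100)).card : ℝ) * ((P.card : ℝ) / 100) ^ 2 ≤
      ∑ ω ∈ Om, (((P.filter (fun p => A p ω)).card : ℝ) - q * P.card) ^ 2 := by
    rw [← nsmul_eq_mul, ← Finset.sum_const]
    refine (Finset.sum_le_sum (fun ω hω => ?_)).trans
      (Finset.sum_le_sum_of_subset_of_nonneg (Finset.filter_subset _ _)
        fun _ _ _ => sq_nonneg _)
    rw [mem_filter, not_le] at hω
    rw [← sq_abs (((P.filter (fun p => A p ω)).card : ℝ) - q * P.card)]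
    exact pow_le_pow_left₀ (by positivity) hω.2.le 2
  have h4 := hm.trans h
  have h5 : (0 : ℝ) < ((P.card : ℝ) / 100) ^ 2 := by positivity
  rw [← le_div_iff₀ h5] at h4
  refine h4.trans (le_of_eq ?_)
  field_simp
  ring

section edges
variable {V : Type u} [Fintype V] {J : ℕ}

/-- one more label, upper bound in the form used -/
theorem up_step (nd : V → Fin J) (r : Fin J → ℕ) (hr : ∀ j, 1 ≤ r j ∧ r j ≤ 6) (η : ℝ)
    (hη : 0 < η) (hη1 : η ≤ 1 / 1000) (S : Finset V) (hS : S.card ≤ 3) (φ : V → ℕ) {v : V}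
    (hv : v ∉ S) (hi : φ v < r (nd v)) (hN : 1 ≤ η * (nde nd (nd v)).card) :
    ((OmS nd r (insert v S) φ).card : ℝ) ≤
      (OmS nd r S φ).card * ((1 + 9 * η) / r (nd v)) := by
  have h := step_le nd r S φ hv hi
  have hr0 : (0 : ℝ) < r (nd v) := by exact_mod_cast (hr (nd v)).1
  set N : ℕ := (nde nd (nd v)).card with hNdef
  have hNbig : (1000 : ℝ) ≤ N := by
    have h1 : (0 : ℝ) ≤ N := Nat.cast_nonneg _
    nlinarith
  have hNnat : 1000 ≤ N := by exact_mod_cast hNbig
  have h2 : ((OmS nd r (insert v S) φ).card : ℝ) * ((N : ℝ) - 3) ≤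
      (OmS nd r S φ).card * (sz nd r (nd v) (φ v) : ℝ) := by
    have h3 : (OmS nd r (insert v S) φ).card * (N - 3) ≤
        (OmS nd r S φ).card * sz nd r (nd v) (φ v) :=
      (Nat.mul_le_mul le_rfl (by omega)).trans h
    have h4 : ((N - 3 : ℕ) : ℝ) = (N : ℝ) - 3 := by
      rw [Nat.cast_sub (by omega)]; norm_num
    rw [← h4]
    exact_mod_cast h3
  have h5 := sz_le nd r (nd v) (φ v) (hr _).1 (hr _).2
  rw [← hNdef] at h5
  have h6 : ((OmS nd r (insert v S) φ).card : ℝ) * ((N : ℝ) - 3) ≤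
      (OmS nd r S φ).card * (((N : ℝ) + 5) / r (nd v)) :=
    h2.trans (mul_le_mul_of_nonneg_left h5 (Nat.cast_nonneg _))
  have h7 : ((N : ℝ) + 5) / r (nd v) ≤ ((N : ℝ) - 3) * ((1 + 9 * η) / r (nd v)) := by
    rw [mul_div_assoc']
    refine div_le_div_of_nonneg_right ?_ hr0.le
    nlinarith
  have h8 : ((OmS nd r (insert v S) φ).card : ℝ) * ((N : ℝ) - 3) ≤
      ((OmS nd r S φ).card * ((1 + 9 * η) / r (nd v))) * ((N : ℝ) - 3) := by
    refine h6.trans ?_
    have := mul_le_mul_of_nonneg_left h7 (Nat.cast_nonneg (α := ℝ) (OmS nd r S φ).card)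
    linarith
  exact le_of_mul_le_mul_right h8 (by linarith)

/-- one more label, lower bound in the form used -/
theorem low_step (nd : V → Fin J) (r : Fin J → ℕ) (hr : ∀ j, 1 ≤ r j ∧ r j ≤ 6) (η : ℝ)
    (S : Finset V) (hS : S.card ≤ 1) (φ : V → ℕ) {v : V}
    (hv : v ∉ S) (hi : φ v < r (nd v)) (hN : 1 ≤ η * (nde nd (nd v)).card) :
    ((OmS nd r S φ).card : ℝ) * ((1 - 11 * η) / r (nd v)) ≤
      (OmS nd r (insert v S) φ).card := by
  have h := step_ge nd r S φ hv hi
  have hr0 : (0 : ℝ) < r (nd v) := by exact_mod_cast (hr (nd v)).1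
  have hr6 : (r (nd v) : ℝ) ≤ 6 := by exact_mod_cast (hr (nd v)).2
  set N : ℕ := (nde nd (nd v)).card with hNdef
  have hN0 : (0 : ℝ) < N := by
    rcases Nat.eq_zero_or_pos N with h0 | h0
    · rw [h0] at hN; norm_num at hN
    · exact_mod_cast h0
  have h2 : ((OmS nd r S φ).card : ℝ) * ((sz nd r (nd v) (φ v) : ℝ) - 1) ≤
      (OmS nd r (insert v S) φ).card * (N : ℝ) := by
    have h3 : (OmS nd r S φ).card * sz nd r (nd v) (φ v) ≤
        (OmS nd r (insert v S) φ).card * N + (OmS nd r S φ).card * 1 := by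
      calc (OmS nd r S φ).card * sz nd r (nd v) (φ v) ≤
          (OmS nd r S φ).card * ((sz nd r (nd v) (φ v) - S.card) + 1) :=
            Nat.mul_le_mul le_rfl (by omega)
        _ = (OmS nd r S φ).card * (sz nd r (nd v) (φ v) - S.card) + (OmS nd r S φ).card * 1 := by
            ring
        _ ≤ _ := Nat.add_le_add_right h _
    have h4 : ((OmS nd r S φ).card : ℝ) * (sz nd r (nd v) (φ v) : ℝ) ≤
        (OmS nd r (insert v S) φ).card * (N : ℝ) + (OmS nd r S φ).card * 1 := by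
      exact_mod_cast h3
    linarith
  have h5 := sz_ge nd r (nd v) (φ v) (hr _).1 (hr _).2
  rw [← hNdef] at h5
  have h7 : (N : ℝ) * ((1 - 11 * η) / r (nd v)) ≤ (sz nd r (nd v) (φ v) : ℝ) - 1 := by
    refine le_trans ?_ (sub_le_sub_right h5 1)
    rw [mul_div_assoc', div_le_iff₀ hr0, sub_mul, div_mul_cancel₀ _ hr0.ne']
    nlinarith
  have h8 : (((OmS nd r S φ).card : ℝ) * ((1 - 11 * η) / r (nd v))) * N ≤
      (OmS nd r (insert v S) φ).card * (N : ℝ) := by
    refine le_trans ?_ h2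
    have := mul_le_mul_of_nonneg_left h7 (Nat.cast_nonneg (α := ℝ) (OmS nd r S φ).card)
    linarith
  exact le_of_mul_le_mul_right h8 hN0

/-- two labels, lower bound -/
theorem two_ge (nd : V → Fin J) (r : Fin J → ℕ) (hr : ∀ j, 1 ≤ r j ∧ r j ≤ 6) (η : ℝ)
    (hη : 0 < η) (hη1 : η ≤ 1 / 1000) {v w : V} (hvw : v ≠ w) {i i' : ℕ}
    (hi : i < r (nd v)) (hi' : i' < r (nd w))
    (hN : 1 ≤ η * (nde nd (nd v)).card) (hN' : 1 ≤ η * (nde nd (nd w)).card) :
    (1 - 37 * η) * (1 / (r (nd v) * r (nd w))) * (Om nd r).card ≤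
      (((Om nd r).filter (fun lab => lab v = i ∧ lab w = i')).card : ℝ) := by
  set φ : V → ℕ := fun x => if x = v then i else i' with hφ
  have hφv : φ v = i := by simp [hφ]
  have hφw : φ w = i' := by simp [hφ, hvw.symm]
  have hrv : (0 : ℝ) < r (nd v) := by exact_mod_cast (hr (nd v)).1
  have hrw : (0 : ℝ) < r (nd w) := by exact_mod_cast (hr (nd w)).1
  have h1 := low_step nd r hr η ∅ (by simp) φ (v := v) (by simp) (by rw [hφv]; exact hi) hN
  have h2 := low_step nd r hr η (insert v ∅) (by simp) φ (v := w)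
    (by simpa using hvw.symm) (by rw [hφw]; exact hi') hN'
  rw [OmS_empty] at h1
  have h3 : (Om nd r).filter (fun lab => lab v = i ∧ lab w = i') =
      OmS nd r (insert w (insert v ∅)) φ := by
    ext lab
    simp only [OmS, mem_filter, mem_insert, Finset.notMem_empty, or_false, forall_eq_or_imp,
      forall_eq, hφv, hφw]
    tauto
  rw [h3]
  refine le_trans ?_ h2
  have h4 : (0 : ℝ) ≤ (1 - 11 * η) / r (nd w) := div_nonneg (by linarith) hrw.le
  refine le_trans ?_ (mul_le_mul_of_nonneg_right h1 h4)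
  have h5 : ((Om nd r).card : ℝ) * ((1 - 11 * η) / r (nd v)) * ((1 - 11 * η) / r (nd w)) =
      (1 - 11 * η) ^ 2 * ((1 / (r (nd v) * r (nd w))) * (Om nd r).card) := by
    field_simp
  rw [h5, mul_assoc]
  refine mul_le_mul_of_nonneg_right ?_ (by positivity)
  nlinarith [sq_nonneg η]

/-- four labels, upper bound -/
theorem four_le (nd : V → Fin J) (r : Fin J → ℕ) (hr : ∀ j, 1 ≤ r j ∧ r j ≤ 6) (η : ℝ)
    (hη : 0 < η) (hη1 : η ≤ 1 / 1000) {j j' : Fin J} {v w v' w' : V} (hv : nd v = j) (hw : nd w = j')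
    (hv' : nd v' = j) (hw' : nd w' = j') (hvw : v ≠ w) (h1 : v' ≠ v) (h2 : v' ≠ w) (h3 : w' ≠ v)
    (h4 : w' ≠ w) (h5 : w' ≠ v') {i i' : ℕ} (hi : i < r j) (hi' : i' < r j')
    (hN : 1 ≤ η * (nde nd j).card) (hN' : 1 ≤ η * (nde nd j').card) :
    (((Om nd r).filter (fun lab => (lab v = i ∧ lab w = i') ∧ (lab v' = i ∧ lab w' = i'))).card : ℝ)
      ≤ (1 + 37 * η) * (1 / (r j * r j') : ℝ) ^ 2 * (Om nd r).card := by
  set φ : V → ℕ := fun x => if x = v ∨ x = v' then i else i' with hφ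
  have hφv : φ v = i := by simp [hφ]
  have hφv' : φ v' = i := by simp [hφ]
  have hφw : φ w = i' := by simp [hφ, hvw.symm, h2.symm]
  have hφw' : φ w' = i' := by simp [hφ, h3, h5]
  have hrj : (0 : ℝ) < r j := by exact_mod_cast (hr j).1
  have hrj' : (0 : ℝ) < r j' := by exact_mod_cast (hr j').1
  have g1 := up_step nd r hr η hη hη1 ∅ (by simp) φ (v := v) (by simp)
    (by rw [hφv, hv]; exact hi) (by rw [hv]; exact hN)
  have g2 := up_step nd r hr η hη hη1 (insert v ∅) (by simp) φ (v := w)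
    (by simpa using hvw.symm) (by rw [hφw, hw]; exact hi') (by rw [hw]; exact hN')
  have g3 := up_step nd r hr η hη hη1 (insert w (insert v ∅))
    ((Finset.card_insert_le _ _).trans (by simp)) φ (v := v')
    (by simp [h1, h2]) (by rw [hφv', hv']; exact hi) (by rw [hv']; exact hN)
  have g4 := up_step nd r hr η hη hη1 (insert v' (insert w (insert v ∅)))
    ((Finset.card_insert_le _ _).trans (Nat.add_le_add_right
      ((Finset.card_insert_le _ _).trans (by simp)) 1)) φ (v := w')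
    (by simp [h3, h4, h5]) (by rw [hφw', hw']; exact hi') (by rw [hw']; exact hN')
  rw [OmS_empty] at g1
  rw [hv] at g1
  rw [hw] at g2
  rw [hv'] at g3
  rw [hw'] at g4
  have hsub : (Om nd r).filter (fun lab => (lab v = i ∧ lab w = i') ∧ (lab v' = i ∧ lab w' = i')) ⊆
      OmS nd r (insert w' (insert v' (insert w (insert v ∅)))) φ := by
    intro lab hl
    rw [mem_filter] at hl
    rw [OmS, mem_filter]
    refine ⟨hl.1, ?_⟩
    simp only [mem_insert, Finset.notMem_empty, or_false, forall_eq_or_imp,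
      forall_eq, hφv, hφw, hφv', hφw']
    exact ⟨hl.2.2.2, hl.2.2.1, hl.2.1.2, hl.2.1.1⟩
  have hc : (((Om nd r).filter
      (fun lab => (lab v = i ∧ lab w = i') ∧ (lab v' = i ∧ lab w' = i'))).card : ℝ) ≤
      (OmS nd r (insert w' (insert v' (insert w (insert v ∅)))) φ).card := by
    exact_mod_cast Finset.card_le_card hsub
  have ha : (0 : ℝ) ≤ (1 + 9 * η) / r j := by positivity
  have hb : (0 : ℝ) ≤ (1 + 9 * η) / r j' := by positivity
  have e2 := g2.trans (mul_le_mul_of_nonneg_right g1 hb)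
  have e3 := g3.trans (mul_le_mul_of_nonneg_right e2 ha)
  have e4 := g4.trans (mul_le_mul_of_nonneg_right e3 hb)
  refine hc.trans (e4.trans ?_)
  have h6 : ((Om nd r).card : ℝ) * ((1 + 9 * η) / r j) * ((1 + 9 * η) / r j') *
      ((1 + 9 * η) / r j) * ((1 + 9 * η) / r j') =
      (1 + 9 * η) ^ 4 * ((1 / (r j * r j') : ℝ) ^ 2 * (Om nd r).card) := by
    field_simp
  rw [h6, mul_assoc]
  refine mul_le_mul_of_nonneg_right ?_ (by positivity)
  have h7 : (1 + 9 * η) ^ 2 ≤ 1 + 18.1 * η := by nlinarith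
  have h8 : (1 + 9 * η) ^ 4 ≤ (1 + 18.1 * η) ^ 2 := by
    rw [show (1 + 9 * η) ^ 4 = ((1 + 9 * η) ^ 2) ^ 2 by ring]
    exact pow_le_pow_left₀ (by positivity) h7 2
  nlinarith

/-- the `T`-adjacent pairs -/
noncomputable def prs (T : SimpleGraph V) (A B : Finset V) : Finset (V × V) :=
  (A ×ˢ B).filter (fun p => T.Adj p.1 p.2)

omit [Fintype V] in
theorem mem_prs {T : SimpleGraph V} {A B : Finset V} {p : V × V} :
    p ∈ prs T A B ↔ p.1 ∈ A ∧ p.2 ∈ B ∧ T.Adj p.1 p.2 := by
  rw [prs, mem_filter, mem_product, and_assoc]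

theorem ed_eq (T : SimpleGraph V) (A B : Finset V) : ed T A B = (prs T A B).card := by
  rw [ed, prs, Finset.card_filter, Finset.sum_product]
  refine Finset.sum_congr rfl fun v _ => ?_
  rw [← Finset.card_filter]
  congr 1
  ext w
  simp only [nb, mem_inter, mem_filter, mem_univ, true_and]
  tauto

theorem fst_le (T : SimpleGraph V) (A B : Finset V) (x : V) :
    ((prs T A B).filter (fun p => p.1 = x)).card ≤ (nb T x).card := by
  refine Finset.card_le_card_of_injOn (fun p => p.2) ?_ ?_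
  · intro p hp
    rw [mem_coe, mem_filter, mem_prs] at hp
    rw [mem_coe, nb, mem_filter]
    exact ⟨mem_univ _, hp.2 ▸ hp.1.2.2⟩
  · intro p hp q hq hpq
    rw [mem_coe, mem_filter] at hp hq
    exact Prod.ext (hp.2.trans hq.2.symm) hpq

theorem snd_le (T : SimpleGraph V) (A B : Finset V) (x : V) :
    ((prs T A B).filter (fun p => p.2 = x)).card ≤ (nb T x).card := by
  refine Finset.card_le_card_of_injOn (fun p => p.1) ?_ ?_
  · intro p hp
    rw [mem_coe, mem_filter, mem_prs] at hp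
    rw [mem_coe, nb, mem_filter]
    exact ⟨mem_univ _, hp.2 ▸ hp.1.2.2.symm⟩
  · intro p hp q hq hpq
    rw [mem_coe, mem_filter] at hp hq
    exact Prod.ext hpq (hp.2.trans hq.2.symm)

/-- many pairs need many vertices, first side -/
theorem prs_le_fst (T : SimpleGraph V) (A B : Finset V) (D : ℝ)
    (hD : ∀ v, ((nb T v).card : ℝ) ≤ D) : ((prs T A B).card : ℝ) ≤ A.card * D := by
  have h : (prs T A B).card = ∑ x ∈ A, ((prs T A B).filter (fun p => p.1 = x)).card :=
    Finset.card_eq_sum_card_fiberwise fun p hp => (mem_prs.1 hp).1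
  rw [h]
  push_cast
  calc ∑ x ∈ A, (((prs T A B).filter (fun p => p.1 = x)).card : ℝ) ≤ ∑ x ∈ A, D :=
        Finset.sum_le_sum fun x _ => le_trans (by exact_mod_cast fst_le T A B x) (hD x)
    _ = _ := by rw [Finset.sum_const, nsmul_eq_mul]

/-- many pairs need many vertices, second side -/
theorem prs_le_snd (T : SimpleGraph V) (A B : Finset V) (D : ℝ)
    (hD : ∀ v, ((nb T v).card : ℝ) ≤ D) : ((prs T A B).card : ℝ) ≤ B.card * D := by
  have h : (prs T A B).card = ∑ x ∈ B, ((prs T A B).filter (fun p => p.2 = x)).card :=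
    Finset.card_eq_sum_card_fiberwise fun p hp => (mem_prs.1 hp).2.1
  rw [h]
  push_cast
  calc ∑ x ∈ B, (((prs T A B).filter (fun p => p.2 = x)).card : ℝ) ≤ ∑ x ∈ B, D :=
        Finset.sum_le_sum fun x _ => le_trans (by exact_mod_cast snd_le T A B x) (hD x)
    _ = _ := by rw [Finset.sum_const, nsmul_eq_mul]

/-- Chebyshev for the number of `T`-pairs between two classes -/
theorem edge_tail (nd : V → Fin J) (r : Fin J → ℕ) (hr : ∀ j, 1 ≤ r j ∧ r j ≤ 6) (η ζ dd : ℝ)
    (hη : 0 < η) (hη1 : η ≤ 1 / 1000) (hζ : 0 < ζ) (hd : 0 < dd) (T : SimpleGraph V)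
    (hT : ∀ v, ((nb T v).card : ℝ) ≤ η * ζ * dd) (j j' : Fin J)
    (hE : ζ * dd ≤ (ed T (univ.filter (fun v => nd v = j))
      (univ.filter (fun v => nd v = j')) : ℝ)) {i i' : ℕ} (hi : i < r j) (hi' : i' < r j') :
    (((Om nd r).filter (fun lab => ¬ |(ed T (univ.filter (fun v => nd v = j ∧ lab v = i))
          (univ.filter (fun v => nd v = j' ∧ lab v = i')) : ℝ) -
        (ed T (univ.filter (fun v => nd v = j)) (univ.filter (fun v => nd v = j')) : ℝ) /
          (r j * r j')| ≤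
        (ed T (univ.filter (fun v => nd v = j)) (univ.filter (fun v => nd v = j')) : ℝ) /
          100)).card : ℝ) ≤ (Om nd r).card * (2 * 10 ^ 6 * η) := by
  set P : Finset (V × V) := prs T (nde nd j) (nde nd j') with hP
  have hPE : ed T (univ.filter (fun v => nd v = j)) (univ.filter (fun v => nd v = j')) =
      P.card := ed_eq T _ _
  rw [hPE] at hE ⊢
  have hzd : 0 < ζ * dd := mul_pos hζ hd
  have hP0 : (0 : ℝ) < P.card := lt_of_lt_of_le hzd hE
  have hrj : (1 : ℝ) ≤ r j := by exact_mod_cast (hr j).1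
  have hrj' : (1 : ℝ) ≤ r j' := by exact_mod_cast (hr j').1
  have hN : 1 ≤ η * (nde nd j).card := by
    have h := hE.trans (prs_le_fst T (nde nd j) (nde nd j') _ hT)
    have h2 : (ζ * dd) * 1 ≤ (ζ * dd) * (η * (nde nd j).card) := by linarith
    exact le_of_mul_le_mul_left h2 hzd
  have hN' : 1 ≤ η * (nde nd j').card := by
    have h := hE.trans (prs_le_snd T (nde nd j) (nde nd j') _ hT)
    have h2 : (ζ * dd) * 1 ≤ (ζ * dd) * (η * (nde nd j').card) := by linarith
    exact le_of_mul_le_mul_left h2 hzd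
  have hmem : ∀ p ∈ P, nd p.1 = j ∧ nd p.2 = j' ∧ p.1 ≠ p.2 := by
    intro p hp
    have h := mem_prs.1 hp
    refine ⟨(mem_filter.1 h.1).2, (mem_filter.1 h.2.1).2, fun he => ?_⟩
    have h3 := h.2.2
    rw [he] at h3
    exact T.loopless.irrefl _ h3
  have hC := cheb (Om nd r) P (fun p lab => lab p.1 = i ∧ lab p.2 = i')
    (fun p p' => p'.1 = p.1 ∨ p'.1 = p.2 ∨ p'.2 = p.1 ∨ p'.2 = p.2)
    (1 / (r j * r j') : ℝ) (37 * η) (4 * (η * ζ * dd)) (by positivity)
    (by rw [div_le_one (by positivity)]; nlinarith) (by positivity) (by exact_mod_cast hP0)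
    (by
      intro p hp
      obtain ⟨h1, h2, h3⟩ := hmem p hp
      have := two_ge nd r hr η hη hη1 h3 (i := i) (i' := i') (by rw [h1]; exact hi)
        (by rw [h2]; exact hi') (by rw [h1]; exact hN) (by rw [h2]; exact hN')
      rw [h1, h2] at this
      exact this)
    (by
      intro p hp p' hp' hns
      obtain ⟨h1, h2, h3⟩ := hmem p hp
      obtain ⟨h1', h2', h3'⟩ := hmem p' hp'
      push Not at hns
      exact four_le nd r hr η hη hη1 h1 h2 h1' h2' h3 hns.1 hns.2.1 hns.2.2.1 hns.2.2.2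
        h3'.symm hi hi' hN hN')
    (by
      intro p hp
      have hsub : P.filter (fun p' => p'.1 = p.1 ∨ p'.1 = p.2 ∨ p'.2 = p.1 ∨ p'.2 = p.2) ⊆
          (P.filter (fun p' => p'.1 = p.1) ∪ P.filter (fun p' => p'.1 = p.2)) ∪
          (P.filter (fun p' => p'.2 = p.1) ∪ P.filter (fun p' => p'.2 = p.2)) := by
        intro x hx
        simp only [mem_union, mem_filter] at hx ⊢
        tauto
      have hc := (Finset.card_le_card hsub).trans (Finset.card_union_le _ _)
      have hc1 := Finset.card_union_le (P.filter (fun p' => p'.1 = p.1))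
        (P.filter (fun p' => p'.1 = p.2))
      have hc2 := Finset.card_union_le (P.filter (fun p' => p'.2 = p.1))
        (P.filter (fun p' => p'.2 = p.2))
      have f1 := fst_le T (nde nd j) (nde nd j') p.1
      have f2 := fst_le T (nde nd j) (nde nd j') p.2
      have f3 := snd_le T (nde nd j) (nde nd j') p.1
      have f4 := snd_le T (nde nd j) (nde nd j') p.2
      rw [← hP] at f1 f2 f3 f4
      have hn : (P.filter (fun p' => p'.1 = p.1 ∨ p'.1 = p.2 ∨ p'.2 = p.1 ∨ p'.2 = p.2)).card ≤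
          2 * (nb T p.1).card + 2 * (nb T p.2).card := by omega
      have hn' : ((P.filter
          (fun p' => p'.1 = p.1 ∨ p'.1 = p.2 ∨ p'.2 = p.1 ∨ p'.2 = p.2)).card : ℝ) ≤
          2 * (nb T p.1).card + 2 * (nb T p.2).card := by exact_mod_cast hn
      have := hT p.1
      have := hT p.2
      linarith)
  have hset : ∀ lab : V → ℕ,
      ed T (univ.filter (fun v => nd v = j ∧ lab v = i))
        (univ.filter (fun v => nd v = j' ∧ lab v = i')) =
      (P.filter (fun p => lab p.1 = i ∧ lab p.2 = i')).card := by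
    intro lab
    rw [ed_eq]
    congr 1
    ext p
    simp only [hP, mem_filter, mem_prs, mem_univ, true_and, nde]
    tauto
  have hcongr : (Om nd r).filter (fun lab => ¬ |(ed T (univ.filter (fun v => nd v = j ∧ lab v = i))
          (univ.filter (fun v => nd v = j' ∧ lab v = i')) : ℝ) -
        (P.card : ℝ) / (r j * r j')| ≤ (P.card : ℝ) / 100) =
      (Om nd r).filter (fun lab => ¬ |((P.filter (fun p => lab p.1 = i ∧ lab p.2 = i')).card : ℝ) -
        (1 / (r j * r j') : ℝ) * P.card| ≤ (P.card : ℝ) / 100) := by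
    refine Finset.filter_congr fun lab _ => ?_
    rw [hset lab, one_div_mul_eq_div]
  rw [hcongr]
  refine hC.trans (mul_le_mul_of_nonneg_left ?_ (Nat.cast_nonneg _))
  have hDP : 4 * (η * ζ * dd) / P.card ≤ 4 * η := by
    rw [div_le_iff₀ hP0]
    nlinarith
  nlinarith

end edges

end Pool.Agent.Work.MP_db9399_da.helper71
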