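import Mathlib

/-!
# MP_db9399, DENSE-ALL, block LAB3, part 1: labels with exact class sizes

`Om nd r` = set of the labellings with exact class sizes. All moments are computed with one lemma
(`exch`): conditioned on the labels of a set `S`, the labels of the other vertices of a node are
exchangeable.
-/

set_option autoImplicit false

namespace Pool.Agent.Work.MP_db9399_da.helper71

open Finset Classical

universe u

section model
variable {V : Type u} [Fintype V] {J : ℕ}

/-- the node `j` -/
noncomputable def nde (nd : V → Fin J) (j : Fin J) : Finset V := univ.filter (fun v => nd v = j)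

/-- the exact size of the class `i` of the node `j` -/
noncomputable def sz (nd : V → Fin J) (r : Fin J → ℕ) (j : Fin J) (i : ℕ) : ℕ :=
  ((univ.filter (fun v => nd v = j)).card + (r j - 1 - i)) / r j

/-- the labellings with exact class sizes -/
noncomputable def Om (nd : V → Fin J) (r : Fin J → ℕ) : Finset (V → ℕ) :=
  (Fintype.piFinset (fun v => range (r (nd v)))).filter (fun lab =>
    ∀ j, ∀ i < r j, (univ.filter (fun v => nd v = j ∧ lab v = i)).card = sz nd r j i)

theorem mem_Om {nd : V → Fin J} {r : Fin J → ℕ} {lab : V → ℕ} :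
    lab ∈ Om nd r ↔ (∀ v, lab v < r (nd v)) ∧
      ∀ j, ∀ i < r j, (univ.filter (fun v => nd v = j ∧ lab v = i)).card = sz nd r j i := by
  simp only [Om, mem_filter, Fintype.mem_piFinset, mem_range]

omit [Fintype V] in
theorem swap_nd {nd : V → Fin J} {u v : V} (h : nd u = nd v) (x : V) :
    nd (Equiv.swap u v x) = nd x := by
  rcases eq_or_ne x u with rfl | hu
  · rw [Equiv.swap_apply_left]; exact h.symm
  rcases eq_or_ne x v with rfl | hv
  · rw [Equiv.swap_apply_right]; exact h
  · rw [Equiv.swap_apply_of_ne_of_ne hu hv]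

theorem swap_Om {nd : V → Fin J} {r : Fin J → ℕ} {u v : V} (h : nd u = nd v) {lab : V → ℕ}
    (hl : lab ∈ Om nd r) : (fun x => lab (Equiv.swap u v x)) ∈ Om nd r := by
  rw [mem_Om] at hl ⊢
  refine ⟨fun x => ?_, fun j i hi => ?_⟩
  · have := hl.1 (Equiv.swap u v x)
    rwa [swap_nd h] at this
  · rw [← hl.2 j i hi]
    refine Finset.card_bij (fun x _ => Equiv.swap u v x) ?_ ?_ ?_
    · intro x hx
      rw [mem_filter] at hx ⊢
      exact ⟨mem_univ _, by rw [swap_nd h]; exact hx.2.1, hx.2.2⟩
    · intro x _ y _ hxy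
      exact (Equiv.swap u v).injective hxy
    · intro y hy
      rw [mem_filter] at hy
      refine ⟨Equiv.swap u v y, ?_, Equiv.swap_apply_self u v y⟩
      rw [mem_filter]
      refine ⟨mem_univ _, by rw [swap_nd h]; exact hy.2.1, ?_⟩
      rw [Equiv.swap_apply_self]
      exact hy.2.2

/-- labellings of `Om` with given labels on `S` -/
noncomputable def OmS (nd : V → Fin J) (r : Fin J → ℕ) (S : Finset V) (φ : V → ℕ) :
    Finset (V → ℕ) := (Om nd r).filter (fun lab => ∀ u ∈ S, lab u = φ u)

theorem swap_card (nd : V → Fin J) (r : Fin J → ℕ) (S : Finset V) (φ : V → ℕ) {u v : V}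
    (h : nd u = nd v) (hu : u ∉ S) (hv : v ∉ S) (i : ℕ) :
    ((OmS nd r S φ).filter (fun lab => lab u = i)).card =
      ((OmS nd r S φ).filter (fun lab => lab v = i)).card := by
  have hS : ∀ x ∈ S, Equiv.swap u v x = x := fun x hx =>
    Equiv.swap_apply_of_ne_of_ne (fun h => hu (h ▸ hx)) (fun h => hv (h ▸ hx))
  refine Finset.card_bij (fun lab _ => fun x => lab (Equiv.swap u v x)) ?_ ?_ ?_
  · intro lab hl
    rw [mem_filter, OmS, mem_filter] at hl ⊢
    refine ⟨⟨swap_Om h hl.1.1, fun x hx => ?_⟩, ?_⟩
    · show lab (Equiv.swap u v x) = φ x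
      rw [hS x hx]; exact hl.1.2 x hx
    · show lab (Equiv.swap u v v) = i
      rw [Equiv.swap_apply_right]; exact hl.2
  · intro l1 _ l2 _ h12
    funext x
    have := congrFun h12 (Equiv.swap u v x)
    simpa only [Equiv.swap_apply_self] using this
  · intro lab hl
    rw [mem_filter, OmS, mem_filter] at hl
    refine ⟨fun x => lab (Equiv.swap u v x), ?_, ?_⟩
    · rw [mem_filter, OmS, mem_filter]
      refine ⟨⟨swap_Om h hl.1.1, fun x hx => ?_⟩, ?_⟩
      · show lab (Equiv.swap u v x) = φ x
        rw [hS x hx]; exact hl.1.2 x hx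
      · show lab (Equiv.swap u v u) = i
        rw [Equiv.swap_apply_left]; exact hl.2
    · funext x
      show lab (Equiv.swap u v (Equiv.swap u v x)) = lab x
      rw [Equiv.swap_apply_self]

/-- Exchangeability. -/
theorem exch (nd : V → Fin J) (r : Fin J → ℕ) (S : Finset V) (φ : V → ℕ) {v : V} (hv : v ∉ S)
    {i : ℕ} (hi : i < r (nd v)) :
    ((OmS nd r S φ).filter (fun lab => lab v = i)).card * (nde nd (nd v) \ S).card =
      (OmS nd r S φ).card *
        (sz nd r (nd v) i - (S.filter (fun u => nd u = nd v ∧ φ u = i)).card) := by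
  have h1 : ∑ u ∈ nde nd (nd v) \ S, ((OmS nd r S φ).filter (fun lab => lab u = i)).card =
      ((OmS nd r S φ).filter (fun lab => lab v = i)).card * (nde nd (nd v) \ S).card := by
    rw [mul_comm, ← smul_eq_mul, ← Finset.sum_const]
    refine Finset.sum_congr rfl fun u hu => ?_
    rw [mem_sdiff, nde, mem_filter] at hu
    exact swap_card nd r S φ hu.1.2 hu.2 hv i
  have h2 : ∑ u ∈ nde nd (nd v) \ S, ((OmS nd r S φ).filter (fun lab => lab u = i)).card =
      ∑ lab ∈ OmS nd r S φ, ((nde nd (nd v) \ S).filter (fun u => lab u = i)).card := by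
    simp only [Finset.card_filter]
    exact Finset.sum_comm
  rw [← h1, h2, ← smul_eq_mul, ← Finset.sum_const]
  refine Finset.sum_congr rfl fun lab hl => ?_
  rw [OmS, mem_filter, mem_Om] at hl
  have h3 := hl.1.2 (nd v) i hi
  have h4 : (univ.filter (fun w => nd w = nd v ∧ lab w = i)).card =
      ((nde nd (nd v) \ S).filter (fun u => lab u = i)).card +
        (S.filter (fun u => nd u = nd v ∧ φ u = i)).card := by
    rw [← Finset.card_union_of_disjoint]
    · congr 1
      ext w
      simp only [mem_filter, mem_univ, true_and, mem_union, mem_sdiff, nde]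
      by_cases hw : w ∈ S
      · simp only [hw, not_true_eq_false, and_false, false_and, false_or, true_and,
          hl.2 w hw]
      · simp only [hw, not_false_eq_true, and_true, false_and, or_false]
    · rw [Finset.disjoint_left]
      intro w hw hw'
      rw [mem_filter, mem_sdiff] at hw
      rw [mem_filter] at hw'
      exact hw.1.2 hw'.1
  omega

theorem OmS_empty (nd : V → Fin J) (r : Fin J → ℕ) (φ : V → ℕ) : OmS nd r ∅ φ = Om nd r := by
  rw [OmS]
  refine Finset.filter_true_of_mem fun lab _ u hu => ?_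
  exact absurd hu (Finset.notMem_empty u)

theorem OmS_insert (nd : V → Fin J) (r : Fin J → ℕ) (S : Finset V) (φ : V → ℕ) (v : V) :
    OmS nd r (insert v S) φ = (OmS nd r S φ).filter (fun lab => lab v = φ v) := by
  ext lab
  simp only [OmS, mem_filter, mem_insert, forall_eq_or_imp]
  tauto

/-- upper bound for one more label -/
theorem step_le (nd : V → Fin J) (r : Fin J → ℕ) (S : Finset V) (φ : V → ℕ) {v : V}
    (hv : v ∉ S) (hi : φ v < r (nd v)) :
    (OmS nd r (insert v S) φ).card * ((nde nd (nd v)).card - S.card) ≤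
      (OmS nd r S φ).card * sz nd r (nd v) (φ v) := by
  have h := exch nd r S φ hv hi
  rw [← OmS_insert] at h
  calc (OmS nd r (insert v S) φ).card * ((nde nd (nd v)).card - S.card) ≤
      (OmS nd r (insert v S) φ).card * (nde nd (nd v) \ S).card :=
        Nat.mul_le_mul le_rfl (Finset.le_card_sdiff S (nde nd (nd v)))
    _ = _ := h
    _ ≤ _ := Nat.mul_le_mul le_rfl (Nat.sub_le _ _)

/-- lower bound for one more label -/
theorem step_ge (nd : V → Fin J) (r : Fin J → ℕ) (S : Finset V) (φ : V → ℕ) {v : V}
    (hv : v ∉ S) (hi : φ v < r (nd v)) :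
    (OmS nd r S φ).card * (sz nd r (nd v) (φ v) - S.card) ≤
      (OmS nd r (insert v S) φ).card * (nde nd (nd v)).card := by
  have h := exch nd r S φ hv hi
  rw [← OmS_insert] at h
  calc (OmS nd r S φ).card * (sz nd r (nd v) (φ v) - S.card) ≤
      (OmS nd r S φ).card * (sz nd r (nd v) (φ v) -
        (S.filter (fun u => nd u = nd v ∧ φ u = φ v)).card) :=
        Nat.mul_le_mul le_rfl (Nat.sub_le_sub_left (Finset.card_filter_le _ _) _)
    _ = _ := h.symm
    _ ≤ _ := Nat.mul_le_mul le_rfl (Finset.card_le_card sdiff_subset)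

theorem sz_le_card (nd : V → Fin J) (r : Fin J → ℕ) (j : Fin J) (i : ℕ) (hr : 1 ≤ r j)
    (hN : 1 ≤ (nde nd j).card) : sz nd r j i ≤ (nde nd j).card := by
  rw [sz, show (univ.filter (fun v => nd v = j)) = nde nd j from rfl]
  rw [Nat.div_le_iff_le_mul_add_pred (by omega)]
  have : (nde nd j).card + r j ≤ (nde nd j).card * r j + 1 := by
    obtain ⟨a, ha⟩ := Nat.exists_eq_add_of_le hN
    obtain ⟨b, hb⟩ := Nat.exists_eq_add_of_le hr
    rw [ha, hb]; nlinarith
  rw [mul_comm (r j)]
  omega

/-- negative correlation: all labels of `S` equal to `i` -/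
theorem neg (nd : V → Fin J) (r : Fin J → ℕ) (j : Fin J) (i : ℕ) (hi : i < r j) (S : Finset V)
    (hS : S ⊆ nde nd j) :
    ((OmS nd r S (fun _ => i)).card : ℝ) ≤
      (Om nd r).card * ((sz nd r j i : ℝ) / (nde nd j).card) ^ S.card := by
  induction S using Finset.induction_on with
  | empty => simp [OmS_empty]
  | insert v S hv ih =>
    have hvj : nd v = j := by
      have := hS (mem_insert_self v S)
      rw [nde, mem_filter] at this; exact this.2
    have hSj : S ⊆ nde nd j := fun x hx => hS (mem_insert_of_mem hx)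
    have ih := ih hSj
    have hx := exch nd r S (fun _ => i) hv (i := i) (by rw [hvj]; exact hi)
    rw [← OmS_insert nd r S (fun _ => i) v, hvj] at hx
    have hf : S.filter (fun u => nd u = j ∧ (fun _ : V => i) u = i) = S := by
      refine Finset.filter_true_of_mem fun u hu => ⟨?_, rfl⟩
      have := hSj hu
      rw [nde, mem_filter] at this; exact this.2
    rw [hf, Finset.card_sdiff_of_subset hSj] at hx
    have hN : S.card + 1 ≤ (nde nd j).card := by
      rw [← Finset.card_insert_of_notMem hv]
      exact Finset.card_le_card hS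
    have hn := sz_le_card nd r j i (by omega) (by omega)
    have hN0 : (0 : ℝ) < (nde nd j).card := by
      exact_mod_cast (by omega : 0 < (nde nd j).card)
    have hkey : (OmS nd r (insert v S) (fun _ => i)).card * (nde nd j).card ≤
        (OmS nd r S (fun _ => i)).card * sz nd r j i := by
      refine Nat.le_of_mul_le_mul_right ?_ (show 0 < (nde nd j).card - S.card by omega)
      calc (OmS nd r (insert v S) (fun _ => i)).card * (nde nd j).card *
          ((nde nd j).card - S.card) = ((OmS nd r (insert v S) (fun _ => i)).card *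
          ((nde nd j).card - S.card)) * (nde nd j).card := by ring
        _ = (OmS nd r S (fun _ => i)).card * ((sz nd r j i - S.card) * (nde nd j).card) := by
          rw [hx]; ring
        _ ≤ (OmS nd r S (fun _ => i)).card * (sz nd r j i * ((nde nd j).card - S.card)) := by
          refine Nat.mul_le_mul le_rfl ?_
          rw [Nat.sub_mul, Nat.mul_sub]
          have : sz nd r j i * S.card ≤ S.card * (nde nd j).card := by
            rw [mul_comm]; exact Nat.mul_le_mul le_rfl hn
          omega
        _ = _ := by ring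
    rw [Finset.card_insert_of_notMem hv, pow_succ, ← mul_assoc]
    have hkey' : ((OmS nd r (insert v S) (fun _ => i)).card : ℝ) * (nde nd j).card ≤
        (OmS nd r S (fun _ => i)).card * (sz nd r j i : ℝ) := by exact_mod_cast hkey
    calc ((OmS nd r (insert v S) (fun _ => i)).card : ℝ) ≤
        (OmS nd r S (fun _ => i)).card * ((sz nd r j i : ℝ) / (nde nd j).card) := by
          rw [mul_div_assoc', le_div_iff₀ hN0]; exact hkey'
      _ ≤ _ := mul_le_mul_of_nonneg_right ih (by positivity)

/-- there is a labelling with exact class sizes -/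
theorem Om_nonempty (nd : V → Fin J) (r : Fin J → ℕ) (hr : ∀ j, 1 ≤ r j) :
    (Om nd r).Nonempty := by
  have he : ∀ j : Fin J, ∃ e : V → ℕ, Set.InjOn e (nde nd j : Set V) ∧
      (nde nd j).image e = range (nde nd j).card := by
    intro j
    have e0 := (nde nd j).equivFin
    refine ⟨fun v => if h : v ∈ nde nd j then (e0 ⟨v, h⟩ : ℕ) else 0, ?_, ?_⟩
    · intro a ha b hb hab
      rw [mem_coe] at ha hb
      simp only [ha, hb, dif_pos] at hab
      have := e0.injective (Fin.ext hab)
      exact congrArg Subtype.val this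
    · ext x
      rw [mem_image, mem_range]
      constructor
      · rintro ⟨v, hv, rfl⟩
        simp only [hv, dif_pos]
        exact (e0 ⟨v, hv⟩).2
      · intro hx
        refine ⟨(e0.symm ⟨x, hx⟩ : V), (e0.symm ⟨x, hx⟩).2, ?_⟩
        have h1 : ((e0.symm ⟨x, hx⟩ : {v // v ∈ nde nd j}) : V) ∈ nde nd j :=
          (e0.symm ⟨x, hx⟩).2
        rw [dif_pos h1]
        have : e0 ⟨((e0.symm ⟨x, hx⟩ : {v // v ∈ nde nd j}) : V), h1⟩ = ⟨x, hx⟩ := by
          rw [show (⟨((e0.symm ⟨x, hx⟩ : {v // v ∈ nde nd j}) : V), h1⟩ : {v // v ∈ nde nd j}) =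
            e0.symm ⟨x, hx⟩ from rfl, Equiv.apply_symm_apply]
        rw [this]
  choose e heinj heim using he
  refine ⟨fun v => e (nd v) v % r (nd v), mem_Om.2 ⟨fun v => Nat.mod_lt _ (hr (nd v)), ?_⟩⟩
  intro j i hi
  have h1 : (univ.filter (fun v => nd v = j ∧ e (nd v) v % r (nd v) = i)).card =
      ((range (nde nd j).card).filter (fun m => m % r j = i)).card := by
    rw [← heim j, Finset.filter_image, Finset.card_image_of_injOn]
    · congr 1
      ext v
      simp only [mem_filter, mem_univ, true_and, nde]
      constructor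
      · rintro ⟨h, h'⟩
        rw [h] at h'; exact ⟨h, h'⟩
      · rintro ⟨h, h'⟩
        rw [h]; exact ⟨rfl, h'⟩
    · intro a ha b hb hab
      rw [mem_coe, mem_filter] at ha hb
      exact heinj j ha.1 hb.1 hab
  rw [h1, sz, show (univ.filter (fun v => nd v = j)) = nde nd j from rfl]
  have h2 : ((range (nde nd j).card).filter (fun m => m % r j = i)).card =
      (nde nd j).card.count (· ≡ i [MOD r j]) := by
    rw [Nat.count_eq_card_filter_range]
    congr 1
    ext m
    rw [mem_filter, mem_filter, Nat.ModEq, Nat.mod_eq_of_lt hi]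
  rw [h2, Nat.count_modEq_card _ (hr j), Nat.mod_eq_of_lt hi]
  generalize (nde nd j).card = N
  obtain ⟨b, hb⟩ : ∃ b, r j = b + 1 := ⟨r j - 1, by have := hr j; omega⟩
  rw [hb] at hi ⊢
  have hdm := Nat.div_add_mod N (b + 1)
  have hml := Nat.mod_lt N (show 0 < b + 1 by omega)
  symm
  split_ifs with h
  · rw [Nat.div_eq_iff (by omega)]
    constructor
    · rw [add_mul, mul_comm (N / (b + 1))]; omega
    · rw [add_mul, mul_comm (N / (b + 1))]; omega
  · rw [Nat.div_eq_iff (by omega)]
    constructor
    · rw [add_zero, mul_comm (N / (b + 1))]; omega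
    · rw [add_zero, mul_comm (N / (b + 1))]; omega

end model

end Pool.Agent.Work.MP_db9399_da.helper71
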