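import Mathlib

/-!
# Greedy choice and requests (helper71), used by MIS1
-/

set_option autoImplicit false

namespace Pool.Agent.Work.MP_db9399_da_helper71

open Finset Classical

/-- Generic greedy choice with a symmetric conflict relation. -/
theorem greedy {ι X : Type*} [Nonempty X] (R : Finset ι) (L : ι → Finset X)
    (cf : ι → ι → X → X → Prop) (hs : ∀ r r' x x', cf r r' x x' → cf r' r x' x)
    (h : ∀ R' ⊆ R, ∀ r ∈ R, r ∉ R' → ∀ f : ι → X, (∀ r' ∈ R', f r' ∈ L r') →
      ∃ x ∈ L r, ∀ r' ∈ R', ¬ cf r r' x (f r')) :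
    ∃ f : ι → X, (∀ r ∈ R, f r ∈ L r) ∧
      ∀ r ∈ R, ∀ r' ∈ R, r ≠ r' → ¬ cf r r' (f r) (f r') := by
  have key : ∀ R' : Finset ι, R' ⊆ R → ∃ f : ι → X, (∀ r ∈ R', f r ∈ L r) ∧
      ∀ r ∈ R', ∀ r' ∈ R', r ≠ r' → ¬ cf r r' (f r) (f r') := by
    intro R'
    induction R' using Finset.induction_on with
    | empty =>
      intro _
      exact ⟨fun _ => Classical.arbitrary X, by simp, by simp⟩
    | insert a s ha ih =>
      intro hsub
      have hs' : s ⊆ R := fun x hx => hsub (mem_insert_of_mem hx)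
      obtain ⟨f, hf1, hf2⟩ := ih hs'
      obtain ⟨x, hx, hx2⟩ := h s hs' a (hsub (mem_insert_self _ _)) ha f hf1
      refine ⟨Function.update f a x, ?_, ?_⟩
      · intro r hr
        rcases mem_insert.1 hr with rfl | hr
        · simpa using hx
        · have : r ≠ a := fun e => ha (e ▸ hr)
          rw [Function.update_of_ne this]
          exact hf1 r hr
      · intro r hr r' hr' hne
        rcases mem_insert.1 hr with rfl | hr2
        · have hr'2 : r' ∈ s := by
            rcases mem_insert.1 hr' with h1 | h1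
            · exact absurd h1.symm hne
            · exact h1
          have h3 : r' ≠ r := fun e => hne e.symm
          rw [Function.update_self, Function.update_of_ne h3]
          exact hx2 r' hr'2
        · rcases mem_insert.1 hr' with rfl | hr'2
          · have h3 : r ≠ r' := hne
            rw [Function.update_self, Function.update_of_ne h3]
            intro hc
            exact hx2 r hr2 (hs _ _ _ _ hc)
          · have h3 : r ≠ a := fun e => ha (e ▸ hr2)
            have h4 : r' ≠ a := fun e => ha (e ▸ hr'2)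
            rw [Function.update_of_ne h3, Function.update_of_ne h4]
            exact hf2 r hr2 r' hr'2 hne
  exact key R (Subset.refl _)

/-- requests `(β, b, k)`: the `k`-th missed vertex on the side `β` in the round `b` -/
noncomputable def rq (nd : Bool → ℕ → ℕ) (B : Finset ℕ) : Finset (Bool × ℕ × ℕ) :=
  (univ : Finset Bool).biUnion fun β => B.biUnion fun b =>
    (range (nd β b)).image fun k => (β, b, k)

theorem mem_rq {nd : Bool → ℕ → ℕ} {B : Finset ℕ} {r : Bool × ℕ × ℕ} :
    r ∈ rq nd B ↔ r.2.1 ∈ B ∧ r.2.2 < nd r.1 r.2.1 := by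
  obtain ⟨β, b, k⟩ := r
  simp only [rq, mem_biUnion, mem_univ, true_and, mem_image, mem_range, Prod.mk.injEq]
  constructor
  · rintro ⟨β', b', hb', k', hk', rfl, rfl, rfl⟩
    exact ⟨hb', hk'⟩
  · rintro ⟨h1, h2⟩
    exact ⟨β, b, h1, k, h2, rfl, rfl, rfl⟩

theorem rq_mono {nd : Bool → ℕ → ℕ} {B B' : Finset ℕ} (h : B ⊆ B') : rq nd B ⊆ rq nd B' := by
  intro r hr
  rw [mem_rq] at hr ⊢
  exact ⟨h hr.1, hr.2⟩

theorem card_rq_side (nd : Bool → ℕ → ℕ) (B : Finset ℕ) (β : Bool) :
    ((rq nd B).filter fun r => r.1 = β).card = ∑ b ∈ B, nd β b := by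
  have h1 : (rq nd B).filter (fun r => r.1 = β) =
      (B.sigma fun b => range (nd β b)).image fun x => (β, x.1, x.2) := by
    ext r
    obtain ⟨β', b, k⟩ := r
    simp only [mem_filter, mem_rq, mem_image, mem_sigma, mem_range, Prod.mk.injEq, Sigma.exists]
    constructor
    · rintro ⟨⟨h1, h2⟩, rfl⟩
      exact ⟨b, k, ⟨h1, h2⟩, rfl, rfl, rfl⟩
    · rintro ⟨b', k', ⟨h1, h2⟩, rfl, rfl, rfl⟩
      exact ⟨⟨h1, h2⟩, rfl⟩
  rw [h1, card_image_of_injective, card_sigma]
  · simp
  · rintro ⟨b, k⟩ ⟨b', k'⟩ h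
    simp only [Prod.mk.injEq, true_and] at h
    obtain ⟨rfl, rfl⟩ := h
    rfl

theorem card_rq (nd : Bool → ℕ → ℕ) (B : Finset ℕ) :
    (rq nd B).card = ∑ b ∈ B, (nd false b + nd true b) := by
  have h := Finset.card_filter_add_card_filter_not (s := rq nd B) (fun r => r.1 = false)
  have h2 : (rq nd B).filter (fun r => ¬ r.1 = false) = (rq nd B).filter fun r => r.1 = true := by
    apply filter_congr
    intro r _
    simp
  rw [h2, card_rq_side, card_rq_side] at h
  rw [← h, ← sum_add_distrib]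

theorem card_rq_round (nd : Bool → ℕ → ℕ) (B : Finset ℕ) (β : Bool) (b : ℕ) (hb : b ∈ B) :
    ((rq nd B).filter fun r => r.1 = β ∧ r.2.1 = b).card = nd β b := by
  have h : (rq nd B).filter (fun r => r.1 = β ∧ r.2.1 = b) =
      (rq nd {b}).filter fun r => r.1 = β := by
    ext r
    simp only [mem_filter, mem_rq, mem_singleton]
    constructor
    · rintro ⟨⟨_, h2⟩, h3, h4⟩
      exact ⟨⟨h4, h2⟩, h3⟩
    · rintro ⟨⟨h1, h2⟩, h3⟩
      exact ⟨⟨h1 ▸ hb, h2⟩, h3, h1⟩
  rw [h, card_rq_side]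
  simp

end Pool.Agent.Work.MP_db9399_da_helper71
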