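import Pool.Agent.Work.MP_db9399_da_helper71.Cheb

/-!
# MP_db9399, DENSE-ALL, block LAB3: random labels in the nodes (helper71)

Model: uniformly random labelling with exact class sizes (`Om`).
-/

set_option autoImplicit false

namespace Pool.Agent.Work.MP_db9399_da.helper71

open Finset Classical
open Pool.Agent.Work.MP_db9399_all (nb)

universe u

/-- polynomial times exponentially small is small -/
theorem small (k J : ℕ) (c : ℝ) (hc : 0 < c) :
    ∃ d0 : ℕ, 1 ≤ d0 ∧ ∀ d : ℕ, d0 ≤ d →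
      (d : ℝ) ^ k * (J * 6) * Real.exp (1 - c * d) < 1 / 2 := by
  have h := Real.tendsto_pow_mul_exp_neg_atTop_nhds_zero k
  have h1 : Filter.Tendsto (fun d : ℕ => c * (d : ℝ)) Filter.atTop Filter.atTop :=
    Filter.Tendsto.const_mul_atTop hc tendsto_natCast_atTop_atTop
  have h2 := (h.comp h1).const_mul (Real.exp 1 * (J * 6) / c ^ k)
  rw [mul_zero] at h2
  have h3 := h2.eventually (gt_mem_nhds (show (0 : ℝ) < 1 / 2 by norm_num))
  obtain ⟨d0, hd0⟩ := Filter.eventually_atTop.1 h3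
  refine ⟨max d0 1, le_max_right _ _, fun d hd => ?_⟩
  have h4 := hd0 d ((le_max_left _ _).trans hd)
  refine lt_of_eq_of_lt ?_ h4
  simp only [Function.comp]
  rw [mul_pow, show (1 : ℝ) - c * d = 1 + -(c * d) by ring, Real.exp_add]
  have : c ^ k ≠ 0 := (pow_pos hc k).ne'
  field_simp

/-- upper bounds for all classes give lower bounds -/
theorem low_of_up {V : Type u} [Fintype V] {J : ℕ} (nd : V → Fin J) (r : Fin J → ℕ)
    (j : Fin J) (hr : 1 ≤ r j ∧ r j ≤ 6) (lab : V → ℕ) (hlab : ∀ v, lab v < r (nd v)) (g : V → ℝ)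
    (t : ℝ) (ht : 0 ≤ t)
    (h : ∀ i < r j, ∑ v ∈ (nde nd j).filter (fun v => lab v = i), g v ≤
      (∑ v ∈ nde nd j, g v) / r j + t) (i : ℕ) (hi : i < r j) :
    |∑ v ∈ (nde nd j).filter (fun v => lab v = i), g v - (∑ v ∈ nde nd j, g v) / r j| ≤ 6 * t := by
  have hr0 : (0 : ℝ) < r j := by exact_mod_cast hr.1
  have hr6 : (r j : ℝ) ≤ 6 := by exact_mod_cast hr.2
  have hsum : ∑ v ∈ nde nd j, g v =
      ∑ i ∈ range (r j), ∑ v ∈ (nde nd j).filter (fun v => lab v = i), g v := by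
    refine (Finset.sum_fiberwise_of_maps_to (fun v hv => ?_) _).symm
    rw [nde, mem_filter] at hv
    rw [mem_range]
    have := hlab v
    rwa [hv.2] at this
  rw [← Finset.add_sum_erase _ _ (mem_range.2 hi)] at hsum
  have herase : ∑ i' ∈ (range (r j)).erase i, ∑ v ∈ (nde nd j).filter (fun v => lab v = i'), g v ≤
      ∑ i' ∈ (range (r j)).erase i, ((∑ v ∈ nde nd j, g v) / r j + t) :=
    Finset.sum_le_sum fun i' hi' => h i' (mem_range.1 (mem_of_mem_erase hi'))
  rw [Finset.sum_const, Finset.card_erase_of_mem (mem_range.2 hi), card_range, nsmul_eq_mul,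
    Nat.cast_sub hr.1, Nat.cast_one] at herase
  have hG : (r j : ℝ) * ((∑ v ∈ nde nd j, g v) / r j) = ∑ v ∈ nde nd j, g v := by
    field_simp
  have hup := h i hi
  rw [abs_le]
  constructor
  · nlinarith
  · nlinarith

/-- **Block LAB3.** -/
theorem stmt_LAB3 : Stmt_LAB3.{u} := by
  intro C δ ζ J k hC hδ hζ
  set l : ℝ := min 1 (δ / (12 * C)) with hl
  have hC0 : 0 < C := by linarith
  have hl0 : 0 < l := lt_min one_pos (by positivity)
  have hl1 : l ≤ 1 := min_le_left _ _
  have hlC : l * C ≤ δ / 12 := by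
    have h1 : l ≤ δ / (12 * C) := min_le_right _ _
    calc l * C ≤ δ / (12 * C) * C := mul_le_mul_of_nonneg_right h1 hC0.le
      _ = δ / 12 := by field_simp
  obtain ⟨d0, hd01, hd0⟩ := small k J (l * δ / 12) (by positivity)
  set η : ℝ := 1 / (10 ^ 9 * (J + 1 : ℝ) ^ 2) with hη
  have hη0 : 0 < η := by positivity
  have hJ1 : (1 : ℝ) ≤ (J + 1 : ℝ) ^ 2 := by
    have : (0 : ℝ) ≤ J := Nat.cast_nonneg J
    nlinarith
  have hη1 : η ≤ 1 / 1000 := by
    rw [hη]
    refine one_div_le_one_div_of_le (by norm_num) ?_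
    nlinarith
  have hηJ : (J : ℝ) * J * 36 * (2 * 10 ^ 6 * η) < 1 / 2 := by
    rw [hη, show (J : ℝ) * J * 36 * (2 * 10 ^ 6 * (1 / (10 ^ 9 * (J + 1 : ℝ) ^ 2))) =
      (72 * 10 ^ 6 * J ^ 2) / (10 ^ 9 * (J + 1 : ℝ) ^ 2) by field_simp; ring]
    rw [div_lt_div_iff₀ (by positivity) (by norm_num)]
    have : (0 : ℝ) ≤ J := Nat.cast_nonneg J
    nlinarith
  refine ⟨η * ζ, d0, by positivity, ?_⟩
  intro V _ d nd r T I hd hV hr hI hg hT
  have hd1 : (0 : ℝ) < d := by
    have : 0 < d := by omega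
    exact_mod_cast this
  have hOm : 0 < (Om nd r).card := Finset.card_pos.2 (Om_nonempty nd r fun j => (hr j).1)
  have hOm0 : (0 : ℝ) < (Om nd r).card := by exact_mod_cast hOm
  set t : ℝ := δ * d / 6 with ht
  have ht0 : 0 < t := by positivity
  set BA : (V → ℝ) × (Fin J × ℕ) → Finset (V → ℕ) := fun x =>
    if x.2.2 < r x.2.1 then (Om nd r).filter (fun lab =>
      (∑ v ∈ nde nd x.2.1, x.1 v) / r x.2.1 + t <
        ∑ v ∈ (nde nd x.2.1).filter (fun v => lab v = x.2.2), x.1 v) else ∅ with hBA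
  set BB : (Fin J × Fin J) × (ℕ × ℕ) → Finset (V → ℕ) := fun x =>
    if x.2.1 < r x.1.1 ∧ x.2.2 < r x.1.2 ∧ ζ * d ≤ (ed T (univ.filter (fun v => nd v = x.1.1))
        (univ.filter (fun v => nd v = x.1.2)) : ℝ) then
      (Om nd r).filter (fun lab =>
        ¬ |(ed T (univ.filter (fun v => nd v = x.1.1 ∧ lab v = x.2.1))
          (univ.filter (fun v => nd v = x.1.2 ∧ lab v = x.2.2)) : ℝ) -
        (ed T (univ.filter (fun v => nd v = x.1.1)) (univ.filter (fun v => nd v = x.1.2)) : ℝ) /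
          (r x.1.1 * r x.1.2)| ≤
        (ed T (univ.filter (fun v => nd v = x.1.1)) (univ.filter (fun v => nd v = x.1.2)) : ℝ) /
          100) else ∅ with hBB
  have hA : ∀ x ∈ I ×ˢ ((univ : Finset (Fin J)) ×ˢ range 6), ((BA x).card : ℝ) ≤
      (Om nd r).card * Real.exp (1 - l * δ / 12 * d) := by
    rintro ⟨g, j, i⟩ hx
    rw [mem_product] at hx
    simp only [hBA]
    split_ifs with hi
    · refine (tail_one nd r j i hi (hr j).2 g (hg g hx.1) l t hl0 hl1).trans ?_
      refine mul_le_mul_of_nonneg_left (Real.exp_le_exp.2 ?_) hOm0.le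
      have hN : ((nde nd j).card : ℝ) ≤ C * d :=
        le_trans (by exact_mod_cast Finset.card_le_univ _) hV
      have h1 : l ^ 2 * ((nde nd j).card : ℝ) ≤ l * d * (δ / 12) := by
        calc l ^ 2 * ((nde nd j).card : ℝ) ≤ l ^ 2 * (C * d) :=
              mul_le_mul_of_nonneg_left hN (by positivity)
          _ = l * d * (l * C) := by ring
          _ ≤ _ := mul_le_mul_of_nonneg_left hlC (by positivity)
      have h2 : l * t = l * d * (δ / 12) + l * δ / 12 * d := by rw [ht]; ring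
      linarith
    · rw [Finset.card_empty, Nat.cast_zero]; positivity
  have hB : ∀ x ∈ ((univ : Finset (Fin J)) ×ˢ (univ : Finset (Fin J))) ×ˢ (range 6 ×ˢ range 6),
      ((BB x).card : ℝ) ≤ (Om nd r).card * (2 * 10 ^ 6 * η) := by
    rintro ⟨⟨j, j'⟩, ⟨i, i'⟩⟩ _
    simp only [hBB]
    split_ifs with hi
    · exact edge_tail nd r hr η ζ d hη0 hη1 hζ hd1 T hT j j' hi.2.2 hi.1 hi.2.1
    · rw [Finset.card_empty, Nat.cast_zero]; positivity
  have hex : ∃ lab ∈ Om nd r,
      (∀ x ∈ I ×ˢ ((univ : Finset (Fin J)) ×ˢ range 6), lab ∉ BA x) ∧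
      (∀ x ∈ ((univ : Finset (Fin J)) ×ˢ (univ : Finset (Fin J))) ×ˢ (range 6 ×ˢ range 6),
        lab ∉ BB x) := by
    by_contra hno
    push Not at hno
    have hcov : Om nd r ⊆ (I ×ˢ ((univ : Finset (Fin J)) ×ˢ range 6)).biUnion BA ∪
        (((univ : Finset (Fin J)) ×ˢ (univ : Finset (Fin J))) ×ˢ
          (range 6 ×ˢ range 6)).biUnion BB := by
      intro lab hlab
      rw [mem_union, mem_biUnion, mem_biUnion]
      by_cases h : ∀ x ∈ I ×ˢ ((univ : Finset (Fin J)) ×ˢ range 6), lab ∉ BA x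
      · right; exact hno lab hlab h
      · left; push Not at h; exact h
    have h1 := (Finset.card_le_card hcov).trans (Finset.card_union_le _ _)
    have h2 := h1.trans (Nat.add_le_add Finset.card_biUnion_le Finset.card_biUnion_le)
    have h3 : ((Om nd r).card : ℝ) ≤
        (∑ x ∈ I ×ˢ ((univ : Finset (Fin J)) ×ˢ range 6), ((BA x).card : ℝ)) +
        ∑ x ∈ ((univ : Finset (Fin J)) ×ˢ (univ : Finset (Fin J))) ×ˢ (range 6 ×ˢ range 6),
          ((BB x).card : ℝ) := by exact_mod_cast h2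
    have h4 := h3.trans (add_le_add (Finset.sum_le_sum hA) (Finset.sum_le_sum hB))
    rw [Finset.sum_const, Finset.sum_const, nsmul_eq_mul, nsmul_eq_mul] at h4
    simp only [card_product, card_range, Finset.card_univ, Fintype.card_fin] at h4
    push_cast at h4
    have h5 : (I.card : ℝ) ≤ (d : ℝ) ^ k := by exact_mod_cast hI
    have h6 := hd0 d hd
    have h7 : (I.card : ℝ) * (J * 6) * Real.exp (1 - l * δ / 12 * d) ≤
        (d : ℝ) ^ k * (J * 6) * Real.exp (1 - l * δ / 12 * d) := by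
      refine mul_le_mul_of_nonneg_right (mul_le_mul_of_nonneg_right h5 (by positivity))
        (Real.exp_pos _).le
    have h8 : (I.card : ℝ) * (J * 6) * Real.exp (1 - l * δ / 12 * d) +
        (J : ℝ) * J * 36 * (2 * 10 ^ 6 * η) < 1 := by linarith
    have h9 : ((Om nd r).card : ℝ) ≤ (Om nd r).card *
        ((I.card : ℝ) * (J * 6) * Real.exp (1 - l * δ / 12 * d) +
        (J : ℝ) * J * 36 * (2 * 10 ^ 6 * η)) := by
      refine h4.trans (le_of_eq ?_)
      ring
    nlinarith
  obtain ⟨lab, hlab, hgA, hgB⟩ := hex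
  have hlab' := mem_Om.1 hlab
  refine ⟨lab, hlab'.1, hlab'.2, ?_, ?_⟩
  · intro g hgI j i hi
    have hup : ∀ i < r j, ∑ v ∈ (nde nd j).filter (fun v => lab v = i), g v ≤
        (∑ v ∈ nde nd j, g v) / r j + t := by
      intro i hi
      have h6 : i < 6 := lt_of_lt_of_le hi (hr j).2
      have h := hgA (g, (j, i)) (by
        rw [mem_product, mem_product]
        exact ⟨hgI, mem_univ _, mem_range.2 h6⟩)
      simp only [hBA, if_pos hi, mem_filter, not_and, not_lt] at h
      exact h hlab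
    have h := low_of_up nd r j (hr j) lab hlab'.1 g t ht0.le hup i hi
    have hset : univ.filter (fun v => nd v = j ∧ lab v = i) =
        (nde nd j).filter (fun v => lab v = i) := by
      rw [nde, Finset.filter_filter]
    rw [hset]
    refine h.trans (le_of_eq ?_)
    rw [ht]; ring
  · intro j j' hE i hi i' hi'
    have h6 : i < 6 := lt_of_lt_of_le hi (hr j).2
    have h6' : i' < 6 := lt_of_lt_of_le hi' (hr j').2
    have h := hgB ((j, j'), (i, i')) (by
      rw [mem_product, mem_product, mem_product]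
      exact ⟨⟨mem_univ _, mem_univ _⟩, mem_range.2 h6, mem_range.2 h6'⟩)
    simp only [hBB, if_pos (⟨hi, hi', hE⟩ : i < r j ∧ i' < r j' ∧ ζ * d ≤
      (ed T (univ.filter (fun v => nd v = j)) (univ.filter (fun v => nd v = j')) : ℝ)),
      mem_filter, not_and, not_not] at h
    exact h hlab

end Pool.Agent.Work.MP_db9399_da.helper71
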