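import Pool.Agent.Work.MP_db9399_da_helper71.MIS1
import Pool.Agent.Work.MP_db9399_da_helper72.Stm6

/-!
# MIS1B, first part: the greedy steps for the rounds of type T (helper71)
-/

set_option autoImplicit false

namespace Pool.Agent.Work.MP_db9399_da_helper71

open Finset Classical
open Pool.Agent.Work.MP_db9399_all (nb)
open Pool.Agent.Work.MP_db9399_lt (us)
open Pool.Agent.Work.MP_db9399_da
open Pool.Agent.Work.MP_db9399_da_helper72

universe u

section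
variable {V : Type u} [Fintype V]

/-- `pick` with a number `n` instead of `8`. -/
theorem pickn (Th : SimpleGraph V) (R' K : Finset (Bool × ℕ × ℕ)) (L : Finset V)
    (f : Bool × ℕ × ℕ → V) (r : Bool × ℕ × ℕ) (n : ℕ) (t : ℝ) (ht : 0 ≤ t)
    (hK : ∀ r' ∈ R', f r' ∈ L → r' ∈ K)
    (h8 : (R'.filter fun r' => r'.2.1 = r.2.1).card ≤ n)
    (hT : ∀ r' ∈ R', r'.2.1 = r.2.1 → ((nb Th (f r')).card : ℝ) ≤ t)
    (hL : (K.card : ℝ) + n * t < L.card) :
    ∃ x ∈ L, ∀ r' ∈ R', ¬ cfl Th r r' x (f r') := by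
  by_contra hcon
  push Not at hcon
  have hsub : L ⊆ K.image f ∪
      (R'.filter fun r' => r'.2.1 = r.2.1).biUnion fun r' => nb Th (f r') := by
    intro x hx
    obtain ⟨r', hr', hc⟩ := hcon x hx
    rw [mem_union]
    rcases hc with hc | ⟨h1, h2⟩
    · left
      rw [mem_image]
      exact ⟨r', hK r' hr' (hc ▸ hx), hc.symm⟩
    · right
      rw [mem_biUnion]
      exact ⟨r', mem_filter.2 ⟨hr', h1.symm⟩, mem_nb.2 h2.symm⟩
  have h1 : (L.card : ℝ) ≤ ((K.image f).card : ℝ) +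
      (((R'.filter fun r' => r'.2.1 = r.2.1).biUnion fun r' => nb Th (f r')).card : ℝ) := by
    have := (card_le_card hsub).trans (card_union_le _ _)
    exact_mod_cast this
  have h2 : ((K.image f).card : ℝ) ≤ K.card := by exact_mod_cast card_image_le
  have h3 : (((R'.filter fun r' => r'.2.1 = r.2.1).biUnion fun r' => nb Th (f r')).card : ℝ) ≤
      n * t := by
    have h4 : ((((R'.filter fun r' => r'.2.1 = r.2.1).biUnion fun r' => nb Th (f r')).card : ℕ) : ℝ) ≤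
        ∑ r' ∈ R'.filter (fun r' => r'.2.1 = r.2.1), ((nb Th (f r')).card : ℝ) := by
      exact_mod_cast card_biUnion_le
    refine h4.trans ?_
    have h5 : ∑ r' ∈ R'.filter (fun r' => r'.2.1 = r.2.1), ((nb Th (f r')).card : ℝ) ≤
        ∑ r' ∈ R'.filter (fun r' => r'.2.1 = r.2.1), t := by
      apply sum_le_sum
      intro r' hr'
      rw [mem_filter] at hr'
      exact hT r' hr'.1 hr'.2
    refine h5.trans ?_
    rw [sum_const, nsmul_eq_mul]
    have : (((R'.filter fun r' => r'.2.1 = r.2.1).card : ℕ) : ℝ) ≤ n := by exact_mod_cast h8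
    exact mul_le_mul_of_nonneg_right this ht
  linarith

theorem ndB_le {G Th : SimpleGraph V} {d z K : ℕ} {θ : ℝ} {sd pt : V → Bool} {Q : Bool → Finset ℕ}
    {P2 : Finset ℕ} {F A : V → Finset ℕ} {Sp : Finset ℕ} {Bk : Bool → Finset ℕ} {o : Finset V}
    {c0 : V → ℕ} (h : LB2 G Th d z K θ sd pt Q P2 F A Sp Bk o c0) (b : ℕ) (hb : b ∈ P1 d Q P2) :
    need (Fo o c0 F) sd false b + need (Fo o c0 F) sd true b ≤ K := by
  rw [need_add]
  have h1 := abs_le.1 (h.gs b hb)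
  omega

theorem card_rqB_le {G Th : SimpleGraph V} {d z K : ℕ} {θ : ℝ} {sd pt : V → Bool}
    {Q : Bool → Finset ℕ} {P2 : Finset ℕ} {F A : V → Finset ℕ} {Sp : Finset ℕ}
    {Bk : Bool → Finset ℕ} {o : Finset V} {c0 : V → ℕ}
    (h : LB2 G Th d z K θ sd pt Q P2 F A Sp Bk o c0) (B : Finset ℕ) (hB : B ⊆ P1 d Q P2) :
    (rq (need (Fo o c0 F) sd) B).card ≤ K * B.card := by
  rw [card_rq]
  calc ∑ b ∈ B, (need (Fo o c0 F) sd false b + need (Fo o c0 F) sd true b) ≤ ∑ b ∈ B, K :=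
        sum_le_sum fun b hb => ndB_le h b (hB hb)
    _ = K * B.card := by rw [sum_const, smul_eq_mul]; ring

theorem filtB_le {G Th : SimpleGraph V} {d z K : ℕ} {θ : ℝ} {sd pt : V → Bool}
    {Q : Bool → Finset ℕ} {P2 : Finset ℕ} {F A : V → Finset ℕ} {Sp : Finset ℕ}
    {Bk : Bool → Finset ℕ} {o : Finset V} {c0 : V → ℕ}
    (h : LB2 G Th d z K θ sd pt Q P2 F A Sp Bk o c0) (B : Finset ℕ)
    (R' : Finset (Bool × ℕ × ℕ)) (hR : R' ⊆ rq (need (Fo o c0 F) sd) B) (b : ℕ)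
    (hb : b ∈ P1 d Q P2) : (R'.filter fun r' => r'.2.1 = b).card ≤ K :=
  ((card_le_card (filter_subset_filter _ hR)).trans (card_rq_round_le _ _ _)).trans (ndB_le h b hb)

/-- step 1: the rounds of `Sp`, type T -/
theorem stepB1 [Nonempty V] {G Th : SimpleGraph V} {d z K : ℕ} {θ : ℝ} {sd pt : V → Bool}
    {Q : Bool → Finset ℕ} {P2 : Finset ℕ} {F A : V → Finset ℕ} {Sp : Finset ℕ}
    {Bk : Bool → Finset ℕ} {o : Finset V} {c0 : V → ℕ} (hK : 1 ≤ K)
    (h : LB2 G Th d z K θ sd pt Q P2 F A Sp Bk o c0) :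
    ∃ f : Bool × ℕ × ℕ → V,
      (∀ r ∈ (rq (need (Fo o c0 F) sd) Sp).filter (fun r => r.2.1 ∉ Bk r.1),
        f r ∈ (sid sd r.1 \ us A r.2.1) \ o) ∧
      ∀ r ∈ (rq (need (Fo o c0 F) sd) Sp).filter (fun r => r.2.1 ∉ Bk r.1),
        ∀ r' ∈ (rq (need (Fo o c0 F) sd) Sp).filter (fun r => r.2.1 ∉ Bk r.1),
          r ≠ r' → ¬ cfl Th r r' (f r) (f r') := by
  apply greedy ((rq (need (Fo o c0 F) sd) Sp).filter (fun r => r.2.1 ∉ Bk r.1))
    (fun r => (sid sd r.1 \ us A r.2.1) \ o) (cfl Th) (cfl_symm Th)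
  intro R' hR' r hr _ f hf
  rw [mem_filter] at hr
  have hR2 : R' ⊆ rq (need (Fo o c0 F) sd) Sp := hR'.trans (filter_subset _ _)
  have hr2 := mem_rq.1 hr.1
  have hbP : r.2.1 ∈ P1 d Q P2 := h.SP hr2.1
  have hz := h.Ze r.2.1 hr2.1 r.1 hr.2 (by omega)
  have hzz := h.Zz
  have hzz' : (100 : ℝ) * K * (Sp.card + 1) ≤ z := by exact_mod_cast hzz
  have hz' : (z : ℝ) ≤ ((sid sd r.1 \ us A r.2.1) \ o).card := by exact_mod_cast hz
  have hK' : (1 : ℝ) ≤ K := by exact_mod_cast hK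
  apply pickn Th R' R' ((sid sd r.1 \ us A r.2.1) \ o) f r K ((z : ℝ) / (100 * K)) (by positivity)
    (fun r' hr' _ => hr')
  · exact filtB_le h Sp R' hR2 r.2.1 hbP
  · intro r' hr' he
    have h1 := mem_rq.1 (hR2 hr')
    have h2 := hf r' hr'
    rw [mem_sdiff, mem_sdiff, mem_us] at h2
    have h3 := h.Zt r'.2.1 h1.1 (f r') h2.2 h2.1.2
    have h4 : (100 : ℝ) * K * (nb Th (f r')).card ≤ z := by exact_mod_cast h3
    rw [le_div_iff₀ (by positivity)]
    linarith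
  · have h1 : R'.card ≤ K * Sp.card := (card_le_card hR2).trans (card_rqB_le h Sp h.SP)
    have h2 : (R'.card : ℝ) ≤ K * Sp.card := by exact_mod_cast h1
    have h3 : (0 : ℝ) ≤ Sp.card := by positivity
    have h4 : (K : ℝ) * ((z : ℝ) / (100 * K)) = z / 100 := by field_simp
    rw [h4]
    nlinarith

theorem qtrB_large {G Th : SimpleGraph V} {d z K : ℕ} {θ : ℝ} {sd pt : V → Bool}
    {Q : Bool → Finset ℕ} {P2 : Finset ℕ} {F A : V → Finset ℕ} {Sp : Finset ℕ}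
    {Bk : Bool → Finset ℕ} {o : Finset V} {c0 : V → ℕ}
    (h : LB2 G Th d z K θ sd pt Q P2 F A Sp Bk o c0) (β i : Bool) (hv : ∃ v, sd v = !β) :
    (d : ℝ) / 2 - θ * d ≤ (qtr sd pt β i).card := by
  obtain ⟨v, hv⟩ := hv
  have h1 := h.dgp v i
  rw [abs_le] at h1
  have h2 : nb G v ∩ prt pt i ⊆ qtr sd pt β i := by
    intro w hw
    rw [mem_inter, mem_nb, mem_prt] at hw
    rw [mem_qtr]
    refine ⟨?_, hw.2⟩
    have h3 := h.bip v w hw.1
    rw [hv] at h3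
    cases β <;> cases hsw : sd w <;> simp_all
  have h3 : ((nb G v ∩ prt pt i).card : ℝ) ≤ (qtr sd pt β i).card := by
    exact_mod_cast card_le_card h2
  linarith [h1.1]

/-- steps 1 and 2: all requests of type T -/
theorem stepB2 [Nonempty V] {G Th : SimpleGraph V} {d z K : ℕ} {θ : ℝ} {sd pt : V → Bool}
    {Q : Bool → Finset ℕ} {P2 : Finset ℕ} {F A : V → Finset ℕ} {Sp : Finset ℕ}
    {Bk : Bool → Finset ℕ} {o : Finset V} {c0 : V → ℕ} (hK : 1 ≤ K)
    (hθ0 : 0 < θ) (hθ : K * θ ≤ 1 / 1000) (hd : (K : ℝ) ≤ θ * d)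
    (h : LB2 G Th d z K θ sd pt Q P2 F A Sp Bk o c0) :
    ∃ (f : Bool × ℕ × ℕ → V) (pi : Bool × ℕ × ℕ → Bool),
      (∀ β i, 2 * ((rq (need (Fo o c0 F) sd) (P1 d Q P2 \ Sp)).filter
          fun r => r.1 = β ∧ pi r = i).card ≤
          (∑ b ∈ P1 d Q P2 \ Sp, need (Fo o c0 F) sd β b) + 1 ∧
        (∑ b ∈ P1 d Q P2 \ Sp, need (Fo o c0 F) sd β b) ≤
          2 * ((rq (need (Fo o c0 F) sd) (P1 d Q P2 \ Sp)).filter
            fun r => r.1 = β ∧ pi r = i).card + 1) ∧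
      (∀ r ∈ (rq (need (Fo o c0 F) sd) (P1 d Q P2)).filter (fun r => r.2.1 ∉ Bk r.1),
        sd (f r) = r.1 ∧ r.2.1 ∉ A (f r) ∧ f r ∉ o) ∧
      (∀ r ∈ rq (need (Fo o c0 F) sd) (P1 d Q P2 \ Sp), pt (f r) = pi r) ∧
      ∀ r ∈ (rq (need (Fo o c0 F) sd) (P1 d Q P2)).filter (fun r => r.2.1 ∉ Bk r.1),
        ∀ r' ∈ (rq (need (Fo o c0 F) sd) (P1 d Q P2)).filter (fun r => r.2.1 ∉ Bk r.1),
          r ≠ r' → ¬ cfl Th r r' (f r) (f r') := by
  obtain ⟨f1, hf1, hf1'⟩ := stepB1 hK h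
  obtain ⟨pi, hpi⟩ := split (need (Fo o c0 F) sd) (P1 d Q P2 \ Sp)
  set R1 := (rq (need (Fo o c0 F) sd) Sp).filter (fun r => r.2.1 ∉ Bk r.1) with hR1d
  have hB2 : P1 d Q P2 \ Sp ⊆ P1 d Q P2 := sdiff_subset
  have hd0 : (0 : ℝ) ≤ d := by positivity
  have hK' : (1 : ℝ) ≤ K := by exact_mod_cast hK
  have hdp : (0 : ℝ) < d := by
    rcases hd0.lt_or_eq with h9 | h9
    · exact h9
    · rw [← h9] at hd
      linarith
  have hKd : (K : ℝ) * (θ * d) ≤ 1 / 1000 * d := by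
    have := mul_le_mul_of_nonneg_right hθ hd0
    linarith
  have hθd : θ * d ≤ 1 / 1000 * d := by nlinarith
  have hR1 : (R1.card : ℝ) ≤ K * (θ * d) := by
    have h1 : R1.card ≤ K * Sp.card :=
      (card_le_card (filter_subset _ _)).trans (card_rqB_le h Sp h.SP)
    have h2 : (R1.card : ℝ) ≤ K * Sp.card := by exact_mod_cast h1
    have h3 := h.Sc
    nlinarith
  obtain ⟨f2, hf2, hf2'⟩ : ∃ f : Bool × ℕ × ℕ → V,
      (∀ r ∈ rq (need (Fo o c0 F) sd) (P1 d Q P2 \ Sp), f r ∈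
        ((qtr sd pt r.1 (pi r) \ us A r.2.1) \ o) \ R1.image f1) ∧
      ∀ r ∈ rq (need (Fo o c0 F) sd) (P1 d Q P2 \ Sp),
        ∀ r' ∈ rq (need (Fo o c0 F) sd) (P1 d Q P2 \ Sp),
        r ≠ r' → ¬ cfl Th r r' (f r) (f r') := by
    apply greedy (rq (need (Fo o c0 F) sd) (P1 d Q P2 \ Sp))
      (fun r => ((qtr sd pt r.1 (pi r) \ us A r.2.1) \ o) \ R1.image f1)
      (cfl Th) (cfl_symm Th)
    intro R' hR' r hr _ f hf
    have hr2 := mem_rq.1 hr
    have hbP : r.2.1 ∈ P1 d Q P2 := hB2 hr2.1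
    have hbSp : r.2.1 ∉ Sp := (mem_sdiff.1 hr2.1).2
    have hlt : r.2.1 < d + 2 := by
      have := (mem_sdiff.1 hbP).1
      exact mem_range.1 this
    have hq := qtrB_large h r.1 (pi r) (need_ex (Fo o c0 F) sd r.1 r.2.1 (by omega))
    have hA := h.gA r.2.1 hlt hbSp
    apply pickn Th R' (R'.filter fun r' => r'.1 = r.1 ∧ pi r' = pi r) _ f r K (θ * d)
      (by positivity)
    · intro r' hr' hm
      rw [mem_filter]
      refine ⟨hr', ?_⟩
      have h1 := hf r' hr'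
      simp only [mem_sdiff, mem_qtr] at h1 hm
      exact ⟨h1.1.1.1.1.symm.trans hm.1.1.1.1, h1.1.1.1.2.symm.trans hm.1.1.1.2⟩
    · exact filtB_le h _ R' hR' r.2.1 hbP
    · intro r' _ _
      exact h.Tx _
    · have h1 : ((qtr sd pt r.1 (pi r)).card : ℝ) ≤
          (((((qtr sd pt r.1 (pi r) \ us A r.2.1) \ o) \ R1.image f1).card : ℕ) : ℝ) +
            ((us A r.2.1 \ o).card : ℝ) + (o.card : ℝ) + ((R1.image f1).card : ℝ) := by
        have e1 : qtr sd pt r.1 (pi r) ⊆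
            (((qtr sd pt r.1 (pi r) \ us A r.2.1) \ o) \ R1.image f1) ∪
              ((us A r.2.1 \ o) ∪ (o ∪ R1.image f1)) := by
          intro x hx
          simp only [mem_union, mem_sdiff]
          tauto
        have e2 := card_le_card e1
        have e3 := card_union_le (((qtr sd pt r.1 (pi r) \ us A r.2.1) \ o) \ R1.image f1)
          ((us A r.2.1 \ o) ∪ (o ∪ R1.image f1))
        have e4 := card_union_le (us A r.2.1 \ o) (o ∪ R1.image f1)
        have e5 := card_union_le o (R1.image f1)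
        have e6 : (qtr sd pt r.1 (pi r)).card ≤
            (((qtr sd pt r.1 (pi r) \ us A r.2.1) \ o) \ R1.image f1).card +
            (us A r.2.1 \ o).card + o.card + (R1.image f1).card := by omega
        exact_mod_cast e6
      have h2 : ((R1.image f1).card : ℝ) ≤ R1.card := by
        exact_mod_cast card_image_le
      have h3 : 2 * (R'.filter fun r' => r'.1 = r.1 ∧ pi r' = pi r).card ≤
          (∑ b ∈ P1 d Q P2 \ Sp, need (Fo o c0 F) sd r.1 b) + 1 :=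
        (Nat.mul_le_mul_left 2 (card_le_card (filter_subset_filter _ hR'))).trans
          (hpi r.1 (pi r)).1
      have h4 : ∑ b ∈ P1 d Q P2 \ Sp, need (Fo o c0 F) sd r.1 b ≤
          ∑ b ∈ P1 d Q P2, need (Fo o c0 F) sd r.1 b :=
        sum_le_sum_of_subset hB2
      have h5 := h.tot r.1
      have h6 : (2 : ℝ) * (R'.filter fun r' => r'.1 = r.1 ∧ pi r' = pi r).card ≤
          ((∑ b ∈ P1 d Q P2, need (Fo o c0 F) sd r.1 b : ℕ) : ℝ) + 1 := by
        exact_mod_cast h3.trans (Nat.add_le_add_right h4 1)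
      have h7 : (o.card : ℝ) ≤ K := by exact_mod_cast h.ok
      linarith
  have hcase : ∀ r ∈ (rq (need (Fo o c0 F) sd) (P1 d Q P2)).filter (fun r => r.2.1 ∉ Bk r.1),
      (r.2.1 ∈ Sp ∧ r ∈ R1) ∨
        (r.2.1 ∉ Sp ∧ r ∈ rq (need (Fo o c0 F) sd) (P1 d Q P2 \ Sp)) := by
    intro r hr
    rw [mem_filter, mem_rq] at hr
    by_cases hS : r.2.1 ∈ Sp
    · exact Or.inl ⟨hS, mem_filter.2 ⟨mem_rq.2 ⟨hS, hr.1.2⟩, hr.2⟩⟩
    · exact Or.inr ⟨hS, mem_rq.2 ⟨mem_sdiff.2 ⟨hr.1.1, hS⟩, hr.1.2⟩⟩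
  refine ⟨fun r => if r.2.1 ∈ Sp then f1 r else f2 r, pi, hpi, ?_, ?_, ?_⟩
  · intro r hr
    rcases hcase r hr with ⟨hS, h1⟩ | ⟨hS, h1⟩
    · simp only [if_pos hS]
      have h2 := hf1 r h1
      rw [mem_sdiff, mem_sdiff, mem_us, mem_sid] at h2
      exact ⟨h2.1.1, h2.1.2, h2.2⟩
    · simp only [if_neg hS]
      have h2 := hf2 r h1
      rw [mem_sdiff, mem_sdiff, mem_sdiff, mem_us, mem_qtr] at h2
      exact ⟨h2.1.1.1.1, h2.1.1.2, h2.1.2⟩
  · intro r hr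
    have hS : r.2.1 ∉ Sp := (mem_sdiff.1 (mem_rq.1 hr).1).2
    simp only [if_neg hS]
    have h2 := hf2 r hr
    rw [mem_sdiff, mem_sdiff, mem_sdiff, mem_us, mem_qtr] at h2
    exact h2.1.1.1.2
  · intro r hr r' hr' hne
    rcases hcase r hr with ⟨hS, h1⟩ | ⟨hS, h1⟩ <;> rcases hcase r' hr' with ⟨hS', h1'⟩ | ⟨hS', h1'⟩
    · simp only [if_pos hS, if_pos hS']
      exact hf1' r h1 r' h1' hne
    · simp only [if_pos hS, if_neg hS']
      rintro (hc | ⟨hc, _⟩)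
      · have h2 := hf2 r' h1'
        rw [mem_sdiff] at h2
        exact h2.2 (hc ▸ mem_image_of_mem f1 h1)
      · exact hS' (hc ▸ hS)
    · simp only [if_neg hS, if_pos hS']
      rintro (hc | ⟨hc, _⟩)
      · have h2 := hf2 r h1
        rw [mem_sdiff] at h2
        exact h2.2 (hc ▸ mem_image_of_mem f1 h1')
      · exact hS (hc ▸ hS')
    · simp only [if_neg hS, if_neg hS']
      exact hf2' r h1 r' h1' hne

end

end Pool.Agent.Work.MP_db9399_da_helper71
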