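import Pool.Agent.Work.MP_db9399_da_helper71.MIS1Ba

/-!
# MIS1B, second part: partners and missed vertices for the rounds of type P (helper71)
-/

set_option autoImplicit false

namespace Pool.Agent.Work.MP_db9399_da_helper71

open Finset Classical
open Pool.Agent.Work.MP_db9399_all (nb)
open Pool.Agent.Work.MP_db9399_lt (us)
open Pool.Agent.Work.MP_db9399_da
open Pool.Agent.Work.MP_db9399_da_helper72

universe u

theorem card_T (nd : Bool → ℕ → ℕ) (B : Finset ℕ) (Bk : Bool → Finset ℕ) (γ : Bool) :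
    (((rq nd B).filter (fun r => r.2.1 ∉ Bk r.1)).filter fun r => r.1 = γ).card =
      ∑ b ∈ B \ Bk γ, nd γ b := by
  rw [← card_rq_side nd (B \ Bk γ) γ]
  congr 1
  ext r
  simp only [mem_filter, mem_rq, mem_sdiff]
  constructor
  · rintro ⟨⟨⟨h1, h2⟩, h3⟩, h4⟩
    rw [h4] at h3
    exact ⟨⟨⟨h1, h3⟩, h2⟩, h4⟩
  · rintro ⟨⟨⟨h1, h3⟩, h2⟩, h4⟩
    rw [← h4] at h3
    exact ⟨⟨⟨h1, h2⟩, h3⟩, h4⟩

theorem card_P (nd : Bool → ℕ → ℕ) (B : Finset ℕ) (Bk : Bool → Finset ℕ) (γ : Bool)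
    (hB : Bk γ ⊆ B) :
    (((rq nd B).filter (fun r => r.2.1 ∈ Bk r.1)).filter fun r => r.1 = γ).card =
      ∑ b ∈ Bk γ, nd γ b := by
  rw [← card_rq_side nd (Bk γ) γ]
  congr 1
  ext r
  simp only [mem_filter, mem_rq]
  constructor
  · rintro ⟨⟨⟨h1, h2⟩, h3⟩, h4⟩
    rw [h4] at h3
    exact ⟨⟨h3, h2⟩, h4⟩
  · rintro ⟨⟨h3, h2⟩, h4⟩
    rw [← h4] at h3 hB
    exact ⟨⟨⟨hB h3, h2⟩, h3⟩, h4⟩

section
variable {V : Type u} [Fintype V]

/-- the partners of the type P requests -/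
theorem partners [Nonempty V] {G Th : SimpleGraph V} {d z K : ℕ} {θ : ℝ} {sd pt : V → Bool}
    {Q : Bool → Finset ℕ} {P2 : Finset ℕ} {F A : V → Finset ℕ} {Sp : Finset ℕ}
    {Bk : Bool → Finset ℕ} {o : Finset V} {c0 : V → ℕ}
    (h : LB2 G Th d z K θ sd pt Q P2 F A Sp Bk o c0) (f : Bool × ℕ × ℕ → V)
    (hf1 : ∀ r ∈ (rq (need (Fo o c0 F) sd) (P1 d Q P2)).filter (fun r => r.2.1 ∉ Bk r.1),
        sd (f r) = r.1 ∧ r.2.1 ∉ A (f r) ∧ f r ∉ o)
    (hf3 : ∀ r ∈ (rq (need (Fo o c0 F) sd) (P1 d Q P2)).filter (fun r => r.2.1 ∉ Bk r.1),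
        ∀ r' ∈ (rq (need (Fo o c0 F) sd) (P1 d Q P2)).filter (fun r => r.2.1 ∉ Bk r.1),
        f r = f r' → r = r') :
    ∃ g : Bool × ℕ × ℕ → V,
      (∀ r ∈ (rq (need (Fo o c0 F) sd) (P1 d Q P2)).filter (fun r => r.2.1 ∈ Bk r.1),
        g r ∈ o ∪ ((rq (need (Fo o c0 F) sd) (P1 d Q P2)).filter
          (fun r => r.2.1 ∉ Bk r.1)).image f ∧ sd (g r) = !r.1) ∧
      ∀ r ∈ (rq (need (Fo o c0 F) sd) (P1 d Q P2)).filter (fun r => r.2.1 ∈ Bk r.1),
        ∀ r' ∈ (rq (need (Fo o c0 F) sd) (P1 d Q P2)).filter (fun r => r.2.1 ∈ Bk r.1),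
        g r = g r' → r = r' := by
  set nd := need (Fo o c0 F) sd with hnd
  set RT := (rq nd (P1 d Q P2)).filter (fun r => r.2.1 ∉ Bk r.1) with hRT
  set RP := (rq nd (P1 d Q P2)).filter (fun r => r.2.1 ∈ Bk r.1) with hRP
  obtain ⟨g, hg1, hg2⟩ := greedy RP
    (fun r => (o ∩ sid sd (!r.1)) ∪ (RT.filter fun r' => r'.1 = !r.1).image f)
    (fun _ _ x x' => x = x') (fun _ _ x x' hc => hc.symm) (by
      intro R' hR' r hr hrR g hg
      by_contra hcon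
      push Not at hcon
      have hsd : ∀ (s : Bool × ℕ × ℕ), ∀ x ∈ (o ∩ sid sd (!s.1)) ∪
          (RT.filter fun r' => r'.1 = !s.1).image f, sd x = !s.1 := by
        intro s x hx
        rw [mem_union, mem_inter, mem_sid, mem_image] at hx
        rcases hx with ⟨_, hx⟩ | ⟨q, hq, rfl⟩
        · exact hx
        · rw [mem_filter] at hq
          rw [(hf1 q hq.1).1, hq.2]
      have h1 : ((o ∩ sid sd (!r.1)) ∪ (RT.filter fun r' => r'.1 = !r.1).image f).card ≤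
          (R'.filter fun r' => r'.1 = r.1).card := by
        refine (card_le_card (t := (R'.filter fun r' => r'.1 = r.1).image g) ?_).trans
          card_image_le
        intro x hx
        obtain ⟨r', hr', he⟩ := hcon x hx
        rw [mem_image]
        refine ⟨r', mem_filter.2 ⟨hr', ?_⟩, he.symm⟩
        have h2 := hsd r x hx
        have h3 := hsd r' (g r') (hg r' hr')
        rw [← he, h2] at h3
        exact (Bool.not_inj h3).symm
      have h2 : (R'.filter fun r' => r'.1 = r.1).card < (RP.filter fun r' => r'.1 = r.1).card := by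
        apply card_lt_card
        refine ⟨filter_subset_filter _ hR', ?_⟩
        intro hc
        have h3 := hc (mem_filter.2 ⟨hr, rfl⟩)
        exact hrR (mem_filter.1 h3).1
      have h3 : (RP.filter fun r' => r'.1 = r.1).card = ∑ b ∈ Bk r.1, nd r.1 b :=
        card_P nd _ Bk r.1 ((h.BS r.1).trans h.SP)
      have h4 : ((o ∩ sid sd (!r.1)) ∪ (RT.filter fun r' => r'.1 = !r.1).image f).card =
          (o ∩ sid sd (!r.1)).card + ∑ b ∈ P1 d Q P2 \ Bk (!r.1), nd (!r.1) b := by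
        rw [card_union_of_disjoint, card_image_of_injOn, card_T]
        · intro a ha a' ha' he
          exact hf3 a (mem_filter.1 (mem_coe.1 ha)).1 a' (mem_filter.1 (mem_coe.1 ha')).1 he
        · rw [disjoint_left]
          intro x hx hx'
          rw [mem_image] at hx'
          obtain ⟨q, hq, rfl⟩ := hx'
          exact (hf1 q (mem_filter.1 hq).1).2.2 (mem_inter.1 hx).1
      have h5 := h.EX r.1
      rw [← hnd] at h5
      omega)
  refine ⟨g, ?_, ?_⟩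
  · intro r hr
    have h1 := hg1 r hr
    rw [mem_union, mem_inter, mem_sid, mem_image] at h1
    rcases h1 with ⟨h1, h2⟩ | ⟨q, hq, h2⟩
    · exact ⟨mem_union_left _ h1, h2⟩
    · rw [mem_filter] at hq
      refine ⟨mem_union_right _ (mem_image.2 ⟨q, hq.1, h2⟩), ?_⟩
      rw [← h2, (hf1 q hq.1).1, hq.2]
  · intro r hr r' hr' he
    by_contra hne
    exact hg2 r hr r' hr' hne he

/-- the missed vertices of the type P requests -/
theorem stepB3 [Nonempty V] {G Th : SimpleGraph V} {d z K : ℕ} {C ρ π κ θ : ℝ} {sd pt : V → Bool}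
    {Q : Bool → Finset ℕ} {P2 : Finset ℕ} {F A : V → Finset ℕ} {Sp : Finset ℕ}
    {Bk : Bool → Finset ℕ} {o : Finset V} {c0 : V → ℕ} (hK : 1 ≤ K)
    (hθ0 : 0 < θ) (hθ : K * θ ≤ 1 / 1000) (hd : (K : ℝ) ≤ θ * d)
    (hI : LI2 G d K C ρ π κ θ sd pt Q P2 F)
    (h : LB2 G Th d z K θ sd pt Q P2 F A Sp Bk o c0) (f : Bool × ℕ × ℕ → V)
    (pi : Bool × ℕ × ℕ → Bool)
    (hpi : ∀ β i, 2 * ((rq (need (Fo o c0 F) sd) (P1 d Q P2 \ Sp)).filter
          fun r => r.1 = β ∧ pi r = i).card ≤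
          (∑ b ∈ P1 d Q P2 \ Sp, need (Fo o c0 F) sd β b) + 1)
    (hf1 : ∀ r ∈ (rq (need (Fo o c0 F) sd) (P1 d Q P2)).filter (fun r => r.2.1 ∉ Bk r.1),
        sd (f r) = r.1 ∧ r.2.1 ∉ A (f r) ∧ f r ∉ o)
    (hf2 : ∀ r ∈ rq (need (Fo o c0 F) sd) (P1 d Q P2 \ Sp), pt (f r) = pi r)
    (g : Bool × ℕ × ℕ → V)
    (hg : ∀ r ∈ (rq (need (Fo o c0 F) sd) (P1 d Q P2)).filter (fun r => r.2.1 ∈ Bk r.1),
        sd (g r) = !r.1) :
    ∃ f3 : Bool × ℕ × ℕ → V,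
      (∀ r ∈ (rq (need (Fo o c0 F) sd) (P1 d Q P2)).filter (fun r => r.2.1 ∈ Bk r.1),
        G.Adj (g r) (f3 r) ∧ pt (g r) = pt (f3 r) ∧ sd (f3 r) = r.1 ∧ f3 r ∉ o ∧
        f3 r ∉ ((rq (need (Fo o c0 F) sd) (P1 d Q P2)).filter
          (fun r => r.2.1 ∉ Bk r.1)).image f ∧ r.2.1 ∉ F (f3 r)) ∧
      ∀ r ∈ (rq (need (Fo o c0 F) sd) (P1 d Q P2)).filter (fun r => r.2.1 ∈ Bk r.1),
        ∀ r' ∈ (rq (need (Fo o c0 F) sd) (P1 d Q P2)).filter (fun r => r.2.1 ∈ Bk r.1),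
        f3 r = f3 r' → r = r' := by
  set nd := need (Fo o c0 F) sd with hnd
  set RT := (rq nd (P1 d Q P2)).filter (fun r => r.2.1 ∉ Bk r.1) with hRT
  set RP := (rq nd (P1 d Q P2)).filter (fun r => r.2.1 ∈ Bk r.1) with hRP
  have hd0 : (0 : ℝ) ≤ d := by positivity
  have hK' : (1 : ℝ) ≤ K := by exact_mod_cast hK
  have hdp : (0 : ℝ) < d := by
    rcases hd0.lt_or_eq with h9 | h9
    · exact h9
    · rw [← h9] at hd
      linarith
  have hKd : (K : ℝ) * (θ * d) ≤ 1 / 1000 * d := by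
    have := mul_le_mul_of_nonneg_right hθ hd0
    linarith
  have hθd : θ * d ≤ 1 / 1000 * d := by nlinarith
  have hSp : ((rq nd Sp).card : ℝ) ≤ K * (θ * d) := by
    have h2 : ((rq nd Sp).card : ℝ) ≤ K * Sp.card := by exact_mod_cast card_rqB_le h Sp h.SP
    have h3 := h.Sc
    nlinarith
  have hRPS : RP ⊆ rq nd Sp := by
    intro r hr
    rw [hRP, mem_filter, mem_rq] at hr
    exact mem_rq.2 ⟨h.BS r.1 hr.2, hr.1.2⟩
  obtain ⟨f3, h31, h32⟩ := greedy RP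
    (fun r => (univ : Finset V).filter fun v => G.Adj (g r) v ∧ pt (g r) = pt v ∧ v ∉ o ∧
      v ∉ RT.image f ∧ r.2.1 ∉ F v)
    (fun _ _ x x' => x = x') (fun _ _ x x' hc => hc.symm) (by
      intro R' hR' r hr hrR f3 _
      have hsw := hg r hr
      have hnbw : (d : ℝ) / 2 - θ * d ≤ ((nb G (g r) ∩ prt pt (pt (g r))).card : ℝ) := by
        have h1 := abs_le.1 (h.dgp (g r) (pt (g r)))
        linarith [h1.1]
      have hnq : nb G (g r) ∩ prt pt (pt (g r)) ⊆ qtr sd pt r.1 (pt (g r)) := by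
        intro x hx
        rw [mem_inter, mem_nb, mem_prt] at hx
        rw [mem_qtr]
        refine ⟨?_, hx.2⟩
        have h3 := h.bip (g r) x hx.1
        rw [hsw] at h3
        cases hb : r.1 <;> cases hsx : sd x <;> simp_all
      have hmsb : ((RT.image f ∩ qtr sd pt r.1 (pt (g r))).card : ℝ) ≤
          3 / 10 * d + θ * d + K * (θ * d) := by
        have h1 : RT.image f ∩ qtr sd pt r.1 (pt (g r)) ⊆
            ((rq nd (P1 d Q P2)).filter fun r' => r'.1 = r.1 ∧ pt (f r') = pt (g r)).image f := by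
          intro x hx
          rw [mem_inter, mem_image, mem_qtr] at hx
          obtain ⟨⟨a, ha, rfl⟩, hx1, hx2⟩ := hx
          refine mem_image_of_mem f (mem_filter.2 ⟨(mem_filter.1 ha).1, ?_, hx2⟩)
          rw [← (hf1 a ha).1]
          exact hx1
        have h2 := (card_le_card h1).trans card_image_le
        have h3 := (cnt nd (P1 d Q P2) Sp pt f pi hf2 r.1 (pt (g r))).1
        have h4 := hpi r.1 (pt (g r))
        have h5 : ∑ b ∈ P1 d Q P2 \ Sp, nd r.1 b ≤ ∑ b ∈ P1 d Q P2, nd r.1 b :=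
          sum_le_sum_of_subset sdiff_subset
        have h6 : 2 * (RT.image f ∩ qtr sd pt r.1 (pt (g r))).card ≤
            (∑ b ∈ P1 d Q P2, nd r.1 b) + 1 + 2 * (rq nd Sp).card := by omega
        have h7 : (2 : ℝ) * (RT.image f ∩ qtr sd pt r.1 (pt (g r))).card ≤
            ((∑ b ∈ P1 d Q P2, nd r.1 b : ℕ) : ℝ) + 1 + 2 * (rq nd Sp).card := by exact_mod_cast h6
        have h8 := h.tot r.1
        rw [← hnd] at h8
        linarith
      by_contra hcon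
      push Not at hcon
      have hsub : nb G (g r) ∩ prt pt (pt (g r)) ⊆ (RT.image f ∩ qtr sd pt r.1 (pt (g r))) ∪
          (us F r.2.1 ∪ (o ∪ R'.image f3)) := by
        intro v hv
        have hvq := hnq hv
        rw [mem_inter, mem_nb, mem_prt] at hv
        simp only [mem_union, mem_inter, mem_us]
        by_contra hv2
        simp only [not_or, not_and] at hv2
        have h1 : v ∉ RT.image f := fun hc => hv2.1 hc hvq
        obtain ⟨r', hr', he⟩ := hcon v (mem_filter.2 ⟨mem_univ _, hv.1, hv.2.symm, hv2.2.2.1, h1,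
          hv2.2.1⟩)
        exact hv2.2.2.2 (mem_image.2 ⟨r', hr', he.symm⟩)
      have h1 : (nb G (g r) ∩ prt pt (pt (g r))).card ≤
          (RT.image f ∩ qtr sd pt r.1 (pt (g r))).card +
            ((us F r.2.1).card + (o.card + (R'.image f3).card)) :=
        (card_le_card hsub).trans ((card_union_le _ _).trans
          (Nat.add_le_add_left ((card_union_le _ _).trans
            (Nat.add_le_add_left (card_union_le _ _) _)) _))
      have h2 : ((nb G (g r) ∩ prt pt (pt (g r))).card : ℝ) ≤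
          ((RT.image f ∩ qtr sd pt r.1 (pt (g r))).card : ℝ) +
            (((us F r.2.1).card : ℝ) + ((o.card : ℝ) + ((R'.image f3).card : ℝ))) := by
        exact_mod_cast h1
      have h3 : ((R'.image f3).card : ℝ) ≤ (rq nd Sp).card := by
        exact_mod_cast card_image_le.trans (card_le_card (hR'.trans hRPS))
      have h6 := hI.load r.2.1
      have h7 : (o.card : ℝ) ≤ K := by exact_mod_cast h.ok
      linarith)
  refine ⟨f3, ?_, ?_⟩
  · intro r hr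
    have h1 := h31 r hr
    rw [mem_filter] at h1
    refine ⟨h1.2.1, h1.2.2.1, ?_, h1.2.2.2⟩
    have h3 := h.bip (g r) (f3 r) h1.2.1
    rw [hg r hr] at h3
    cases hb : r.1 <;> cases hsx : sd (f3 r) <;> simp_all
  · intro r hr r' hr' he
    by_contra hne
    exact h32 r hr r' hr' hne he

/-- all three steps -/
theorem coreB [Nonempty V] {G Th : SimpleGraph V} {d z K : ℕ} {C ρ π κ θ : ℝ} {sd pt : V → Bool}
    {Q : Bool → Finset ℕ} {P2 : Finset ℕ} {F A : V → Finset ℕ} {Sp : Finset ℕ}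
    {Bk : Bool → Finset ℕ} {o : Finset V} {c0 : V → ℕ} (hK : 1 ≤ K)
    (hθ0 : 0 < θ) (hθ : K * θ ≤ 1 / 1000) (hd : (K : ℝ) ≤ θ * d)
    (hI : LI2 G d K C ρ π κ θ sd pt Q P2 F)
    (h : LB2 G Th d z K θ sd pt Q P2 F A Sp Bk o c0) :
    ∃ (f g : Bool × ℕ × ℕ → V),
      (∀ β i, 2 * ((rq (need (Fo o c0 F) sd) (P1 d Q P2)).filter
          fun r => r.1 = β ∧ pt (f r) = i).card ≤
          (∑ b ∈ P1 d Q P2 \ Sp, need (Fo o c0 F) sd β b) + 1 + 2 * (K * Sp.card) ∧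
        (∑ b ∈ P1 d Q P2 \ Sp, need (Fo o c0 F) sd β b) ≤
          2 * ((rq (need (Fo o c0 F) sd) (P1 d Q P2)).filter
            fun r => r.1 = β ∧ pt (f r) = i).card + 1) ∧
      (∀ r ∈ rq (need (Fo o c0 F) sd) (P1 d Q P2), sd (f r) = r.1 ∧ r.2.1 ∉ F (f r) ∧ f r ∉ o) ∧
      (∀ r ∈ rq (need (Fo o c0 F) sd) (P1 d Q P2), r.2.1 ∉ Bk r.1 → r.2.1 ∉ A (f r)) ∧
      (∀ r ∈ rq (need (Fo o c0 F) sd) (P1 d Q P2), ∀ r' ∈ rq (need (Fo o c0 F) sd) (P1 d Q P2),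
        f r = f r' → r = r') ∧
      (∀ r ∈ rq (need (Fo o c0 F) sd) (P1 d Q P2), r.2.1 ∉ Bk r.1 →
        ∀ r' ∈ rq (need (Fo o c0 F) sd) (P1 d Q P2), r'.2.1 ∉ Bk r'.1 → r ≠ r' →
        r.2.1 = r'.2.1 → ¬ Th.Adj (f r) (f r')) ∧
      (∀ r ∈ rq (need (Fo o c0 F) sd) (P1 d Q P2), r.2.1 ∈ Bk r.1 →
        (g r ∈ o ∨ ∃ q ∈ rq (need (Fo o c0 F) sd) (P1 d Q P2), q.2.1 ∉ Bk q.1 ∧ f q = g r) ∧
        G.Adj (g r) (f r) ∧ pt (g r) = pt (f r)) ∧
      ∀ r ∈ rq (need (Fo o c0 F) sd) (P1 d Q P2), r.2.1 ∈ Bk r.1 →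
        ∀ r' ∈ rq (need (Fo o c0 F) sd) (P1 d Q P2), r'.2.1 ∈ Bk r'.1 → g r = g r' → r = r' := by
  obtain ⟨f1, pi, hpi, hf1, hf2, hf3⟩ := stepB2 hK hθ0 hθ hd h
  have hf4 : ∀ r ∈ (rq (need (Fo o c0 F) sd) (P1 d Q P2)).filter (fun r => r.2.1 ∉ Bk r.1),
        ∀ r' ∈ (rq (need (Fo o c0 F) sd) (P1 d Q P2)).filter (fun r => r.2.1 ∉ Bk r.1),
        f1 r = f1 r' → r = r' := by
    intro r hr r' hr' he
    by_contra hne
    exact hf3 r hr r' hr' hne (Or.inl he)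
  obtain ⟨g, hg1, hg2⟩ := partners h f1 hf1 hf4
  obtain ⟨f3, h31, h32⟩ := stepB3 hK hθ0 hθ hd hI h f1 pi (fun β i => (hpi β i).1) hf1 hf2 g
    (fun r hr => (hg1 r hr).2)
  have hSp : (rq (need (Fo o c0 F) sd) Sp).card ≤ K * Sp.card := card_rqB_le h Sp h.SP
  have hnB : ∀ r ∈ rq (need (Fo o c0 F) sd) (P1 d Q P2 \ Sp), r.2.1 ∉ Bk r.1 := by
    intro r hr hc
    exact (mem_sdiff.1 (mem_rq.1 hr).1).2 (h.BS r.1 hc)
  refine ⟨fun r => if r.2.1 ∈ Bk r.1 then f3 r else f1 r, g, ?_, ?_, ?_, ?_, ?_, ?_, ?_⟩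
  · intro β i
    have h1 := cnt (need (Fo o c0 F) sd) (P1 d Q P2) Sp pt
      (fun r => if r.2.1 ∈ Bk r.1 then f3 r else f1 r) pi
      (fun r hr => by
        simp only [if_neg (hnB r hr)]
        exact hf2 r hr) β i
    have h3 := hpi β i
    beta_reduce at h1 h3 ⊢
    omega
  · intro r hr
    by_cases hS : r.2.1 ∈ Bk r.1
    · simp only [if_pos hS]
      have h2 := h31 r (mem_filter.2 ⟨hr, hS⟩)
      exact ⟨h2.2.2.1, h2.2.2.2.2.2, h2.2.2.2.1⟩
    · simp only [if_neg hS]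
      have h2 := hf1 r (mem_filter.2 ⟨hr, hS⟩)
      exact ⟨h2.1, fun hc => h2.2.1 (h.FA _ h2.2.2 hc), h2.2.2⟩
  · intro r hr hS
    simp only [if_neg hS]
    exact (hf1 r (mem_filter.2 ⟨hr, hS⟩)).2.1
  · intro r hr r' hr' he
    by_cases hS : r.2.1 ∈ Bk r.1 <;> by_cases hS' : r'.2.1 ∈ Bk r'.1
    · simp only [if_pos hS, if_pos hS'] at he
      exact h32 r (mem_filter.2 ⟨hr, hS⟩) r' (mem_filter.2 ⟨hr', hS'⟩) he
    · simp only [if_pos hS, if_neg hS'] at he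
      have h2 := h31 r (mem_filter.2 ⟨hr, hS⟩)
      exact (h2.2.2.2.2.1 (he ▸ mem_image_of_mem f1 (mem_filter.2 ⟨hr', hS'⟩))).elim
    · simp only [if_neg hS, if_pos hS'] at he
      have h2 := h31 r' (mem_filter.2 ⟨hr', hS'⟩)
      exact (h2.2.2.2.2.1 (he ▸ mem_image_of_mem f1 (mem_filter.2 ⟨hr, hS⟩))).elim
    · simp only [if_neg hS, if_neg hS'] at he
      exact hf4 r (mem_filter.2 ⟨hr, hS⟩) r' (mem_filter.2 ⟨hr', hS'⟩) he
  · intro r hr hS r' hr' hS' hne he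
    simp only [if_neg hS, if_neg hS']
    intro hc
    exact hf3 r (mem_filter.2 ⟨hr, hS⟩) r' (mem_filter.2 ⟨hr', hS'⟩) hne (Or.inr ⟨he, hc⟩)
  · intro r hr hS
    have h2 := h31 r (mem_filter.2 ⟨hr, hS⟩)
    have h3 := hg1 r (mem_filter.2 ⟨hr, hS⟩)
    simp only [if_pos hS]
    refine ⟨?_, h2.1, h2.2.1⟩
    rcases mem_union.1 h3.1 with h4 | h4
    · exact Or.inl h4
    · right
      obtain ⟨q, hq, he⟩ := mem_image.1 h4
      rw [mem_filter] at hq
      refine ⟨q, hq.1, hq.2, ?_⟩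
      simp only [if_neg hq.2]
      exact he
  · intro r hr hS r' hr' hS' he
    exact hg2 r (mem_filter.2 ⟨hr, hS⟩) r' (mem_filter.2 ⟨hr', hS'⟩) he

end

end Pool.Agent.Work.MP_db9399_da_helper71
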