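import Pool.Agent.Work.MP_db9399_da_helper71.Gre
import Pool.Agent.Work.MP_db9399_da_helper72.Stm4

/-!
# MIS1, first part: the greedy steps (helper71)
-/

set_option autoImplicit false

namespace Pool.Agent.Work.MP_db9399_da_helper71

open Finset Classical
open Pool.Agent.Work.MP_db9399_all (nb)
open Pool.Agent.Work.MP_db9399_lt (us)
open Pool.Agent.Work.MP_db9399_da
open Pool.Agent.Work.MP_db9399_da_helper72

universe u

theorem card_rq_round_le (nd : Bool → ℕ → ℕ) (B : Finset ℕ) (b : ℕ) :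
    ((rq nd B).filter fun r => r.2.1 = b).card ≤ nd false b + nd true b := by
  have h : (rq nd B).filter (fun r => r.2.1 = b) ⊆ rq nd {b} := by
    intro r hr
    rw [mem_filter, mem_rq] at hr
    rw [mem_rq, mem_singleton]
    exact ⟨hr.2, hr.1.2⟩
  refine (card_le_card h).trans ?_
  rw [card_rq]
  simp

section
variable {V : Type u} [Fintype V]

theorem mem_us {F : V → Finset ℕ} {b : ℕ} {v : V} : v ∈ us F b ↔ b ∈ F v := by
  simp [us]

theorem mem_nb {G : SimpleGraph V} {v w : V} : w ∈ nb G v ↔ G.Adj v w := by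
  simp [nb]

theorem mem_sid {sd : V → Bool} {β : Bool} {v : V} : v ∈ sid sd β ↔ sd v = β := by
  simp [sid]

theorem mem_prt {pt : V → Bool} {i : Bool} {v : V} : v ∈ prt pt i ↔ pt v = i := by
  simp [prt]

theorem mem_qtr {sd pt : V → Bool} {β i : Bool} {v : V} :
    v ∈ qtr sd pt β i ↔ sd v = β ∧ pt v = i := by
  simp [qtr]

theorem need_add (F : V → Finset ℕ) (sd : V → Bool) (b : ℕ) :
    need F sd false b + need F sd true b = (sg F sd b).natAbs := by
  unfold need sg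
  simp only [Bool.not_false, Bool.not_true]
  omega

theorem need_sub (F : V → Finset ℕ) (sd : V → Bool) (b : ℕ) :
    (need F sd false b : ℤ) - need F sd true b = - sg F sd b := by
  unfold need sg
  simp only [Bool.not_false, Bool.not_true]
  omega

theorem need_bal (F : V → Finset ℕ) (sd : V → Bool) (b : ℕ) :
    (sid sd false ∩ us F b).card + need F sd false b =
      (sid sd true ∩ us F b).card + need F sd true b := by
  unfold need
  simp only [Bool.not_false, Bool.not_true]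
  omega

theorem need_ex (F : V → Finset ℕ) (sd : V → Bool) (β : Bool) (b : ℕ)
    (h : 0 < need F sd β b) : ∃ v, sd v = !β := by
  unfold need at h
  have h2 : 0 < (sid sd (!β) ∩ us F b).card := by omega
  obtain ⟨v, hv⟩ := card_pos.1 h2
  exact ⟨v, mem_sid.1 (mem_inter.1 hv).1⟩

theorem need_one (F : V → Finset ℕ) (sd : V → Bool) (β β' : Bool) (b : ℕ)
    (h : 0 < need F sd β b) (h' : 0 < need F sd β' b) : β = β' := by
  unfold need at h h'
  cases β <;> cases β' <;> simp only [Bool.not_false, Bool.not_true] at h h' <;>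
    first
    | rfl
    | (exfalso; omega)

/-- the conflict relation of the steps 1 and 2 -/
def cfl (Th : SimpleGraph V) (r r' : Bool × ℕ × ℕ) (x x' : V) : Prop :=
  x = x' ∨ (r.2.1 = r'.2.1 ∧ Th.Adj x x')

omit [Fintype V] in
theorem cfl_symm (Th : SimpleGraph V) (r r' : Bool × ℕ × ℕ) (x x' : V)
    (h : cfl Th r r' x x') : cfl Th r' r x' x := by
  rcases h with h | ⟨h1, h2⟩
  · exact Or.inl h.symm
  · exact Or.inr ⟨h1.symm, h2.symm⟩

/-- The common counting step: a vertex of `L` without conflicts exists if `L` is larger than the number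
of the relevant used vertices plus `8` times the degree bound. -/
theorem pick (Th : SimpleGraph V) (R' K : Finset (Bool × ℕ × ℕ)) (L : Finset V)
    (f : Bool × ℕ × ℕ → V) (r : Bool × ℕ × ℕ) (t : ℝ) (ht : 0 ≤ t)
    (hK : ∀ r' ∈ R', f r' ∈ L → r' ∈ K)
    (h8 : (R'.filter fun r' => r'.2.1 = r.2.1).card ≤ 8)
    (hT : ∀ r' ∈ R', r'.2.1 = r.2.1 → ((nb Th (f r')).card : ℝ) ≤ t)
    (hL : (K.card : ℝ) + 8 * t < L.card) :
    ∃ x ∈ L, ∀ r' ∈ R', ¬ cfl Th r r' x (f r') := by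
  by_contra hcon
  push Not at hcon
  have hsub : L ⊆ K.image f ∪
      (R'.filter fun r' => r'.2.1 = r.2.1).biUnion fun r' => nb Th (f r') := by
    intro x hx
    obtain ⟨r', hr', hc⟩ := hcon x hx
    rw [mem_union]
    rcases hc with hc | ⟨h1, h2⟩
    · left
      rw [mem_image]
      exact ⟨r', hK r' hr' (hc ▸ hx), hc.symm⟩
    · right
      rw [mem_biUnion]
      exact ⟨r', mem_filter.2 ⟨hr', h1.symm⟩, mem_nb.2 h2.symm⟩
  have h1 : (L.card : ℝ) ≤ ((K.image f).card : ℝ) +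
      (((R'.filter fun r' => r'.2.1 = r.2.1).biUnion fun r' => nb Th (f r')).card : ℝ) := by
    have := (card_le_card hsub).trans (card_union_le _ _)
    exact_mod_cast this
  have h2 : ((K.image f).card : ℝ) ≤ K.card := by exact_mod_cast card_image_le
  have h3 : (((R'.filter fun r' => r'.2.1 = r.2.1).biUnion fun r' => nb Th (f r')).card : ℝ) ≤
      8 * t := by
    have h4 : ((((R'.filter fun r' => r'.2.1 = r.2.1).biUnion fun r' => nb Th (f r')).card : ℕ) : ℝ) ≤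
        ∑ r' ∈ R'.filter (fun r' => r'.2.1 = r.2.1), ((nb Th (f r')).card : ℝ) := by
      exact_mod_cast card_biUnion_le
    refine h4.trans ?_
    have h5 : ∑ r' ∈ R'.filter (fun r' => r'.2.1 = r.2.1), ((nb Th (f r')).card : ℝ) ≤
        ∑ r' ∈ R'.filter (fun r' => r'.2.1 = r.2.1), t := by
      apply sum_le_sum
      intro r' hr'
      rw [mem_filter] at hr'
      exact hT r' hr'.1 hr'.2
    refine h5.trans ?_
    rw [sum_const, nsmul_eq_mul]
    have : (((R'.filter fun r' => r'.2.1 = r.2.1).card : ℕ) : ℝ) ≤ 8 := by exact_mod_cast h8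
    exact mul_le_mul_of_nonneg_right this ht
  linarith

/-- the misses of all rounds of `P` have size at most 8 -/
theorem nd_le {G Th : SimpleGraph V} {d z : ℕ} {θ : ℝ} {sd pt : V → Bool} {Q : Bool → Finset ℕ}
    {P2 : Finset ℕ} {F A : V → Finset ℕ} {Sp Sf : Finset ℕ}
    (h : LB G Th d z θ sd pt Q P2 F A Sp Sf) (b : ℕ) (hb : b ∈ P1 d Q P2) :
    need F sd false b + need F sd true b ≤ 8 := by
  rw [need_add]
  have h1 := abs_le.1 (h.gs b hb)
  omega

theorem card_rq_le {G Th : SimpleGraph V} {d z : ℕ} {θ : ℝ} {sd pt : V → Bool} {Q : Bool → Finset ℕ}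
    {P2 : Finset ℕ} {F A : V → Finset ℕ} {Sp Sf : Finset ℕ}
    (h : LB G Th d z θ sd pt Q P2 F A Sp Sf) (B : Finset ℕ) (hB : B ⊆ P1 d Q P2) :
    (rq (need F sd) B).card ≤ 8 * B.card := by
  rw [card_rq]
  calc ∑ b ∈ B, (need F sd false b + need F sd true b) ≤ ∑ b ∈ B, 8 :=
        sum_le_sum fun b hb => nd_le h b (hB hb)
    _ = 8 * B.card := by rw [sum_const, smul_eq_mul]; ring

theorem filt_le {G Th : SimpleGraph V} {d z : ℕ} {θ : ℝ} {sd pt : V → Bool} {Q : Bool → Finset ℕ}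
    {P2 : Finset ℕ} {F A : V → Finset ℕ} {Sp Sf : Finset ℕ}
    (h : LB G Th d z θ sd pt Q P2 F A Sp Sf) (B : Finset ℕ) (R' : Finset (Bool × ℕ × ℕ))
    (hR : R' ⊆ rq (need F sd) B) (b : ℕ) (hb : b ∈ P1 d Q P2) :
    (R'.filter fun r' => r'.2.1 = b).card ≤ 8 :=
  ((card_le_card (filter_subset_filter _ hR)).trans (card_rq_round_le _ _ _)).trans (nd_le h b hb)

/-- step 1: the rounds of `Sp` -/
theorem step1 [Nonempty V] {G Th : SimpleGraph V} {d z : ℕ} {θ : ℝ} {sd pt : V → Bool}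
    {Q : Bool → Finset ℕ} {P2 : Finset ℕ} {F A : V → Finset ℕ} {Sp Sf : Finset ℕ}
    (h : LB G Th d z θ sd pt Q P2 F A Sp Sf) :
    ∃ f : Bool × ℕ × ℕ → V, (∀ r ∈ rq (need F sd) Sp, f r ∈ sid sd r.1 \ us A r.2.1) ∧
      ∀ r ∈ rq (need F sd) Sp, ∀ r' ∈ rq (need F sd) Sp, r ≠ r' → ¬ cfl Th r r' (f r) (f r') := by
  apply greedy (rq (need F sd) Sp) (fun r => sid sd r.1 \ us A r.2.1) (cfl Th) (cfl_symm Th)
  intro R' hR' r hr _ f hf
  have hr2 := mem_rq.1 hr
  have hbP : r.2.1 ∈ P1 d Q P2 := h.SP hr2.1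
  have hz := h.Ze r.2.1 hr2.1 r.1 (by omega)
  have hzz := h.Zz
  have hzz' : (100 : ℝ) * (Sp.card + 1) ≤ z := by exact_mod_cast hzz
  have hz' : (z : ℝ) ≤ (sid sd r.1 \ us A r.2.1).card := by exact_mod_cast hz
  apply pick Th R' R' (sid sd r.1 \ us A r.2.1) f r ((z : ℝ) / 100) (by positivity)
    (fun r' hr' _ => hr')
  · exact filt_le h Sp R' hR' r.2.1 hbP
  · intro r' hr' he
    have h1 := mem_rq.1 (hR' hr')
    have h2 := hf r' hr'
    rw [mem_sdiff, mem_us] at h2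
    have h3 := h.Zt r'.2.1 h1.1 (f r') h2.2
    have h4 : (100 : ℝ) * (nb Th (f r')).card ≤ z := by exact_mod_cast h3
    rw [le_div_iff₀ (by norm_num)]
    linarith
  · have h1 : R'.card ≤ 8 * Sp.card := (card_le_card hR').trans (card_rq_le h Sp h.SP)
    have h2 : (R'.card : ℝ) ≤ 8 * Sp.card := by exact_mod_cast h1
    have h3 : (0 : ℝ) ≤ Sp.card := by positivity
    linarith

/-- split of the requests of step 2 into the two parts -/
theorem split (nd : Bool → ℕ → ℕ) (B : Finset ℕ) : ∃ pi : Bool × ℕ × ℕ → Bool,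
    ∀ β i, 2 * ((rq nd B).filter fun r => r.1 = β ∧ pi r = i).card ≤ (∑ b ∈ B, nd β b) + 1 ∧
      (∑ b ∈ B, nd β b) ≤ 2 * ((rq nd B).filter fun r => r.1 = β ∧ pi r = i).card + 1 := by
  have hT : ∀ β : Bool, ∃ T ⊆ (rq nd B).filter (fun r => r.1 = β),
      T.card = (∑ b ∈ B, nd β b) / 2 := by
    intro β
    apply exists_subset_card_eq
    rw [card_rq_side]
    exact Nat.div_le_self _ _
  choose T hT1 hT2 using hT
  refine ⟨fun r => !(decide (r ∈ T r.1)), ?_⟩
  intro β i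
  have hf : (rq nd B).filter (fun r => r.1 = β ∧ (!(decide (r ∈ T r.1))) = false) = T β := by
    ext r
    simp only [mem_filter, Bool.not_eq_false', decide_eq_true_eq]
    constructor
    · rintro ⟨_, rfl, h⟩
      exact h
    · intro h
      have h1 := mem_filter.1 (hT1 β h)
      refine ⟨h1.1, h1.2, ?_⟩
      rw [h1.2]
      exact h
  have ht : ((rq nd B).filter fun r => r.1 = β ∧ (!(decide (r ∈ T r.1))) = true).card + (T β).card =
      ∑ b ∈ B, nd β b := by
    rw [← card_rq_side nd B β, ← hf, ← card_union_of_disjoint]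
    · congr 1
      ext r
      simp only [mem_union, mem_filter]
      constructor
      · rintro (⟨h1, h2, _⟩ | ⟨h1, h2, _⟩)
        · exact ⟨h1, h2⟩
        · exact ⟨h1, h2⟩
      · rintro ⟨h1, h2⟩
        cases h3 : (!(decide (r ∈ T r.1)))
        · exact Or.inr ⟨h1, h2, rfl⟩
        · exact Or.inl ⟨h1, h2, rfl⟩
    · rw [disjoint_left]
      intro r hr hr'
      rw [mem_filter] at hr hr'
      have h1 := hr.2.2
      have h2 := hr'.2.2
      rw [h1] at h2
      exact absurd h2 (by decide)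
  have h2 := hT2 β
  cases i
  · beta_reduce
    rw [hf]
    omega
  · beta_reduce
    omega

theorem qtr_large {G Th : SimpleGraph V} {d z : ℕ} {θ : ℝ} {sd pt : V → Bool} {Q : Bool → Finset ℕ}
    {P2 : Finset ℕ} {F A : V → Finset ℕ} {Sp Sf : Finset ℕ}
    (h : LB G Th d z θ sd pt Q P2 F A Sp Sf) (β i : Bool) (hv : ∃ v, sd v = !β) :
    (d : ℝ) / 2 - θ * d ≤ (qtr sd pt β i).card := by
  obtain ⟨v, hv⟩ := hv
  have h1 := h.dgp v i
  rw [abs_le] at h1
  have h2 : nb G v ∩ prt pt i ⊆ qtr sd pt β i := by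
    intro w hw
    rw [mem_inter, mem_nb, mem_prt] at hw
    rw [mem_qtr]
    refine ⟨?_, hw.2⟩
    have h3 := h.bip v w hw.1
    rw [hv] at h3
    cases β <;> cases hsw : sd w <;> simp_all
  have h3 : ((nb G v ∩ prt pt i).card : ℝ) ≤ (qtr sd pt β i).card := by
    exact_mod_cast card_le_card h2
  linarith [h1.1]

/-- steps 1 and 2: the rounds of `P1 \ Sf` -/
theorem step2 [Nonempty V] {G Th : SimpleGraph V} {d z : ℕ} {θ : ℝ} {sd pt : V → Bool}
    {Q : Bool → Finset ℕ} {P2 : Finset ℕ} {F A : V → Finset ℕ} {Sp Sf : Finset ℕ}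
    (hθ : θ ≤ 1 / 1000) (hd : 1 ≤ θ * d)
    (h : LB G Th d z θ sd pt Q P2 F A Sp Sf) :
    ∃ (f : Bool × ℕ × ℕ → V) (pi : Bool × ℕ × ℕ → Bool),
      (∀ β i, 2 * ((rq (need F sd) ((P1 d Q P2 \ Sf) \ Sp)).filter
          fun r => r.1 = β ∧ pi r = i).card ≤
          (∑ b ∈ (P1 d Q P2 \ Sf) \ Sp, need F sd β b) + 1 ∧
        (∑ b ∈ (P1 d Q P2 \ Sf) \ Sp, need F sd β b) ≤
          2 * ((rq (need F sd) ((P1 d Q P2 \ Sf) \ Sp)).filter
            fun r => r.1 = β ∧ pi r = i).card + 1) ∧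
      (∀ r ∈ rq (need F sd) (P1 d Q P2 \ Sf), sd (f r) = r.1 ∧ r.2.1 ∉ A (f r)) ∧
      (∀ r ∈ rq (need F sd) ((P1 d Q P2 \ Sf) \ Sp), pt (f r) = pi r) ∧
      ∀ r ∈ rq (need F sd) (P1 d Q P2 \ Sf), ∀ r' ∈ rq (need F sd) (P1 d Q P2 \ Sf), r ≠ r' →
        ¬ cfl Th r r' (f r) (f r') := by
  obtain ⟨f1, hf1, hf1'⟩ := step1 h
  obtain ⟨pi, hpi⟩ := split (need F sd) ((P1 d Q P2 \ Sf) \ Sp)
  have hB2 : (P1 d Q P2 \ Sf) \ Sp ⊆ P1 d Q P2 :=
    fun b hb => (mem_sdiff.1 (mem_sdiff.1 hb).1).1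
  have hd0 : (0 : ℝ) ≤ d := by positivity
  have hR1 : ((rq (need F sd) Sp).card : ℝ) ≤ 8 * (θ * d) := by
    have h1 := card_rq_le h Sp h.SP
    have h2 : ((rq (need F sd) Sp).card : ℝ) ≤ 8 * Sp.card := by exact_mod_cast h1
    have h3 := h.Sc
    linarith
  obtain ⟨f2, hf2, hf2'⟩ : ∃ f : Bool × ℕ × ℕ → V,
      (∀ r ∈ rq (need F sd) ((P1 d Q P2 \ Sf) \ Sp), f r ∈
        (qtr sd pt r.1 (pi r) \ us A r.2.1) \ (rq (need F sd) Sp).image f1) ∧
      ∀ r ∈ rq (need F sd) ((P1 d Q P2 \ Sf) \ Sp), ∀ r' ∈ rq (need F sd) ((P1 d Q P2 \ Sf) \ Sp),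
        r ≠ r' → ¬ cfl Th r r' (f r) (f r') := by
    apply greedy (rq (need F sd) ((P1 d Q P2 \ Sf) \ Sp))
      (fun r => (qtr sd pt r.1 (pi r) \ us A r.2.1) \ (rq (need F sd) Sp).image f1)
      (cfl Th) (cfl_symm Th)
    intro R' hR' r hr _ f hf
    have hr2 := mem_rq.1 hr
    have hbP : r.2.1 ∈ P1 d Q P2 := hB2 hr2.1
    have hbSp : r.2.1 ∉ Sp := (mem_sdiff.1 hr2.1).2
    have hbSf : r.2.1 ∉ Sf := (mem_sdiff.1 (mem_sdiff.1 hr2.1).1).2
    have hlt : r.2.1 < d + 2 := by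
      have := (mem_sdiff.1 hbP).1
      exact mem_range.1 this
    have hq := qtr_large h r.1 (pi r) (need_ex F sd r.1 r.2.1 (by omega))
    have hA := h.gA r.2.1 hlt hbSp hbSf
    apply pick Th R' (R'.filter fun r' => r'.1 = r.1 ∧ pi r' = pi r) _ f r (θ * d) (by linarith)
    · intro r' hr' hm
      rw [mem_filter]
      refine ⟨hr', ?_⟩
      have h1 := hf r' hr'
      simp only [mem_sdiff, mem_qtr] at h1 hm
      exact ⟨h1.1.1.1.symm.trans hm.1.1.1, h1.1.1.2.symm.trans hm.1.1.2⟩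
    · exact filt_le h _ R' hR' r.2.1 hbP
    · intro r' _ _
      exact h.Tx _
    · have h1 : ((qtr sd pt r.1 (pi r)).card : ℝ) ≤
          (((qtr sd pt r.1 (pi r) \ us A r.2.1) \ (rq (need F sd) Sp).image f1).card : ℝ) +
            ((us A r.2.1).card : ℝ) + (((rq (need F sd) Sp).image f1).card : ℝ) := by
        have e1 := card_le_card_sdiff_add_card (t := us A r.2.1) (s := qtr sd pt r.1 (pi r))
        have e2 := card_le_card_sdiff_add_card (t := (rq (need F sd) Sp).image f1)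
          (s := qtr sd pt r.1 (pi r) \ us A r.2.1)
        have e3 : (qtr sd pt r.1 (pi r)).card ≤
          ((qtr sd pt r.1 (pi r) \ us A r.2.1) \ (rq (need F sd) Sp).image f1).card +
            (us A r.2.1).card + ((rq (need F sd) Sp).image f1).card := by omega
        exact_mod_cast e3
      have h2 : (((rq (need F sd) Sp).image f1).card : ℝ) ≤ (rq (need F sd) Sp).card := by
        exact_mod_cast card_image_le
      have h3 : 2 * (R'.filter fun r' => r'.1 = r.1 ∧ pi r' = pi r).card ≤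
          (∑ b ∈ (P1 d Q P2 \ Sf) \ Sp, need F sd r.1 b) + 1 :=
        (Nat.mul_le_mul_left 2 (card_le_card (filter_subset_filter _ hR'))).trans
          (hpi r.1 (pi r)).1
      have h4 : ∑ b ∈ (P1 d Q P2 \ Sf) \ Sp, need F sd r.1 b ≤ ∑ b ∈ P1 d Q P2, need F sd r.1 b :=
        sum_le_sum_of_subset hB2
      have h5 := h.tot r.1
      have h6 : (2 : ℝ) * (R'.filter fun r' => r'.1 = r.1 ∧ pi r' = pi r).card ≤
          ((∑ b ∈ P1 d Q P2, need F sd r.1 b : ℕ) : ℝ) + 1 := by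
        exact_mod_cast h3.trans (Nat.add_le_add_right h4 1)
      have h7 : θ * d ≤ 1 / 1000 * d := mul_le_mul_of_nonneg_right hθ hd0
      nlinarith
  have hcase : ∀ r ∈ rq (need F sd) (P1 d Q P2 \ Sf),
      (r.2.1 ∈ Sp ∧ r ∈ rq (need F sd) Sp) ∨
        (r.2.1 ∉ Sp ∧ r ∈ rq (need F sd) ((P1 d Q P2 \ Sf) \ Sp)) := by
    intro r hr
    rw [mem_rq] at hr
    by_cases hS : r.2.1 ∈ Sp
    · exact Or.inl ⟨hS, mem_rq.2 ⟨hS, hr.2⟩⟩
    · exact Or.inr ⟨hS, mem_rq.2 ⟨mem_sdiff.2 ⟨hr.1, hS⟩, hr.2⟩⟩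
  refine ⟨fun r => if r.2.1 ∈ Sp then f1 r else f2 r, pi, hpi, ?_, ?_, ?_⟩
  · intro r hr
    rcases hcase r hr with ⟨hS, h1⟩ | ⟨hS, h1⟩
    · simp only [if_pos hS]
      have h2 := hf1 r h1
      rw [mem_sdiff, mem_us, mem_sid] at h2
      exact h2
    · simp only [if_neg hS]
      have h2 := hf2 r h1
      rw [mem_sdiff, mem_sdiff, mem_us, mem_qtr] at h2
      exact ⟨h2.1.1.1, h2.1.2⟩
  · intro r hr
    have hS : r.2.1 ∉ Sp := (mem_sdiff.1 (mem_rq.1 hr).1).2
    simp only [if_neg hS]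
    have h2 := hf2 r hr
    rw [mem_sdiff, mem_sdiff, mem_us, mem_qtr] at h2
    exact h2.1.1.2
  · intro r hr r' hr' hne
    rcases hcase r hr with ⟨hS, h1⟩ | ⟨hS, h1⟩ <;> rcases hcase r' hr' with ⟨hS', h1'⟩ | ⟨hS', h1'⟩
    · simp only [if_pos hS, if_pos hS']
      exact hf1' r h1 r' h1' hne
    · simp only [if_pos hS, if_neg hS']
      rintro (hc | ⟨hc, _⟩)
      · have h2 := hf2 r' h1'
        rw [mem_sdiff] at h2
        exact h2.2 (hc ▸ mem_image_of_mem f1 h1)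
      · exact hS' (hc ▸ hS)
    · simp only [if_neg hS, if_pos hS']
      rintro (hc | ⟨hc, _⟩)
      · have h2 := hf2 r h1
        rw [mem_sdiff] at h2
        exact h2.2 (hc ▸ mem_image_of_mem f1 h1')
      · exact hS (hc ▸ hS')
    · simp only [if_neg hS, if_neg hS']
      exact hf2' r h1 r' h1' hne

end

end Pool.Agent.Work.MP_db9399_da_helper71
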