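import Pool.Agent.Work.MP_db9399_da_helper71.Exch

/-!
# MP_db9399, DENSE-ALL, block LAB3, part 2: exponential moments with exact class sizes
-/

set_option autoImplicit false

namespace Pool.Agent.Work.MP_db9399_da.helper71

open Finset Classical

universe u

section tail
variable {V : Type u} [Fintype V] {J : ℕ}

theorem card_OmS_const (nd : V → Fin J) (r : Fin J → ℕ) (i : ℕ) (S : Finset V) :
    ((OmS nd r S (fun _ => i)).card : ℝ) =
      ∑ lab ∈ Om nd r, (if ∀ u ∈ S, lab u = i then (1 : ℝ) else 0) := by
  rw [OmS, Finset.card_filter]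
  push_cast
  rfl

/-- exponential moment -/
theorem mgf (nd : V → Fin J) (r : Fin J → ℕ) (j : Fin J) (i : ℕ) (hi : i < r j)
    (x : V → ℝ) (hx : ∀ v, 0 ≤ x v) :
    ∑ lab ∈ Om nd r, ∏ v ∈ nde nd j, (1 + (if lab v = i then x v else 0)) ≤
      (Om nd r).card * ∏ v ∈ nde nd j, (1 + ((sz nd r j i : ℝ) / (nde nd j).card) * x v) := by
  have h1 : ∀ lab : V → ℕ, ∏ v ∈ nde nd j, (1 + (if lab v = i then x v else 0)) =
      ∑ S ∈ (nde nd j).powerset, (∏ v ∈ S, x v) * (if ∀ u ∈ S, lab u = i then (1 : ℝ) else 0) := by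
    intro lab
    rw [Finset.prod_one_add]
    refine Finset.sum_congr rfl fun S _ => ?_
    split_ifs with h
    · rw [mul_one]
      exact Finset.prod_congr rfl fun v hv => by rw [if_pos (h v hv)]
    · rw [mul_zero]
      push Not at h
      obtain ⟨u, hu, hne⟩ := h
      exact Finset.prod_eq_zero hu (by rw [if_neg hne])
  simp only [h1]
  rw [Finset.sum_comm]
  calc ∑ S ∈ (nde nd j).powerset, ∑ lab ∈ Om nd r, (∏ v ∈ S, x v) *
      (if ∀ u ∈ S, lab u = i then (1 : ℝ) else 0) =
      ∑ S ∈ (nde nd j).powerset, (∏ v ∈ S, x v) * ((OmS nd r S (fun _ => i)).card : ℝ) := by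
        refine Finset.sum_congr rfl fun S _ => ?_
        rw [card_OmS_const, Finset.mul_sum]
    _ ≤ ∑ S ∈ (nde nd j).powerset, (∏ v ∈ S, x v) *
        ((Om nd r).card * ((sz nd r j i : ℝ) / (nde nd j).card) ^ S.card) := by
        refine Finset.sum_le_sum fun S hS => ?_
        exact mul_le_mul_of_nonneg_left (neg nd r j i hi S (mem_powerset.1 hS))
          (Finset.prod_nonneg fun v _ => hx v)
    _ = _ := by
        rw [Finset.prod_one_add, Finset.mul_sum]
        refine Finset.sum_congr rfl fun S _ => ?_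
        rw [Finset.prod_mul_distrib, Finset.prod_const]
        ring

/-- real form of the size of a class -/
theorem sz_le (nd : V → Fin J) (r : Fin J → ℕ) (j : Fin J) (i : ℕ) (hr : 1 ≤ r j)
    (hr6 : r j ≤ 6) : (sz nd r j i : ℝ) ≤ ((nde nd j).card + 5) / r j := by
  have hr0 : (0 : ℝ) < r j := by exact_mod_cast hr
  rw [le_div_iff₀ hr0, sz]
  have h := Nat.div_mul_le_self ((univ.filter (fun v => nd v = j)).card + (r j - 1 - i)) (r j)
  have h2 : ((univ.filter (fun v => nd v = j)).card + (r j - 1 - i)) / r j * r j ≤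
      (nde nd j).card + 5 := by
    refine h.trans ?_
    rw [show (univ.filter (fun v => nd v = j)) = nde nd j from rfl]
    omega
  exact_mod_cast h2

theorem sz_ge (nd : V → Fin J) (r : Fin J → ℕ) (j : Fin J) (i : ℕ) (hr : 1 ≤ r j)
    (hr6 : r j ≤ 6) : ((nde nd j).card - 5 : ℝ) / r j ≤ (sz nd r j i : ℝ) := by
  have hr0 : (0 : ℝ) < r j := by exact_mod_cast hr
  rw [div_le_iff₀ hr0, sz]
  have h := Nat.div_add_mod ((univ.filter (fun v => nd v = j)).card + (r j - 1 - i)) (r j)
  have h' := Nat.mod_lt ((univ.filter (fun v => nd v = j)).card + (r j - 1 - i)) hr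
  have h2 : (nde nd j).card ≤ ((univ.filter (fun v => nd v = j)).card + (r j - 1 - i)) / r j * r j
      + 5 := by
    rw [show (univ.filter (fun v => nd v = j)) = nde nd j from rfl] at h h' ⊢
    rw [mul_comm] at h
    omega
  have h3 : ((nde nd j).card : ℝ) ≤
      ((((univ.filter (fun v => nd v = j)).card + (r j - 1 - i)) / r j : ℕ) : ℝ) * r j + 5 := by
    exact_mod_cast h2
  linarith

/-- one tail -/
theorem tail_one (nd : V → Fin J) (r : Fin J → ℕ) (j : Fin J) (i : ℕ) (hi : i < r j)
    (hr6 : r j ≤ 6) (g : V → ℝ) (hg : ∀ v, 0 ≤ g v ∧ g v ≤ 1) (l t : ℝ) (hl : 0 < l) (hl1 : l ≤ 1) :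
    (((Om nd r).filter (fun lab => (∑ v ∈ nde nd j, g v) / r j + t <
      ∑ v ∈ (nde nd j).filter (fun v => lab v = i), g v)).card : ℝ) ≤
      (Om nd r).card * Real.exp (-(l * t) + l + l ^ 2 * (nde nd j).card) := by
  have hr : 1 ≤ r j := by omega
  have hr0 : (0 : ℝ) < r j := by exact_mod_cast hr
  set G : ℝ := ∑ v ∈ nde nd j, g v with hG
  have hG0 : 0 ≤ G := Finset.sum_nonneg fun v _ => (hg v).1
  have hGN : G ≤ (nde nd j).card := by
    calc G ≤ ∑ v ∈ nde nd j, (1 : ℝ) := Finset.sum_le_sum fun v _ => (hg v).2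
      _ = _ := by simp
  set x : V → ℝ := fun v => Real.exp (l * g v) - 1 with hx
  have hx0 : ∀ v, 0 ≤ x v := fun v => by
    have := Real.add_one_le_exp (l * g v)
    have h2 : 0 ≤ l * g v := mul_nonneg hl.le (hg v).1
    simp only [hx]; linarith
  have hx1 : ∀ v, x v ≤ l * g v + l ^ 2 := fun v => by
    have h2 : 0 ≤ l * g v := mul_nonneg hl.le (hg v).1
    have h3 : l * g v ≤ l := by nlinarith [(hg v).2]
    have h4 := Real.abs_exp_sub_one_sub_id_le (x := l * g v) (by rw [abs_of_nonneg h2]; linarith)
    have h5 := (abs_le.1 h4).2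
    have h6 : (l * g v) ^ 2 ≤ l ^ 2 := by nlinarith
    simp only [hx]; linarith
  have hE : ∀ lab : V → ℕ, Real.exp (l * ∑ v ∈ (nde nd j).filter (fun v => lab v = i), g v) =
      ∏ v ∈ nde nd j, (1 + (if lab v = i then x v else 0)) := by
    intro lab
    rw [Finset.mul_sum, Real.exp_sum, Finset.prod_filter]
    refine Finset.prod_congr rfl fun v _ => ?_
    split_ifs
    · simp only [hx]; ring
    · ring
  have hmg := mgf nd r j i hi x hx0
  simp only [← hE] at hmg
  set p : ℝ := (sz nd r j i : ℝ) / (nde nd j).card with hp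
  have hp0 : 0 ≤ p := by positivity
  have hpr : ∏ v ∈ nde nd j, (1 + p * x v) ≤ Real.exp (l * (G / r j) + l + l ^ 2 * (nde nd j).card) := by
    rcases Nat.eq_zero_or_pos (nde nd j).card with h0 | h0
    · rw [Finset.card_eq_zero] at h0
      rw [h0, Finset.prod_empty]
      refine Real.one_le_exp ?_
      positivity
    · have hN0 : (0 : ℝ) < (nde nd j).card := by exact_mod_cast h0
      have hp1 : p ≤ 1 := by
        rw [hp, div_le_one hN0]
        exact_mod_cast sz_le_card nd r j i hr h0
      have hpG : p * G ≤ G / r j + 1 := by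
        have h1 : p * G ≤ (((nde nd j).card + r j) / (r j * (nde nd j).card)) * G := by
          refine mul_le_mul_of_nonneg_right ?_ hG0
          rw [hp, div_le_div_iff₀ hN0 (by positivity)]
          have h2 : (sz nd r j i : ℝ) * r j ≤ (nde nd j).card + r j := by
            have h := Nat.div_mul_le_self
              ((univ.filter (fun v => nd v = j)).card + (r j - 1 - i)) (r j)
            have h2 : sz nd r j i * r j ≤ (nde nd j).card + r j := by
              rw [sz]
              refine h.trans ?_
              rw [show (univ.filter (fun v => nd v = j)) = nde nd j from rfl]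
              omega
            exact_mod_cast h2
          nlinarith
        have h3 : (((nde nd j).card + r j) / (r j * (nde nd j).card)) * G =
            G / r j + G / (nde nd j).card := by
          field_simp
        have h4 : G / (nde nd j).card ≤ 1 := by rw [div_le_one hN0]; exact hGN
        linarith
      calc ∏ v ∈ nde nd j, (1 + p * x v) ≤ ∏ v ∈ nde nd j, Real.exp (p * x v) := by
            refine Finset.prod_le_prod (fun v _ => ?_) fun v _ => ?_
            · have := hx0 v; positivity
            · have := Real.add_one_le_exp (p * x v); linarith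
        _ = Real.exp (∑ v ∈ nde nd j, p * x v) := (Real.exp_sum _ _).symm
        _ ≤ _ := by
          refine Real.exp_le_exp.2 ?_
          calc ∑ v ∈ nde nd j, p * x v ≤ ∑ v ∈ nde nd j, (l * (p * g v) + l ^ 2) := by
                refine Finset.sum_le_sum fun v _ => ?_
                have h1 := mul_le_mul_of_nonneg_left (hx1 v) hp0
                have h2 : p * l ^ 2 ≤ l ^ 2 := by nlinarith [sq_nonneg l]
                nlinarith
            _ = l * (p * G) + l ^ 2 * (nde nd j).card := by
                rw [Finset.sum_add_distrib, ← Finset.mul_sum, ← Finset.mul_sum,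
                  Finset.sum_const, nsmul_eq_mul]
                ring
            _ ≤ _ := by nlinarith
  have hmk : (((Om nd r).filter (fun lab => G / r j + t <
      ∑ v ∈ (nde nd j).filter (fun v => lab v = i), g v)).card : ℝ) *
      Real.exp (l * (G / r j + t)) ≤
      ∑ lab ∈ Om nd r, Real.exp (l * ∑ v ∈ (nde nd j).filter (fun v => lab v = i), g v) := by
    rw [← nsmul_eq_mul, ← Finset.sum_const]
    refine (Finset.sum_le_sum (fun lab hlab => ?_)).trans
      (Finset.sum_le_sum_of_subset_of_nonneg (Finset.filter_subset _ _)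
        fun _ _ _ => (Real.exp_pos _).le)
    rw [mem_filter] at hlab
    exact Real.exp_le_exp.2 (mul_le_mul_of_nonneg_left hlab.2.le hl.le)
  have hfin := hmk.trans (hmg.trans (mul_le_mul_of_nonneg_left hpr (Nat.cast_nonneg _)))
  rw [← le_div_iff₀ (Real.exp_pos _), mul_div_assoc, ← Real.exp_sub] at hfin
  refine hfin.trans (le_of_eq ?_)
  congr 2
  ring

end tail

end Pool.Agent.Work.MP_db9399_da.helper71
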